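import Mathlib
import Pool.Agent.Lib.H55K.D0

/-! # H28I: explicit 2- and 3-isogenies: definitions -/

open NumberField IsDedekindDomain WeierstrassCurve

namespace H28I

open H55P (IQ embF eF LF Per IsHecke Pt ac Inert Dec Nm)
open H35P (WAB Ker tt GoodW IntW)
open H55K (xc yc)

/-- The parameters of an isogeny (Velu) of degree 2 or 3 from y^2 = x^3 + A x + B to y^2 = x^3 + A' x + B'; e is the x-coordinate of the nonzero
points of the kernel. -/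
structure VI {k : Type} [Field k] (A B A' B' e t u : k) : Prop where
  disc : 4 * A ^ 3 + 27 * B ^ 2 ≠ 0
  disc' : 4 * A' ^ 3 + 27 * B' ^ 2 ≠ 0
  hA : A' = A - 5 * t
  hB : B' = B - 7 * (u + e * t)
  cs : (u = 0 ∧ e ^ 3 + A * e + B = 0 ∧ t = 3 * e ^ 2 + A) ∨
    (t = 2 * (3 * e ^ 2 + A) ∧ u = 4 * (e ^ 3 + A * e + B) ∧ 3 * e ^ 4 + 6 * A * e ^ 2 + 12 * B * e - A ^ 2 = 0)

/-- The x-coordinate of the image. -/
def vx {k : Type} [Field k] (e t u x : k) : k := x + t / (x - e) + u / (x - e) ^ 2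

/-- Its derivative: the y-coordinate of the image is this factor times y. -/
def vd {k : Type} [Field k] (e t u x : k) : k := 1 - t / (x - e) ^ 2 - 2 * u / (x - e) ^ 3

/-- Φ is the isogeny. -/
structure IsV {k : Type} [Field k] (A B A' B' e t u : k) (Φ : (WAB A B).toAffine.Point → (WAB A' B').toAffine.Point) : Prop where
  zero : Φ 0 = 0
  ker : ∀ P, P ≠ 0 → xc P = e → Φ P = 0
  ne : ∀ P, P ≠ 0 → xc P ≠ e → Φ P ≠ 0
  x : ∀ P, P ≠ 0 → xc P ≠ e → xc (Φ P) = vx e t u (xc P)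
  y : ∀ P, P ≠ 0 → xc P ≠ e → yc (Φ P) = vd e t u (xc P) * yc P

/-- The isogeny on the points over Ω, for curves over K, followed by the scaling (A'', B'') with A' = lam^4 A'', B' = lam^6 B''. -/
structure IsW {K : Type} [Field K] {Ω : Type} [Field Ω] [DecidableEq Ω] [Algebra K Ω] (A B A'' B'' e t u lam : K)
    (Φ : Pt (WAB A B) Ω →+ Pt (WAB A'' B'') Ω) : Prop where
  ker : ∀ P, P ≠ 0 → xc P = algebraMap K Ω e → Φ P = 0
  ne : ∀ P, P ≠ 0 → xc P ≠ algebraMap K Ω e → Φ P ≠ 0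
  x : ∀ P, P ≠ 0 → xc P ≠ algebraMap K Ω e →
    algebraMap K Ω lam ^ 2 * xc (Φ P) = vx (algebraMap K Ω e) (algebraMap K Ω t) (algebraMap K Ω u) (xc P)
  surj : Function.Surjective Φ
  six : ∀ P, Φ P = 0 → (6 : ℕ) • P = 0
  gal : ∀ (s : Ω ≃ₐ[K] Ω) (P : Pt (WAB A B) Ω), Φ (ac (WAB A B) s P) = ac (WAB A'' B'') s (Φ P)

/-- The short equation of W over a field of characteristic 0. -/
def sA (W : WeierstrassCurve ℤ) (k : Type) [Field k] : k := -(W.c₄ : k) / 48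

def sB (W : WeierstrassCurve ℤ) (k : Type) [Field k] : k := -(W.c₆ : k) / 864

/-- The equations W, W' over the integers are related by an explicit isogeny over the rational numbers; kap is a quotient of
discriminants, whose prime divisors are 2 or 3 and divide the discriminant of W. If the degree of the isogeny (2 or 3) is prime to the discriminant then it is 2 and the equation is
ordinary at 2 with t integral at 2. -/
structure IP (W W' : WeierstrassCurve ℤ) (kap : ℤ) (e t u lam : ℚ) : Prop where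
  lam0 : lam ≠ 0
  vi : VI (sA W ℚ) (sB W ℚ) (lam ^ 4 * sA W' ℚ) (lam ^ 6 * sB W' ℚ) e t u
  quo : lam ^ 12 * (W'.Δ : ℚ) = (kap : ℚ) * (W.Δ : ℚ)
  kd : ∃ n : ℕ, kap ∣ W.Δ ^ n
  k6 : ∃ n : ℕ, kap ∣ 6 ^ n
  two : u = 0 → (2 : ℤ) ∣ W.Δ ∨ (¬ (2 : ℤ) ∣ W.b₂ ∧ ∃ a b : ℤ, ¬ (2 : ℤ) ∣ b ∧ t = a / b)
  three : u ≠ 0 → (3 : ℤ) ∣ W.Δ

/-- An isogeny between the points over Ω, with a map back; the degree divides a power of 6. -/
def Iso6 {K : Type} [Field K] (W₁ W₂ : WeierstrassCurve K) (Ω : Type) [Field Ω] [DecidableEq Ω] [Algebra K Ω] : Prop :=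
  ∃ (Φ : Pt W₁ Ω →+ Pt W₂ Ω) (Ψ : Pt W₂ Ω →+ Pt W₁ Ω), (∀ P, Ψ (Φ P) = (6 : ℕ) • P) ∧ (∀ P, Φ (Ψ P) = (6 : ℕ) • P) ∧
    (∀ (s : Ω ≃ₐ[K] Ω) P, Φ (ac W₁ s P) = ac W₂ s (Φ P)) ∧ ∀ (s : Ω ≃ₐ[K] Ω) P, Ψ (ac W₂ s P) = ac W₁ s (Ψ P)

end H28I
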