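import Mathlib
import Pool.Agent.Lib.H28I.D

/-! # H28I, part C: isogenies with a map back -/

open NumberField IsDedekindDomain WeierstrassCurve

namespace H28I

open H55P (IQ embF eF LF Per IsHecke Pt ac Inert Dec Nm)
open H35P (WAB Ker tt GoodW IntW)
open H55K (xc yc)

variable {K : Type} [Field K] {Ω : Type} [Field Ω] [DecidableEq Ω] [Algebra K Ω]

/-- Chunk C1 (S/M). Ψ P' = 6 • P for any P with Φ P = P' (Classical.choose); well defined: Φ P = Φ Q implies 6 • (P - Q) = 0. Additive (AddMonoidHom.mk'). Ψ (Φ P) = 6 • P, Φ (Ψ P') = 6 • P'. Equivariance of Ψ: Φ (ac s P) = ac s P'. -/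
theorem iso6_of_surj {W₁ W₂ : WeierstrassCurve K} (Φ : Pt W₁ Ω →+ Pt W₂ Ω) (hs : Function.Surjective Φ)
    (h6 : ∀ P, Φ P = 0 → (6 : ℕ) • P = 0) (hg : ∀ (s : Ω ≃ₐ[K] Ω) (P : Pt W₁ Ω), Φ (ac W₁ s P) = ac W₂ s (Φ P)) :
    Iso6 W₁ W₂ Ω := by
  have hg' := hg
  clear hg
  choose g hg using hs
  have hwd : ∀ P Q : Pt W₁ Ω, Φ P = Φ Q → (6 : ℕ) • P = (6 : ℕ) • Q := by
    intro P Q h
    have h1 := h6 (P - Q) (by rw [map_sub, h, sub_self])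
    rw [nsmul_sub] at h1
    exact sub_eq_zero.1 h1
  refine ⟨Φ, AddMonoidHom.mk' (fun P => (6 : ℕ) • g P) (fun P Q => ?_), fun P => ?_, fun P => ?_, hg', fun s P => ?_⟩
  · rw [← nsmul_add]
    refine hwd _ _ ?_
    rw [hg, map_add, hg, hg]
  · show (6 : ℕ) • g (Φ P) = (6 : ℕ) • P
    exact hwd _ _ (hg _)
  · show Φ ((6 : ℕ) • g P) = (6 : ℕ) • P
    rw [map_nsmul, hg]
  · show (6 : ℕ) • g (ac W₂ s P) = ac W₁ s ((6 : ℕ) • g P)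
    rw [map_nsmul]
    refine hwd _ _ ?_
    rw [hg, hg', hg]

/-- Chunk C1 (S). -/
theorem iso6_symm {W₁ W₂ : WeierstrassCurve K} (h : Iso6 W₁ W₂ Ω) : Iso6 W₂ W₁ Ω := by
  obtain ⟨Φ, Ψ, h1, h2, h3, h4⟩ := h
  exact ⟨Ψ, Φ, h2, h1, h4, h3⟩

end H28I
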