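import Mathlib
import Pool.Agent.Lib.H28I.D
import Pool.Agent.Lib.H13Z.TR

/-! # H28I, part C: the Selmer group -/

open NumberField IsDedekindDomain WeierstrassCurve

namespace H28I

open H55P (IQ embF eF LF Per IsHecke Pt ac Inert Dec Nm)
open H35P (WAB Ker tt GoodW IntW)
open H55K (xc yc)

/-- Chunk C2 (S). gcd(6, p) = 1: integers with 6 a + p b = 1; a 6 T + b p T = T. -/
theorem six_inv {M : Type} [AddCommGroup M] {p : ℕ} (hp : p.Prime) (h5 : 5 ≤ p) : ∃ a b : ℤ, ∀ T : M, a • ((6 : ℕ) • T) + b • (p • T) = T := by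
  have hc : Nat.Coprime 6 p := by
    rw [Nat.coprime_comm, hp.coprime_iff_not_dvd]
    intro hd
    have h1 : p ≤ 6 := Nat.le_of_dvd (by norm_num) hd
    interval_cases p
    · omega
    · exact absurd hp (by norm_num)
  have hc' : IsCoprime ((6 : ℕ) : ℤ) (p : ℤ) := Nat.isCoprime_iff_coprime.2 hc
  obtain ⟨a, b, hab⟩ := hc'
  refine ⟨a, b, fun T => ?_⟩
  rw [← natCast_zsmul, ← natCast_zsmul, smul_smul, smul_smul, ← add_smul, hab, one_smul]

variable {K : Type} [Field K] {W₁ W₂ : WeierstrassCurve K} {p : ℕ}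

open Classical in
/-- The image of a cocycle under an equivariant homomorphism is a cocycle. -/
theorem c2_coc {V₁ V₂ : WeierstrassCurve K} (Ψ : Pt V₁ (AlgebraicClosure K) →+ Pt V₂ (AlgebraicClosure K))
    (h4 : ∀ (s : AlgebraicClosure K ≃ₐ[K] AlgebraicClosure K) P, Ψ (ac V₁ s P) = ac V₂ s (Ψ P))
    {c : (AlgebraicClosure K ≃ₐ[K] AlgebraicClosure K) → Pt V₁ (AlgebraicClosure K)} (hc : H55P.Cocycle V₁ c) :
    H55P.Cocycle V₂ (fun s => Ψ (c s)) := by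
  refine ⟨fun s t => ?_, ?_⟩
  · rw [hc.mul, map_add, h4]
  · obtain ⟨L, hL, h⟩ := hc.cont
    refine ⟨L, hL, fun s hs => ?_⟩
    rw [h s hs, map_zero]

open Classical in
/-- Chunk C2 (M). Φ, Ψ from h. Let c be a cocycle for W₂ with p • c s = 0 and local conditions. Ψ ∘ c is a cocycle for W₁ with the same properties (the field L of H55P.Cocycle.cont is the same; the local points Ψ P). So Ψ (c s) = ac s T - T with p • T = 0; apply Φ: 6 • c s = ac s (Φ T) - Φ T; a • (..) and p • c s = 0 (six_inv):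
c s = ac s T' - T' with T' = a • Φ T. -/
theorem sel_iso (hp : p.Prime) (h5 : 5 ≤ p) (h : Iso6 W₁ W₂ (AlgebraicClosure K)) (hS : H55P.SelTriv W₁ p) : H55P.SelTriv W₂ p := by
  obtain ⟨Φ, Ψ, h1, h2, h3, h4⟩ := h
  obtain ⟨a, b, hab⟩ := six_inv (M := Pt W₂ (AlgebraicClosure K)) hp h5
  intro c hc hpc hV
  obtain ⟨T, hT, hcT⟩ := hS (fun s => Ψ (c s)) (c2_coc Ψ h4 hc)
    (fun s => by
      rw [← map_nsmul, hpc s, map_zero])
    (fun V => by
      obtain ⟨P, hP⟩ := hV V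
      refine ⟨Ψ P, fun s hs => ?_⟩
      rw [hP s hs, map_sub, h4])
  refine ⟨a • Φ T, ?_, fun s => ?_⟩
  · rw [smul_comm, ← map_nsmul, hT, map_zero, smul_zero]
  · have e1 : (6 : ℕ) • c s = ac W₂ s (Φ T) - Φ T := by
      rw [← h2, hcT s, map_sub, h3]
    have e2 := hab (c s)
    rw [hpc s, smul_zero, add_zero, e1, smul_sub, ← map_zsmul] at e2
    exact e2.symm

open Classical in
/-- Chunk C2 (M). The same: p • c s = ac s Q - Q gives p • Ψ (c s) = ac s (Ψ Q) - Ψ Q; Ψ (c s) = ac s P - P; 6 • c s = ac s (Φ P) - Φ P; c s = a • 6 • c s + b • p • c s = ac s P' - P' with P' = a • Φ P + b • Q. -/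
theorem sha_iso (hp : p.Prime) (h5 : 5 ≤ p) (h : Iso6 W₁ W₂ (AlgebraicClosure K)) (hS : H55P.ShaTriv W₁ p) : H55P.ShaTriv W₂ p := by
  obtain ⟨Φ, Ψ, h1, h2, h3, h4⟩ := h
  obtain ⟨a, b, hab⟩ := six_inv (M := Pt W₂ (AlgebraicClosure K)) hp h5
  intro c hc hQ hV
  obtain ⟨Q, hQ⟩ := hQ
  obtain ⟨T, hcT⟩ := hS (fun s => Ψ (c s)) (c2_coc Ψ h4 hc)
    ⟨Ψ Q, fun s => by
      change p • Ψ (c s) = _
      rw [← map_nsmul, hQ s, map_sub, h4]⟩
    (fun V hV0 => by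
      obtain ⟨P, hP⟩ := hV V hV0
      refine ⟨Ψ P, fun s hs => ?_⟩
      rw [hP s hs, map_sub, h4])
  refine ⟨a • Φ T + b • Q, fun s => ?_⟩
  have e1 : (6 : ℕ) • c s = ac W₂ s (Φ T) - Φ T := by
    rw [← h2, hcT s, map_sub, h3]
  have e2 := hab (c s)
  rw [hQ s, e1, smul_sub, smul_sub] at e2
  have e3 : ac W₂ s (a • Φ T + b • Q) = a • ac W₂ s (Φ T) + b • ac W₂ s Q := by
    rw [map_add, map_zsmul, map_zsmul]
  rw [e3, ← e2]
  abel

open Classical in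
/-- Chunk C2 (M). c for W₁; Φ ∘ c for W₂. If Φ (c s) = ac s T - T with p • T = 0 then 6 • c s = ac s (Ψ T) - Ψ T and c s = ac s T' - T', T' = a • Ψ T, p • T' = 0: contradiction. -/
theorem selnon_iso (hp : p.Prime) (h5 : 5 ≤ p) (h : Iso6 W₁ W₂ (AlgebraicClosure K)) (hS : H13Z.SelNonT W₁ p) : H13Z.SelNonT W₂ p := by
  obtain ⟨Φ, Ψ, h1, h2, h3, h4⟩ := h
  obtain ⟨a, b, hab⟩ := six_inv (M := Pt W₁ (AlgebraicClosure K)) hp h5
  obtain ⟨c, hc, hpc, hV, hn⟩ := hS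
  refine ⟨fun s => Φ (c s), c2_coc Φ h3 hc, fun s => ?_, fun V hV0 => ?_, ?_⟩
  · change p • Φ (c s) = 0
    rw [← map_nsmul, hpc s, map_zero]
  · obtain ⟨P, hP⟩ := hV V hV0
    refine ⟨Φ P, fun s hs => ?_⟩
    change Φ (c s) = _
    rw [hP s hs, map_sub, h3]
  · rintro ⟨T, hT, hcT⟩
    apply hn
    refine ⟨a • Ψ T, ?_, fun s => ?_⟩
    · rw [smul_comm, ← map_nsmul, hT, map_zero, smul_zero]
    · have e1 : (6 : ℕ) • c s = ac W₁ s (Ψ T) - Ψ T := by
        have e3 : Φ (c s) = ac W₂ s T - T := hcT s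
        rw [← h1, e3, map_sub, h4]
      have e2 := hab (c s)
      rw [hpc s, smul_zero, add_zero, e1, smul_sub, ← map_zsmul] at e2
      exact e2.symm

end H28I
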