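import Mathlib
import Pool.Agent.Lib.H28I.C2
import Pool.Agent.Lib.H55P.S5

/-! # H28I, part C: the points over K -/

open NumberField IsDedekindDomain WeierstrassCurve

namespace H28I

open H55P (IQ embF eF LF Per IsHecke Pt ac Inert Dec Nm)
open H35P (WAB Ker tt GoodW IntW)
open H55K (xc yc)

open Classical in
/-- Chunk C3 (M). J₁, J₂ the injective maps from the points over K to the points over the algebraic closure (Affine.Point.map (Algebra.ofId ..); the points of W over K and Pt W K = the points of W⁄K: WeierstrassCurve.map_id, see H13Z.tr_divp). Let P be a point of W₂ over K. Ψ (J₂ P) is fixed by all s (h, and ac s (J₂ P) = J₂ P as in H13Z.sha_or_point),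
so it is J₁ Q (H13Z.tr_fixed). With n = the number of points of W₁ over K: n • Q = 0, so 6 n • J₂ P = Φ Ψ (n • J₂ P) = 0. The points of W₂ over the algebraic closure killed by 6 n > 0 are finitely many (H55P.tors_fin in H55P/S5.lean; instance IsElliptic from hΔ), J₂ is injective: finite.
If p divides the number of points of W₂ there is P ≠ 0 with p • P = 0 (Cauchy: exists_prime_addOrderOf_dvd_card'), Q with J₁ Q = Ψ (J₂ P), p • Q = 0, so Q = 0 (Nat.card prime to p: addOrderOf_dvd_natCard), 6 • J₂ P = 0 and p • J₂ P = 0: P = 0 (six_inv). -/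
theorem pts_iso {K : Type} [Field K] [NumberField K] {W₁ W₂ : WeierstrassCurve K} {p : ℕ} (hp : p.Prime) (h5 : 5 ≤ p) (hΔ : W₂.Δ ≠ 0)
    (h : Iso6 W₁ W₂ (AlgebraicClosure K)) (hf : Finite W₁.toAffine.Point) (hc : ¬ p ∣ Nat.card W₁.toAffine.Point) :
    Finite W₂.toAffine.Point ∧ ¬ p ∣ Nat.card W₂.toAffine.Point := by
  obtain ⟨Φ, Ψ, h1, h2, hΦ, hΨ⟩ := h
  have hW₁ : W₁⁄K = W₁ := WeierstrassCurve.map_id W₁
  have hW₂ : W₂⁄K = W₂ := WeierstrassCurve.map_id W₂
  have hf' : Finite (Pt W₁ K) := by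
    have : Finite (W₁⁄K).toAffine.Point := by rw [hW₁]; exact hf
    exact this
  have hc' : ¬ p ∣ Nat.card (Pt W₁ K) := by
    have : Nat.card (W₁⁄K).toAffine.Point = Nat.card W₁.toAffine.Point := by rw [hW₁]
    rw [← this] at hc
    exact hc
  obtain ⟨J₁, hJ₁⟩ : ∃ J : Pt W₁ K →+ Pt W₁ (AlgebraicClosure K),
      J = Affine.Point.map (W' := W₁.toAffine) (Algebra.ofId K (AlgebraicClosure K)) := ⟨_, rfl⟩
  obtain ⟨J₂, hJ₂⟩ : ∃ J : Pt W₂ K →+ Pt W₂ (AlgebraicClosure K),
      J = Affine.Point.map (W' := W₂.toAffine) (Algebra.ofId K (AlgebraicClosure K)) := ⟨_, rfl⟩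
  have i1 : Function.Injective J₁ := by
    rw [hJ₁]
    exact Affine.Point.map_injective (Algebra.ofId K (AlgebraicClosure K))
  have i2 : Function.Injective J₂ := by
    rw [hJ₂]
    exact Affine.Point.map_injective (Algebra.ofId K (AlgebraicClosure K))
  have f2 : ∀ s P, ac W₂ s (J₂ P) = J₂ P := by
    intro s P
    rw [hJ₂]
    unfold ac
    rw [Affine.Point.map_map]
    congr 2
    exact Subsingleton.elim _ _
  have hQ : ∀ P : Pt W₂ K, ∃ Q : Pt W₁ K, J₁ Q = Ψ (J₂ P) := by
    intro P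
    rw [hJ₁]
    exact H13Z.tr_fixed W₁ (Ψ (J₂ P)) fun s => by rw [← hΨ, f2]
  have hn : 0 < Nat.card (Pt W₁ K) := Nat.card_pos
  have hell : W₂.IsElliptic := ⟨isUnit_iff_ne_zero.2 hΔ⟩
  have hkill : ∀ P : Pt W₂ K, (6 * Nat.card (Pt W₁ K)) • J₂ P = 0 := by
    intro P
    obtain ⟨Q, hQ⟩ := hQ P
    have h3 : Nat.card (Pt W₁ K) • Q = 0 := by
      have := card_nsmul_eq_zero' (x := Q)
      exact this
    have h4 : Nat.card (Pt W₁ K) • Ψ (J₂ P) = 0 := by
      rw [← hQ, ← map_nsmul, h3, map_zero]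
    have h5 := congrArg Φ h4
    rw [map_nsmul, h2, map_zero] at h5
    rw [mul_comm, mul_nsmul', h5]
  have hfin : Finite (Pt W₂ K) := by
    have h3 := H55P.tors_fin (Ω := AlgebraicClosure K) W₂ (6 * Nat.card (Pt W₁ K)) (by omega)
    have h4 : Finite {P : Pt W₂ (AlgebraicClosure K) | (6 * Nat.card (Pt W₁ K)) • P = 0} := h3
    exact Finite.of_injective (fun P : Pt W₂ K => (⟨J₂ P, hkill P⟩ : {P : Pt W₂ (AlgebraicClosure K) | (6 * Nat.card (Pt W₁ K)) • P = 0}))
      fun P Q hPQ => i2 (congrArg Subtype.val hPQ)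
  have hnd : ¬ p ∣ Nat.card (Pt W₂ K) := by
    intro hd
    have : Fact p.Prime := ⟨hp⟩
    obtain ⟨P, hP⟩ := exists_prime_addOrderOf_dvd_card' p hd
    have hpP : p • P = 0 := by
      rw [← hP]
      exact addOrderOf_nsmul_eq_zero P
    have hP0 : P ≠ 0 := by
      intro h0
      rw [h0, addOrderOf_zero] at hP
      exact hp.one_lt.ne hP
    obtain ⟨Q, hQ⟩ := hQ P
    have hpQ : p • Q = 0 := by
      apply i1
      rw [map_nsmul, hQ, ← map_nsmul, ← map_nsmul, hpP, map_zero, map_zero, map_zero]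
    have hQ0 : Q = 0 := by
      by_contra hne
      have h3 : addOrderOf Q = p := addOrderOf_eq_prime hpQ hne
      have h4 : addOrderOf Q ∣ Nat.card (Pt W₁ K) := addOrderOf_dvd_natCard Q
      rw [h3] at h4
      exact hc' h4
    rw [hQ0, map_zero] at hQ
    have h6 : (6 : ℕ) • J₂ P = 0 := by
      rw [← h2, ← hQ, map_zero]
    have h7 : p • J₂ P = 0 := by
      rw [← map_nsmul, hpP, map_zero]
    obtain ⟨a, b, hab⟩ := six_inv (M := Pt W₂ (AlgebraicClosure K)) hp h5
    have h8 := hab (J₂ P)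
    rw [h6, h7, smul_zero, smul_zero, add_zero] at h8
    apply hP0
    apply i2
    rw [← h8, map_zero]
  constructor
  · have : Finite (W₂⁄K).toAffine.Point := hfin
    rw [hW₂] at this
    exact this
  · have : Nat.card (W₂⁄K).toAffine.Point = Nat.card W₂.toAffine.Point := by rw [hW₂]
    rw [← this]
    exact hnd

end H28I
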