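import Mathlib
import Pool.Agent.Lib.H28I.C1
import Pool.Agent.Lib.H28I.C3
import Pool.Agent.Lib.H55K.FB6A
import Pool.Agent.Lib.H55K.FC1

/-! # H28I, part A: transfer of the conclusions -/

open NumberField IsDedekindDomain WeierstrassCurve

namespace H28I

open H55P (IQ embF eF LF Per IsHecke Pt ac Inert Dec Nm)
open H35P (WAB Ker tt GoodW IntW)
open H55K (xc yc)
open H55K.TQ

open Classical in
/-- What is the same for W and W' over K. -/
structure Same (p : ℕ) (W W' : WeierstrassCurve ℤ) (K : Type) [Field K] [NumberField K] : Prop where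
  lf : ∀ n : ℕ, (W'⁄K).LFunction n = (W⁄K).LFunction n
  per : ∀ L L' : PeriodPair, PerZ W L → PerZ W' L' → ∀ V : ValuationSubring ℂ, V.valuation (p : ℂ) < 1 → ∀ x : ℂ,
    V.valuation (lG K W' L' x) = V.valuation (lG K W L x)
  ex : ∃ L : PeriodPair, PerZ W L
  ex' : ∃ L : PeriodPair, PerZ W' L
  iso : Iso6 (W⁄K) (W'⁄K) (AlgebraicClosure K)
  disc : W.Δ ≠ 0
  disc' : W'.Δ ≠ 0

variable {p : ℕ} {W W' : WeierstrassCurve ℤ} {K : Type} [Field K] [NumberField K]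

/-- Chunk A0 (S). The L-series depend only on the coefficients (h.lf, funext; WeierstrassCurve.LSeries is the LSeries of LFunction: rfl or unfold). -/
theorem same_ser (h : Same p W W' K) (s : ℂ) :
    (LSeriesSummable (fun n => (((W'⁄K).LFunction n : ℤ) : ℂ)) s ↔ LSeriesSummable (fun n => (((W⁄K).LFunction n : ℤ) : ℂ)) s) ∧
      (W'⁄K).LSeries s = (W⁄K).LSeries s := by
  have e : (fun n => (((W'⁄K).LFunction n : ℤ) : ℂ)) = fun n => (((W⁄K).LFunction n : ℤ) : ℂ) := by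
    funext n
    rw [h.lf n]
  refine ⟨by rw [e], ?_⟩
  show LSeries (fun n => (((W'⁄K).LFunction n : ℤ) : ℂ)) s = LSeries (fun n => (((W⁄K).LFunction n : ℤ) : ℂ)) s
  rw [e]

theorem a0_ser (h : Same p W W' K) (Λ : ℂ → ℂ) :
    (∀ s : ℂ, 3 / 2 < s.re →
      LSeriesSummable (fun n => (((W'⁄K).LFunction n : ℤ) : ℂ)) s ∧ Λ s = (W'⁄K).LSeries s) ↔
    (∀ s : ℂ, 3 / 2 < s.re →
      LSeriesSummable (fun n => (((W⁄K).LFunction n : ℤ) : ℂ)) s ∧ Λ s = (W⁄K).LSeries s) := by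
  refine forall_congr' fun s => imp_congr_right fun _ => ?_
  rw [(same_ser h s).1, (same_ser h s).2]

theorem a0_nat (hp : p.Prime) {n : ℕ} (hn : ¬ p ∣ n) (V : ValuationSubring ℂ) (hV : V.valuation (p : ℂ) < 1) :
    V.valuation (n : ℂ) = 1 := by
  have h := fc1_one hp V hV (n : ℤ) (fun h => hn (Int.natCast_dvd_natCast.1 h))
  exact_mod_cast h

theorem a0_sha (K : Type) [Field K] [NumberField K] (W : WeierstrassCurve ℤ) (L : PeriodPair) (L1 : ℂ) (V : ValuationSubring ℂ) :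
    V.valuation (shaG K W L L1) = V.valuation (lG K W L L1) * V.valuation (Nat.card (W⁄K).toAffine.Point : ℂ) ^ 2 := by
  rw [shaG_lG, map_mul, map_pow]

theorem a0_disc {W : WeierstrassCurve ℤ} (h : W.Δ ≠ 0) (K : Type) [Field K] [NumberField K] : (W⁄K).Δ ≠ 0 := by
  have e : (W⁄K).Δ = algebraMap ℤ K W.Δ := WeierstrassCurve.map_Δ W (algebraMap ℤ K)
  rw [e]
  intro h0
  exact h ((injective_iff_map_eq_zero (algebraMap ℤ K)).1 (RingHom.injective_int _) _ h0)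

theorem a0_two {Γ : Type*} [LinearOrderedCommGroupWithZero Γ] {a b : Γ} (ha : a ≤ 1) (hb : b ≤ 1) (h : a * b ^ 2 = 1) :
    a = 1 ∧ b = 1 := by
  have h1 : b = 1 := by
    by_contra hne
    have hlt : b < 1 := lt_of_le_of_ne hb hne
    have h2 : a * b ^ 2 ≤ b := by
      calc a * b ^ 2 ≤ 1 * b ^ 2 := mul_le_mul_left ha _
        _ = b * b := by rw [one_mul, pow_two]
        _ ≤ 1 * b := mul_le_mul_left hb _
        _ = b := one_mul _
    rw [h] at h2
    exact absurd hlt (not_lt.2 h2)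
  exact ⟨by rw [h1, one_pow, mul_one] at h; exact h, h1⟩

/-- Chunk A0 (S). The same Λ; h.per (for L from h.ex); V.valuation_le_one_iff. -/
theorem same_int (h : Same p W W' K) (hI : AnIntG p W K) : AnIntG p W' K := by
  obtain ⟨-, Λ, hΛ, hs, hv⟩ := hI
  obtain ⟨L, hL⟩ := h.ex
  refine ⟨h.ex', Λ, hΛ, (a0_ser h Λ).2 hs, fun L' hL' A hA => ?_⟩
  rw [← A.valuation_le_one_iff, h.per L L' hL hL' A hA]
  exact (A.valuation_le_one_iff _).2 (hv L hL A hA)

/-- Chunk A0 (S). The same Λ; NonP is about valuations: unfold H55P.NonP (H55P/CStm.lean) and use h.per. -/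
theorem same_non (h : Same p W W' K) (hI : AnNonG p W K) : AnNonG p W' K := by
  obtain ⟨-, Λ, hΛ, hs, hv⟩ := hI
  obtain ⟨L, hL⟩ := h.ex
  refine ⟨h.ex', Λ, hΛ, (a0_ser h Λ).2 hs, fun L' hL' A hA => ?_⟩
  rw [h.per L L' hL hL' A hA]
  exact hv L hL A hA

/-- Chunk A0 (S). -/
theorem same_lnz (h : Same p W W' K) : LNz W' K ↔ LNz W K := by
  constructor
  · rintro ⟨Λ, hΛ, hs, hne⟩
    exact ⟨Λ, hΛ, (a0_ser h Λ).1 hs, hne⟩
  · rintro ⟨Λ, hΛ, hs, hne⟩
    exact ⟨Λ, hΛ, (a0_ser h Λ).2 hs, hne⟩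

/-- Chunk A0 (M). Λ is the same. shaG = lG #E^2 (shaG_lG, FB6A.lean). By hB the number of points of W over K is finite, prime to p, so its value is 1 at all V above p (it is not 0; fc1_one), so V(lG W) = 1 = V(lG W'); pts_iso: the same for W'. -/
theorem same_unit (hp : p.Prime) (h5 : 5 ≤ p) (h : Same p W W' K) (hA : AnUnitG p W K) (hB : BSDPG p W K) : AnUnitG p W' K := by
  obtain ⟨-, Λ, hΛ, hs, hne, hu⟩ := hA
  obtain ⟨⟨-, -, hf, hc⟩, -⟩ := hB
  obtain ⟨L, hL⟩ := h.ex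
  obtain ⟨hf', hc'⟩ := pts_iso hp h5 (a0_disc h.disc' K) h.iso hf hc
  refine ⟨h.ex', Λ, hΛ, (a0_ser h Λ).2 hs, hne, fun L' hL' V hV => ?_⟩
  have h1 := hu L hL V hV
  rw [a0_sha, a0_nat hp hc V hV, one_pow, mul_one] at h1
  rw [a0_sha, a0_nat hp hc' V hV, one_pow, mul_one, h.per L L' hL hL' V hV, h1]

/-- Chunk A0 (M). Let n' be the number of points of W' over K (Nat.card, 0 if infinite), Λ' as in hA, Λ from hI: Λ 1 = Λ' 1 (TW1_ident, same_ser). L from h.ex, L' from h.ex'. For every V above p: V(lG W')V(n')^2 = 1, V(lG W') = V(lG W) ≤ 1, V(n') ≤ 1, so V(lG W) = 1 and V(n') = 1. A V above p exists (H55P.exists_above_p): n' ≠ 0, so finite (Nat.finite_of_card_ne_zero), and p does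
not divide n'. pts_iso for the inverse isogeny (iso6_symm): the number n of points of W over K is finite (Nat.card_pos: nonempty) and prime to p, V(n) = 1. So V(shaG W) = V(lG W) V(n)^2 = 1. -/
theorem same_unit' (hp : p.Prime) (h5 : 5 ≤ p) (h : Same p W W' K) (hI : AnIntG p W K) (hA : AnUnitG p W' K) : AnUnitG p W K := by
  obtain ⟨-, Λ, hΛ, hs, hi⟩ := hI
  obtain ⟨-, Λ', hΛ', hs', hne, hu⟩ := hA
  have e1 : Λ 1 = Λ' 1 := H55N.TW1_ident (1 / 2) Λ Λ' hΛ hΛ'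
    (fun s h32 => by rw [(hs s h32).2, (hs' s h32).2, (same_ser h s).2]) (by norm_num) 1 (by norm_num)
  obtain ⟨L, hL⟩ := h.ex
  obtain ⟨L', hL'⟩ := h.ex'
  have key : ∀ V : ValuationSubring ℂ, V.valuation (p : ℂ) < 1 →
      V.valuation (lG K W L (Λ' 1)) = 1 ∧ V.valuation (Nat.card (W'⁄K).toAffine.Point : ℂ) = 1 := by
    intro V hV
    have h1 := hu L' hL' V hV
    rw [a0_sha, h.per L L' hL hL' V hV] at h1
    refine a0_two ?_ ?_ h1
    · rw [← e1]
      exact (V.valuation_le_one_iff _).2 (hi L hL V hV)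
    · have h2 := V.valuation_le_one ((Nat.card (W'⁄K).toAffine.Point : ℕ) : V)
      exact_mod_cast h2
  obtain ⟨V₀, hV₀⟩ := H55P.exists_above_p p hp
  have hn0 : Nat.card (W'⁄K).toAffine.Point ≠ 0 := by
    intro h0
    have h1 := (key V₀ hV₀).2
    rw [h0, Nat.cast_zero, map_zero] at h1
    exact zero_ne_one h1
  have hnp : ¬ p ∣ Nat.card (W'⁄K).toAffine.Point := by
    rintro ⟨m, hm⟩
    have h1 := (key V₀ hV₀).2
    have h2 : V₀.valuation (m : ℂ) ≤ 1 := by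
      have h3 := V₀.valuation_le_one ((m : ℕ) : V₀)
      exact_mod_cast h3
    rw [hm, Nat.cast_mul, map_mul] at h1
    have h4 : V₀.valuation (p : ℂ) * V₀.valuation (m : ℂ) ≤ V₀.valuation (p : ℂ) := by
      calc V₀.valuation (p : ℂ) * V₀.valuation (m : ℂ) ≤ V₀.valuation (p : ℂ) * 1 := mul_le_mul_right h2 _
        _ = V₀.valuation (p : ℂ) := mul_one _
    rw [h1] at h4
    exact absurd hV₀ (not_lt.2 h4)
  obtain ⟨hf, hc⟩ := pts_iso hp h5 (a0_disc h.disc K) (by classical exact iso6_symm h.iso) (Nat.finite_of_card_ne_zero hn0) hnp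
  refine ⟨h.ex, Λ', hΛ', (a0_ser h Λ').1 hs', hne, fun L₁ hL₁ V hV => ?_⟩
  have h1 : V.valuation (lG K W L₁ (Λ' 1)) = 1 := by
    rw [← h.per L₁ L' hL₁ hL' V hV, h.per L L' hL hL' V hV]
    exact (key V hV).1
  rw [a0_sha, a0_nat hp hc V hV, one_pow, mul_one, h1]

/-- Chunk A0 (S). sel_iso, sha_iso, pts_iso and hA. -/
theorem same_bsd (hp : p.Prime) (h5 : 5 ≤ p) (h : Same p W W' K) (hB : BSDPG p W K) (hA : AnUnitG p W' K) : BSDPG p W' K := by
  obtain ⟨⟨h1, h2, h3, h4⟩, -⟩ := hB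
  exact ⟨⟨sel_iso hp h5 h.iso h1, sha_iso hp h5 h.iso h2, pts_iso hp h5 (a0_disc h.disc' K) h.iso h3 h4⟩, hA⟩

end H28I
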