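import Mathlib
import Pool.Agent.Lib.H28I.D
import Pool.Agent.Lib.H13D.C4

/-! # H28I, part E: the good model of an equation over the integers -/

open NumberField IsDedekindDomain WeierstrassCurve

namespace H28I

open H55P (IQ embF eF LF Per IsHecke Pt ac Inert Dec Nm)
open H35P (WAB Ker tt GoodW IntW)
open H55K (xc yc)
open H13D
open H55K (CMA ak)

/-- Chunk E0 (S/M). H13D.exists_rm (C4.lean) for W₀ = W⁄(𝓞 F): the coefficients of W₀ are the images of the integers W.c₄, W.c₆, W.b₂ (map_c₄, map_c₆, map_b₂), so A = sA W F, B = sB W F and r = W.b₂/12 in Ω. -/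
theorem exists_rmZ {F : Type} [Field F] [NumberField F] [IQ F] {Ω : Type} [Field Ω] [DecidableEq Ω] [Algebra F Ω] [IsAlgClosed Ω]
    {V : ValuationSubring Ω} (W : WeierstrassCurve ℤ) (v : HeightOneSpectrum (𝓞 F)) (hΔ : (W⁄(𝓞 F)).Δ ∉ v.asIdeal)
    (hv : ∀ a : 𝓞 F, a ∈ v.asIdeal → V.valuation (ak Ω a) < 1) :
    ∃ Kg : AddSubgroup (Pt (WAB (sA W F) (sB W F)) Ω), RM (sA W F) (sB W F) V Kg 1 ((W.b₂ : Ω) / 12) ∧
      ∀ s : Ω ≃ₐ[F] Ω, Dec V s → (∀ x ∈ V, V.valuation (s x - x ^ Ideal.absNorm v.asIdeal) < 1) →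
        Nat.card ((W⁄(𝓞 F))⁄(𝓞 F ⧸ v.asIdeal)).toAffine.Point =
          Nat.card {c : Pt (WAB (sA W F) (sB W F)) Ω ⧸ Kg // ∃ X : Pt (WAB (sA W F) (sB W F)) Ω,
            (X : Pt (WAB (sA W F) (sB W F)) Ω ⧸ Kg) = c ∧ ac (WAB (sA W F) (sB W F)) s X - X ∈ Kg} := by
  have hA : sA W F = -(algebraMap (𝓞 F) F (W⁄(𝓞 F)).c₄) / 48 := by
    have h1 : (W⁄(𝓞 F)).c₄ = algebraMap ℤ (𝓞 F) W.c₄ := WeierstrassCurve.map_c₄ W _
    rw [h1, sA]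
    simp
  have hB : sB W F = -(algebraMap (𝓞 F) F (W⁄(𝓞 F)).c₆) / 864 := by
    have h1 : (W⁄(𝓞 F)).c₆ = algebraMap ℤ (𝓞 F) W.c₆ := WeierstrassCurve.map_c₆ W _
    rw [h1, sB]
    simp
  have hr : algebraMap F Ω (algebraMap (𝓞 F) F (W⁄(𝓞 F)).b₂ / 12) = (W.b₂ : Ω) / 12 := by
    have h1 : (W⁄(𝓞 F)).b₂ = algebraMap ℤ (𝓞 F) W.b₂ := WeierstrassCurve.map_b₂ W _
    have h2 : algebraMap F Ω 12 = 12 := map_ofNat _ 12
    rw [h1, map_div₀, h2]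
    simp
  obtain ⟨Kg, Θ, _, _, _, hRM, hcard⟩ := exists_rm (Ω := Ω) (V := V) (W⁄(𝓞 F)) hA hB v hΔ hv
  rw [hr] at hRM
  exact ⟨Kg, hRM, hcard⟩

end H28I
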