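import Mathlib

/-! # H28I, part E: group theory, the image of s - 1 -/

namespace H28I

/-- Chunk E1 (S). A finite abelian group killed by m > 0: its order divides a power of m (the prime divisors of the order divide m by Cauchy; or card_dvd_exponent_nsmul_rank). -/
theorem card_dvd {G : Type} [AddCommGroup G] [Finite G] {m : ℕ} (hm : 0 < m) (h : ∀ x : G, m • x = 0) : ∃ k : ℕ, Nat.card G ∣ m ^ k := by
  have h1 : ∀ q : ℕ, q.Prime → q ∣ Nat.card G → q ∣ m := by
    intro q hq hd
    haveI : Fact q.Prime := ⟨hq⟩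
    obtain ⟨x, hx⟩ := exists_prime_addOrderOf_dvd_card' (G := G) q hd
    rw [← hx]
    exact addOrderOf_dvd_of_nsmul_eq_zero (h x)
  have hc : Nat.card G ≠ 0 := Nat.card_pos.ne'
  refine ⟨Nat.card G, ?_⟩
  rw [Nat.dvd_iff_prime_pow_dvd_dvd]
  intro q k hq hk
  rcases Nat.eq_zero_or_pos k with rfl | hk0
  · simp
  · have h2 : q ∣ Nat.card G := (dvd_pow_self q hk0.ne').trans hk
    have h3 : k < Nat.card G + 1 := by
      have h4 : q ^ k ≤ Nat.card G := Nat.le_of_dvd (Nat.pos_of_ne_zero hc) hk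
      have h5 : k < q ^ k := Nat.lt_pow_self hq.one_lt
      omega
    exact (pow_dvd_pow_of_dvd (h1 q hq h2) k).trans (pow_dvd_pow m (by omega))

/-- Chunk E1 (M), pure group theory. q = 0: q • y = 0, so Q is trivial. q > 0: G n = {x | q ^ n • x = 0}, a finite subgroup (increasing in n), f = σ - 1 maps G n to itself; K n = the kernel of f on G n, contained in the finite set of hfix, increasing in n, so K n = K N for n ≥ N. κ = the order of K N divides q^m for some m (card_dvd with q^N).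
For n ≥ N: the image f (G n) has index κ in G n (order of the image times order of the kernel), so κ • x is in f (G n) for x in G n (the quotient has κ elements), so q^m • x is in f (G n). Given x in G n₀: y with q^m • y = x (hsurj, m times), y is in G (n₀ + m), contained in G n with n = max N (n₀ + m): x = q^m • y = f z. -/
theorem tor_in {Q : Type} [AddCommGroup Q] (σ : Q →+ Q) (q : ℕ) (hsurj : ∀ x : Q, ∃ y, q • y = x)
    (hfin : ∀ n : ℕ, {x : Q | q ^ n • x = 0}.Finite) (hfix : {x : Q | σ x = x}.Finite) {x : Q} (hx : ∃ n : ℕ, q ^ n • x = 0) :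
    ∃ y, σ y - y = x := by
  obtain ⟨n₀, hn₀⟩ := hx
  rcases Nat.eq_zero_or_pos q with rfl | hq
  · obtain ⟨y, hy⟩ := hsurj x
    rw [zero_nsmul] at hy
    exact ⟨0, by rw [map_zero, sub_zero, hy]⟩
  -- divisibility by powers
  have hsurj' : ∀ m : ℕ, ∀ x : Q, ∃ y, q ^ m • y = x := by
    intro m
    induction m with
    | zero => exact fun x => ⟨x, by rw [pow_zero, one_nsmul]⟩
    | succ m ih =>
      intro x
      obtain ⟨y, hy⟩ := ih x
      obtain ⟨z, hz⟩ := hsurj y
      exact ⟨z, by rw [pow_succ, mul_nsmul', hz, hy]⟩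
  set G : ℕ → AddSubgroup Q := fun n => (nsmulAddMonoidHom (α := Q) (q ^ n)).ker with hG
  have mG : ∀ n x, x ∈ G n ↔ q ^ n • x = 0 := fun n x => by
    rw [hG]
    exact AddMonoidHom.mem_ker
  have hGf : ∀ n, Finite (G n) := by
    intro n
    refine Set.Finite.to_subtype ((hfin n).subset fun x hx => ?_)
    exact (mG n x).1 hx
  set f : Q →+ Q := σ - AddMonoidHom.id Q with hf
  have hfx : ∀ x, f x = σ x - x := fun x => rfl
  have hfG : ∀ n x, x ∈ G n → f x ∈ G n := by
    intro n x hx
    rw [mG] at hx ⊢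
    rw [← map_nsmul, hx, map_zero]
  -- the restriction of f
  set F : ∀ n, G n →+ G n := fun n => (f.comp (G n).subtype).codRestrict (G n) (fun x => hfG n x x.2) with hF
  have hFx : ∀ n (x : G n), ((F n x : G n) : Q) = f x := fun n x => rfl
  have hker : ∀ n (x : G n), x ∈ (F n).ker ↔ σ (x : Q) = x := by
    intro n x
    rw [AddMonoidHom.mem_ker]
    constructor
    · intro h
      have h1 := congrArg (fun y : G n => (y : Q)) h
      simp only [hFx, hfx, ZeroMemClass.coe_zero] at h1
      exact sub_eq_zero.1 h1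
    · intro h
      apply Subtype.ext
      rw [hFx, hfx, h, sub_self]
      rfl
  -- the fixed torsion points
  set K : ℕ → Set Q := fun n => {x | σ x = x ∧ q ^ n • x = 0} with hK
  have hKmono : ∀ n m, n ≤ m → K n ⊆ K m := by
    intro n m hnm x hx
    refine ⟨hx.1, ?_⟩
    obtain ⟨k, rfl⟩ := Nat.exists_eq_add_of_le hnm
    rw [pow_add, mul_comm, mul_nsmul', hx.2, nsmul_zero]
  have hKfin : (⋃ n, K n).Finite := hfix.subset (Set.iUnion_subset fun n x hx => hx.1)
  obtain ⟨N, hN⟩ : ∃ N, ⋃ n, K n ⊆ K N := by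
    have h1 : ∀ x : Q, ∃ n, x ∈ (⋃ n, K n) → x ∈ K n := by
      intro x
      by_cases hx : x ∈ ⋃ n, K n
      · obtain ⟨n, hn⟩ := Set.mem_iUnion.1 hx
        exact ⟨n, fun _ => hn⟩
      · exact ⟨0, fun h => absurd h hx⟩
    choose g hg using h1
    refine ⟨hKfin.toFinset.sup g, fun x hx => ?_⟩
    exact hKmono _ _ (Finset.le_sup (f := g) (hKfin.mem_toFinset.2 hx)) (hg x hx)
  -- the order of the kernel
  haveI := hGf N
  obtain ⟨m, hm⟩ : ∃ m : ℕ, Nat.card (F N).ker ∣ q ^ m := by
    have h1 := card_dvd (G := (F N).ker) (m := q ^ N) (Nat.pow_pos hq) (by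
      intro y
      apply Subtype.ext
      apply Subtype.ext
      exact (mG N _).1 y.1.2)
    obtain ⟨k, hk⟩ := h1
    exact ⟨N * k, by rw [pow_mul]; exact hk⟩
  have hcard : ∀ n, N ≤ n → Nat.card (F n).ker = Nat.card (F N).ker := by
    intro n hn
    have hle : ∀ y : Q, y ∈ G N → y ∈ G n := by
      intro y hy
      rw [mG] at hy ⊢
      obtain ⟨k, rfl⟩ := Nat.exists_eq_add_of_le hn
      rw [pow_add, mul_comm, mul_nsmul', hy, nsmul_zero]
    refine Nat.card_congr ⟨fun y => ⟨⟨(y.1 : Q), ?_⟩, ?_⟩, fun y => ⟨⟨(y.1 : Q), hle _ y.1.2⟩, ?_⟩, ?_, ?_⟩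
    · have h1 : (y.1 : Q) ∈ K n := ⟨(hker n y.1).1 y.2, (mG n _).1 y.1.2⟩
      exact (mG N _).2 (hN (Set.mem_iUnion.2 ⟨n, h1⟩)).2
    · exact (hker N _).2 ((hker n y.1).1 y.2)
    · exact (hker n _).2 ((hker N y.1).1 y.2)
    · intro y
      rfl
    · intro y
      rfl
  -- the main step
  set n := max N (n₀ + m) with hn
  obtain ⟨y, hy⟩ := hsurj' m x
  have hyG : y ∈ G n := by
    rw [mG]
    have h1 : q ^ (n₀ + m) • y = 0 := by rw [pow_add, mul_nsmul', hy, hn₀]
    obtain ⟨k, hk⟩ := Nat.exists_eq_add_of_le (le_max_right N (n₀ + m))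
    rw [hn, hk, pow_add, mul_comm, mul_nsmul', h1, nsmul_zero]
  haveI := hGf n
  have hindex : (F n).range.index = Nat.card (F n).ker := by
    have h1 := (F n).range.card_mul_index
    have h2 : Nat.card (F n).ker * Nat.card (F n).range = Nat.card (G n) := by
      have h3 := AddSubgroup.card_eq_card_quotient_mul_card_addSubgroup (F n).ker
      have h4 : Nat.card (G n ⧸ (F n).ker) = Nat.card (F n).range :=
        Nat.card_congr (QuotientAddGroup.quotientKerEquivRange (F n)).toEquiv
      rw [h3, h4, mul_comm]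
    have h5 : 0 < Nat.card (F n).range := Nat.card_pos
    have h6 : Nat.card (F n).range * (F n).range.index = Nat.card (F n).range * Nat.card (F n).ker := by
      rw [h1, ← h2, mul_comm]
    exact Nat.eq_of_mul_eq_mul_left h5 h6
  have hmem : q ^ m • (⟨y, hyG⟩ : G n) ∈ (F n).range := by
    have h1 : (F n).range.index • (⟨y, hyG⟩ : G n) ∈ (F n).range := AddSubgroup.nsmul_index_mem _ _
    rw [hindex, hcard n (le_max_left _ _)] at h1
    obtain ⟨k, hk⟩ := hm
    rw [hk, mul_comm, mul_nsmul']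
    exact AddSubgroup.nsmul_mem _ h1 k
  obtain ⟨z, hz⟩ := hmem
  refine ⟨(z : Q), ?_⟩
  have h1 := congrArg (fun w : G n => (w : Q)) hz
  simp only [hFx, hfx] at h1
  rw [h1]
  exact hy

end H28I
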