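import Mathlib
import Pool.Agent.Lib.H28I.E1

/-! # H28I, part E: group theory, the count -/

namespace H28I

/-- order of a group = order of the kernel times order of the range -/
theorem e2_card {G H : Type} [AddCommGroup G] [AddCommGroup H] (f : G →+ H) :
    Nat.card G = Nat.card f.range * Nat.card f.ker := by
  rw [AddSubgroup.card_eq_card_quotient_mul_card_addSubgroup f.ker,
    Nat.card_congr (QuotientAddGroup.quotientKerEquivRange f).toEquiv]

/-- Chunk E2 (M), pure group theory (snake lemma). C = the kernel of Φ (killed by q, so finite by hfin 1; every element of C is σ y - y by tor_in). S = {x | Φ (σ x - x) = 0}, a subgroup. f : S → C, f x = σ x - x is surjective with kernel {x | σ x = x}: |S| = |fix σ| |C|. Φ maps S onto {x' | σ' x' = x'} (he, hΦ) with kernel C: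
|S| = |fix σ'| |C|. |C| > 0. (AddSubgroup.card_eq_card_quotient_mul_card_addSubgroup, QuotientAddGroup.quotientKerEquivOfSurjective.) -/
theorem snake {Q Q' : Type} [AddCommGroup Q] [AddCommGroup Q'] (σ : Q →+ Q) (σ' : Q' →+ Q') (Φ : Q →+ Q')
    (hΦ : Function.Surjective Φ) (he : ∀ x, Φ (σ x) = σ' (Φ x)) (q : ℕ) (hk : ∀ x, Φ x = 0 → q • x = 0)
    (hsurj : ∀ x : Q, ∃ y, q • y = x) (hfin : ∀ n : ℕ, {x : Q | q ^ n • x = 0}.Finite) (hfix : {x : Q | σ x = x}.Finite) :
    Nat.card {x' : Q' // σ' x' = x'} = Nat.card {x : Q // σ x = x} := by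
  classical
  set S : AddSubgroup Q := (Φ.comp (σ - AddMonoidHom.id Q)).ker with hS
  have memS : ∀ x : Q, x ∈ S ↔ Φ (σ x - x) = 0 := fun x => Iff.rfl
  have memS' : ∀ x : Q, x ∈ S ↔ σ' (Φ x) = Φ x := fun x => by
    rw [memS, map_sub, he, sub_eq_zero]
  set f : S →+ Q := (σ - AddMonoidHom.id Q).comp S.subtype with hf
  have fval : ∀ x : S, f x = σ x - x := fun x => rfl
  set g : S →+ Q' := Φ.comp S.subtype with hg
  have gval : ∀ x : S, g x = Φ x := fun x => rfl
  have hCfin : Finite Φ.ker := by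
    have : ((Φ.ker : AddSubgroup Q) : Set Q).Finite := (hfin 1).subset fun x hx => by
      have := hk x hx
      simpa using this
    exact this.to_subtype
  -- range of f is the kernel of Φ
  have h1 : Nat.card f.range = Nat.card Φ.ker := by
    have : f.range = Φ.ker := by
      ext c
      constructor
      · rintro ⟨x, rfl⟩
        rw [AddMonoidHom.mem_ker, fval]
        exact (memS _).1 x.2
      · intro hc
        obtain ⟨y, hy⟩ := tor_in σ q hsurj hfin hfix (x := c) ⟨1, by simpa using hk c hc⟩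
        have hyS : y ∈ S := by rw [memS, hy]; exact hc
        exact ⟨⟨y, hyS⟩, by rw [fval]; exact hy⟩
    rw [this]
  have h2 : Nat.card f.ker = Nat.card {x : Q // σ x = x} := by
    refine Nat.card_congr
      { toFun := fun x => ⟨x.1.1, by
          have := x.2
          rw [AddMonoidHom.mem_ker, fval, sub_eq_zero] at this
          exact this⟩
        invFun := fun x => ⟨⟨x.1, by rw [memS, x.2, sub_self, map_zero]⟩, by
          rw [AddMonoidHom.mem_ker, fval]
          exact sub_eq_zero.2 x.2⟩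
        left_inv := fun x => rfl
        right_inv := fun x => rfl }
  have h3 : Nat.card g.range = Nat.card {x' : Q' // σ' x' = x'} := by
    refine Nat.card_congr (Equiv.subtypeEquivRight fun x' => ?_)
    constructor
    · rintro ⟨x, rfl⟩
      rw [gval]
      exact (memS' _).1 x.2
    · intro hx'
      obtain ⟨x, rfl⟩ := hΦ x'
      exact ⟨⟨x, (memS' _).2 hx'⟩, rfl⟩
  have h4 : Nat.card g.ker = Nat.card Φ.ker := by
    refine Nat.card_congr
      { toFun := fun x => ⟨x.1.1, x.2⟩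
        invFun := fun x => ⟨⟨x.1, by
          rw [memS', (AddMonoidHom.mem_ker.1 x.2), map_zero]⟩, x.2⟩
        left_inv := fun x => rfl
        right_inv := fun x => rfl }
  have h5 := e2_card f
  have h6 := e2_card g
  rw [h1, h2] at h5
  rw [h3, h4] at h6
  have hpos : 0 < Nat.card Φ.ker := Nat.card_pos
  have h7 : Nat.card {x' : Q' // σ' x' = x'} * Nat.card Φ.ker = Nat.card {x : Q // σ x = x} * Nat.card Φ.ker := by
    rw [← h6, h5, mul_comm]
  exact Nat.eq_of_mul_eq_mul_right hpos h7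

/-- Chunk E2 (S/M). snake for Q = P ⧸ Kg, Q' = P' ⧸ Kg', the induced maps (QuotientAddGroup.map). The class c of X satisfies σ c = c iff f X - X is in Kg (QuotientAddGroup.eq); for another representative as well. -/
theorem count_grp {P P' : Type} [AddCommGroup P] [AddCommGroup P'] (Kg : AddSubgroup P) (Kg' : AddSubgroup P') (Φ : P →+ P')
    (hs : Function.Surjective Φ) (f : P →+ P) (f' : P' →+ P') (he : ∀ X, Φ (f X) = f' (Φ X)) (hf : ∀ X ∈ Kg, f X ∈ Kg)
    (hf' : ∀ X ∈ Kg', f' X ∈ Kg') (h1 : ∀ X ∈ Kg, Φ X ∈ Kg') (q : ℕ) (h2 : ∀ X, Φ X ∈ Kg' → q • X ∈ Kg)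
    (hq : ∀ X : P, ∃ Y, q • Y = X) (hfin : ∀ n : ℕ, {c : P ⧸ Kg | q ^ n • c = 0}.Finite)
    (hfix : Finite {c : P ⧸ Kg // ∃ X : P, (X : P ⧸ Kg) = c ∧ f X - X ∈ Kg}) :
    Nat.card {c : P' ⧸ Kg' // ∃ X : P', (X : P' ⧸ Kg') = c ∧ f' X - X ∈ Kg'} =
      Nat.card {c : P ⧸ Kg // ∃ X : P, (X : P ⧸ Kg) = c ∧ f X - X ∈ Kg} := by
  set σ : P ⧸ Kg →+ P ⧸ Kg := QuotientAddGroup.map Kg Kg f (fun X hX => hf X hX) with hσ
  set σ' : P' ⧸ Kg' →+ P' ⧸ Kg' := QuotientAddGroup.map Kg' Kg' f' (fun X hX => hf' X hX) with hσ'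
  set Ψ : P ⧸ Kg →+ P' ⧸ Kg' := QuotientAddGroup.map Kg Kg' Φ (fun X hX => h1 X hX) with hΨ
  have e1 : ∀ X : P, σ (X : P ⧸ Kg) = ((f X : P) : P ⧸ Kg) := fun X => rfl
  have e2 : ∀ X : P', σ' (X : P' ⧸ Kg') = ((f' X : P') : P' ⧸ Kg') := fun X => rfl
  have e3 : ∀ X : P, Ψ (X : P ⧸ Kg) = ((Φ X : P') : P' ⧸ Kg') := fun X => rfl
  have k1 : ∀ c : P ⧸ Kg, (∃ X : P, (X : P ⧸ Kg) = c ∧ f X - X ∈ Kg) ↔ σ c = c := by
    intro c
    constructor
    · rintro ⟨X, rfl, hX⟩
      rw [e1]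
      exact (QuotientAddGroup.eq_iff_sub_mem).2 hX
    · intro hc
      obtain ⟨X, rfl⟩ := QuotientAddGroup.mk_surjective c
      rw [e1] at hc
      exact ⟨X, rfl, (QuotientAddGroup.eq_iff_sub_mem).1 hc⟩
  have k2 : ∀ c : P' ⧸ Kg', (∃ X : P', (X : P' ⧸ Kg') = c ∧ f' X - X ∈ Kg') ↔ σ' c = c := by
    intro c
    constructor
    · rintro ⟨X, rfl, hX⟩
      rw [e2]
      exact (QuotientAddGroup.eq_iff_sub_mem).2 hX
    · intro hc
      obtain ⟨X, rfl⟩ := QuotientAddGroup.mk_surjective c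
      rw [e2] at hc
      exact ⟨X, rfl, (QuotientAddGroup.eq_iff_sub_mem).1 hc⟩
  rw [Nat.card_congr (Equiv.subtypeEquivRight k1), Nat.card_congr (Equiv.subtypeEquivRight k2)]
  refine snake σ σ' Ψ ?_ ?_ q ?_ ?_ hfin ?_
  · intro c'
    obtain ⟨X', rfl⟩ := QuotientAddGroup.mk_surjective c'
    obtain ⟨X, rfl⟩ := hs X'
    exact ⟨(X : P ⧸ Kg), rfl⟩
  · intro c
    obtain ⟨X, rfl⟩ := QuotientAddGroup.mk_surjective c
    rw [e1, e3, e3, e2, he]
  · intro c hc
    obtain ⟨X, rfl⟩ := QuotientAddGroup.mk_surjective c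
    rw [e3] at hc
    have := h2 X ((QuotientAddGroup.eq_zero_iff _).1 hc)
    rw [← QuotientAddGroup.mk_nsmul]
    exact (QuotientAddGroup.eq_zero_iff _).2 this
  · intro c
    obtain ⟨X, rfl⟩ := QuotientAddGroup.mk_surjective c
    obtain ⟨Y, rfl⟩ := hq X
    exact ⟨(Y : P ⧸ Kg), by rw [← QuotientAddGroup.mk_nsmul]⟩
  · have : {x : P ⧸ Kg | σ x = x} = {c : P ⧸ Kg | ∃ X : P, (X : P ⧸ Kg) = c ∧ f X - X ∈ Kg} := by
      ext c; exact (k1 c).symm
    rw [this]
    exact Set.finite_coe_iff.1 hfix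

end H28I
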