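import Mathlib
import Pool.Agent.Lib.H13D.A6

/-! # H28I, part E: finitely many classes are killed by b -/

open NumberField IsDedekindDomain WeierstrassCurve

namespace H28I

open H55P (IQ embF eF LF Per IsHecke Pt ac Inert Dec Nm)
open H35P (WAB Ker tt GoodW IntW)
open H55K (xc yc)
open H13D
open H55K (CMA ak)

variable {F : Type} [Field F] [NumberField F] [IQ F] {A B : F} {Om : ℂ} {Ω : Type} [Field Ω] [DecidableEq Ω]
  [Algebra F Ω] {j : Ω →+* ℂ} {act : 𝓞 F →+* AddMonoid.End (Pt (WAB A B) Ω)} {V : ValuationSubring Ω}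
  {Kg : AddSubgroup (Pt (WAB A B) Ω)} {u r : Ω}

/-- Chunk E3 (M). 𝓞 F is a principal ideal domain (IQ F; see t11a_prime in H55K/T11A.lean): UniqueFactorizationMonoid.induction_on_prime. Unit b: act b X in Kg implies X = act b⁻¹ (act b X) in Kg (act_mem): only the class 0. b = β b', β prime, β b' ≠ 0: if V(β) < 1 then act β (act b' X) in Kg implies act b' X in Kg (ker_red' in A5.lean),
so the set for b is the set for b'. If V(β) = 1 (V(β) ≤ 1: H55K.ak_le): the class map X ↦ act b' X (act b' maps Kg to Kg: act_mem) sends the set for b to the set for β, which is finite (cls_card' in A6.lean: Nm β ≠ 0 elements; Nat.finite_of_card_ne_zero), and two classes with the same image differ by an element of the set for b':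
finite fibres (Set.Finite.preimage' or Set.Finite.of_finite_fibers). -/
theorem fin_tor (h : CMA F A B Om j act) (hR : RM A B V Kg u r) {b : 𝓞 F} (hb : b ≠ 0) :
    {c : Pt (WAB A B) Ω ⧸ Kg | ∃ X : Pt (WAB A B) Ω, (X : Pt (WAB A B) Ω ⧸ Kg) = c ∧ act b X ∈ Kg}.Finite := by
  have hmul : ∀ (a b : 𝓞 F) (Q : Pt (WAB A B) Ω), act (a * b) Q = act a (act b Q) := by
    intro a b Q
    rw [map_mul]
    rfl
  induction b using UniqueFactorizationMonoid.induction_on_prime with
  | h₁ => exact absurd rfl hb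
  | h₂ b hu =>
    obtain ⟨y, hy⟩ := hu.exists_left_inv
    refine (Set.finite_singleton (0 : Pt (WAB A B) Ω ⧸ Kg)).subset ?_
    rintro c ⟨X, rfl, hX⟩
    have h1 := act_mem h hR y hX
    rw [← hmul, hy, map_one] at h1
    have h2 : X ∈ Kg := h1
    exact (QuotientAddGroup.eq_zero_iff X).2 h2
  | h₃ b' β hb' hβ ih =>
    have ih' := ih hb'
    rcases (H55K.ak_le V β).lt_or_eq with hv | hv
    · refine ih'.subset ?_
      rintro c ⟨X, rfl, hX⟩
      rw [hmul] at hX
      exact ⟨X, rfl, ker_red' h hR hβ hv hX⟩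
    · have hfin : {c : Pt (WAB A B) Ω ⧸ Kg | ∃ X : Pt (WAB A B) Ω, (X : Pt (WAB A B) Ω ⧸ Kg) = c ∧ act β X ∈ Kg}.Finite := by
        have h1 := cls_card' h hR hv
        have h2 : Nm β ≠ 0 := fun h3 => hβ.ne_zero (H55P.Nm_eq_zero.1 h3)
        exact Set.finite_coe_iff.1 (Nat.finite_of_card_ne_zero (by rw [← h1] at h2; exact h2))
      set g : Pt (WAB A B) Ω ⧸ Kg →+ Pt (WAB A B) Ω ⧸ Kg :=
        QuotientAddGroup.map Kg Kg (act b') (fun X hX => act_mem h hR b' hX) with hg
      have eg : ∀ X : Pt (WAB A B) Ω, g (X : Pt (WAB A B) Ω ⧸ Kg) = ((act b' X : Pt (WAB A B) Ω) : Pt (WAB A B) Ω ⧸ Kg) :=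
        fun X => rfl
      refine (Set.Finite.preimage' (f := g) hfin ?_).subset ?_
      · intro d _
        by_cases hne : (g ⁻¹' {d}).Nonempty
        · obtain ⟨c0, hc0⟩ := hne
          have hc0' : g c0 = d := hc0
          refine (ih'.image (fun c => c + c0)).subset ?_
          intro c hc
          have hc' : g c = d := hc
          obtain ⟨X, hX⟩ := QuotientAddGroup.mk_surjective (c - c0)
          refine ⟨c - c0, ⟨X, hX, ?_⟩, sub_add_cancel c c0⟩
          have h3 : g (c - c0) = 0 := by rw [map_sub, hc', hc0', sub_self]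
          rw [← hX, eg] at h3
          exact (QuotientAddGroup.eq_zero_iff _).1 h3
        · rw [Set.not_nonempty_iff_eq_empty.1 hne]
          exact Set.finite_empty
      · rintro c ⟨X, rfl, hX⟩
        rw [hmul] at hX
        exact ⟨act b' X, rfl, hX⟩

/-- Chunk E3 (S). fin_tor for b = n: act (n : 𝓞 F) X = n • X (H55K.cu_nat). -/
theorem fin_nsmul (h : CMA F A B Om j act) (hR : RM A B V Kg u r) {n : ℕ} (hn : 0 < n) :
    {c : Pt (WAB A B) Ω ⧸ Kg | n • c = 0}.Finite := by
  have hn0 : (n : 𝓞 F) ≠ 0 := by exact_mod_cast hn.ne'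
  refine (fin_tor h hR hn0).subset ?_
  intro c hc
  obtain ⟨X, rfl⟩ := QuotientAddGroup.mk_surjective c
  refine ⟨X, rfl, ?_⟩
  have h1 : n • (X : Pt (WAB A B) Ω ⧸ Kg) = 0 := hc
  rw [← QuotientAddGroup.mk_nsmul] at h1
  have h2 : act (n : 𝓞 F) X = n • X := by rw [map_natCast]; rfl
  rw [h2]
  exact (QuotientAddGroup.eq_zero_iff _).1 h1

/-- Chunk E3 (S). h.surj for b = n. -/
theorem nsmul_surj (h : CMA F A B Om j act) {n : ℕ} (hn : 0 < n) (X : Pt (WAB A B) Ω) : ∃ Y, n • Y = X := by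
  have hn0 : (n : 𝓞 F) ≠ 0 := by exact_mod_cast hn.ne'
  obtain ⟨Y, hY⟩ := h.surj (n : 𝓞 F) hn0 X
  refine ⟨Y, ?_⟩
  rw [map_natCast] at hY
  exact hY

end H28I
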