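import Mathlib
import Pool.Agent.Lib.H28I.D

/-! # H28I, part E: algebraic relations between the two equations -/

open NumberField IsDedekindDomain WeierstrassCurve

namespace H28I

open H55P (IQ embF eF LF Per IsHecke Pt ac Inert Dec Nm)
open H35P (WAB Ker tt GoodW IntW)
open H55K (xc yc)

variable {k : Type} [Field k] [CharZero k] {V : ValuationSubring k}

theorem e4_c4 (W : WeierstrassCurve ℤ) : sA W k = -((W.b₂ : k) ^ 2 - 24 * W.b₄) / 48 := by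
  unfold sA WeierstrassCurve.c₄
  push_cast
  ring

theorem e4_c6 (W : WeierstrassCurve ℤ) :
    sB W k = -(-(W.b₂ : k) ^ 3 + 36 * W.b₂ * W.b₄ - 216 * W.b₆) / 864 := by
  unfold sB WeierstrassCurve.c₆
  push_cast
  ring

theorem e4_b8 (W : WeierstrassCurve ℤ) : 4 * (W.b₈ : k) = W.b₂ * W.b₆ - (W.b₄ : k) ^ 2 := by
  have h := congrArg (fun n : ℤ => (n : k)) W.b_relation
  push_cast at h
  exact h

/-- Chunk E4 (S). -/
theorem vint (V : ValuationSubring k) (n : ℤ) : V.valuation (n : k) ≤ 1 := by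
  calc V.valuation (n : k) ≤ 1 := (V.valuation_le_one_iff _).2 (by
        have h : ((n : V) : k) = (n : k) := by simp
        rw [← h]
        exact (n : V).2)

/-- Chunk E4 (S/M). 4 (X^3 + A X + B) at X = e₀ + b₂/12, A = -c₄/48, B = -c₆/864, c₄ = b₂^2 - 24 b₄, c₆ = -b₂^3 + 36 b₂ b₄ - 216 b₆ (cast to k; push_cast). -/
theorem four_f (W : WeierstrassCurve ℤ) (e₀ : k) :
    4 * ((e₀ + (W.b₂ : k) / 12) ^ 3 + sA W k * (e₀ + (W.b₂ : k) / 12) + sB W k) =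
      4 * e₀ ^ 3 + W.b₂ * e₀ ^ 2 + 2 * W.b₄ * e₀ + W.b₆ ∧
    2 * (3 * (e₀ + (W.b₂ : k) / 12) ^ 2 + sA W k) = 6 * e₀ ^ 2 + W.b₂ * e₀ + W.b₄ := by
  rw [e4_c4, e4_c6]
  constructor
  · ring
  · ring

/-- Chunk E4 (S/M). By hA: with c₄ = b₂^2 - 24 b₄ for both equations (cast), lam^2 b₂' = b₂ + 12 ρ. -/
theorem rel4 (W W' : WeierstrassCurve ℤ) {t lam ρ : k} (hA : lam ^ 4 * sA W' k = sA W k - 5 * t)
    (hρ : ρ = lam ^ 2 * ((W'.b₂ : k) / 12) - (W.b₂ : k) / 12) :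
    (W.b₄ - 10 * t) + W.b₂ * ρ + 6 * ρ ^ 2 = lam ^ 4 * W'.b₄ := by
  rw [e4_c4, e4_c4] at hA
  have hb : lam ^ 2 * (W'.b₂ : k) = W.b₂ + 12 * ρ := by rw [hρ]; ring
  have hb2 : lam ^ 4 * (W'.b₂ : k) ^ 2 = ((W.b₂ : k) + 12 * ρ) ^ 2 := by rw [← hb]; ring
  linear_combination (-2 : k) * hA + (-1 / 24 : k) * hb2

/-- Chunk E4 (M). By four_f for W' at 0 : lam^6 b₆' = 4 ((lam^2 b₂'/12)^3 + lam^4 A'' (lam^2 b₂'/12) + lam^6 B''), and lam^2 b₂'/12 = ρ + b₂/12, lam^4 A'' = A - 5 t, lam^6 B'' = B - 7 (u + e t): expand (checked by computer with random numbers). -/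
theorem rel6 (W W' : WeierstrassCurve ℤ) {e t u lam ρ e₀ : k} (hA : lam ^ 4 * sA W' k = sA W k - 5 * t)
    (hB : lam ^ 6 * sB W' k = sB W k - 7 * (u + e * t)) (he : e₀ = e - (W.b₂ : k) / 12)
    (hρ : ρ = lam ^ 2 * ((W'.b₂ : k) / 12) - (W.b₂ : k) / 12) :
    4 * ρ ^ 3 + W.b₂ * ρ ^ 2 + (2 * W.b₄ - 20 * t) * ρ + (W.b₆ - 28 * (u + e₀ * t) - 4 * W.b₂ * t) = lam ^ 6 * W'.b₆ := by
  have h4 := rel4 W W' hA hρ
  rw [e4_c4] at hA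
  rw [e4_c6, e4_c6] at hB
  have hb : lam ^ 2 * (W'.b₂ : k) = W.b₂ + 12 * ρ := by rw [hρ]; ring
  have he' : e = e₀ + (W.b₂ : k) / 12 := by rw [he]; ring
  rw [he'] at hB
  have hb3 : lam ^ 6 * (W'.b₂ : k) ^ 3 = ((W.b₂ : k) + 12 * ρ) ^ 3 := by rw [← hb]; ring
  have hb4 : lam ^ 6 * ((W'.b₂ : k) * W'.b₄) = ((W.b₂ : k) + 12 * ρ) *
      ((W.b₄ - 10 * t) + W.b₂ * ρ + 6 * ρ ^ 2) := by rw [← hb, h4]; ring
  linear_combination (-4 : k) * hB + (1 / 216 : k) * hb3 + (-1 / 6 : k) * hb4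

/-- Chunk E4 (M). 4 b₈ = b₂ b₆ - b₄^2 for both equations (WeierstrassCurve.b_relation, cast): four times the right side is (lam^2 b₂') (lam^6 b₆') - (lam^4 b₄')^2, use lam^2 b₂' = b₂ + 12 ρ, rel6, rel4; expand and divide by 4 (checked by computer). -/
theorem rel8 (W W' : WeierstrassCurve ℤ) {e t u lam ρ e₀ : k} (hA : lam ^ 4 * sA W' k = sA W k - 5 * t)
    (hB : lam ^ 6 * sB W' k = sB W k - 7 * (u + e * t)) (he : e₀ = e - (W.b₂ : k) / 12)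
    (hρ : ρ = lam ^ 2 * ((W'.b₂ : k) / 12) - (W.b₂ : k) / 12) :
    3 * ρ ^ 4 + W.b₂ * ρ ^ 3 + 3 * (W.b₄ - 10 * t) * ρ ^ 2 + 3 * (W.b₆ - 4 * W.b₂ * t - 28 * (u + e₀ * t)) * ρ +
      (W.b₈ - W.b₂ ^ 2 * t - 7 * W.b₂ * (u + e₀ * t) + 5 * W.b₄ * t - 25 * t ^ 2) = lam ^ 8 * W'.b₈ := by
  have h4 := rel4 W W' hA hρ
  have h6 := rel6 W W' hA hB he hρ
  have hb : lam ^ 2 * (W'.b₂ : k) = W.b₂ + 12 * ρ := by rw [hρ]; ring
  have h8 := e4_b8 (k := k) W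
  have h8' := e4_b8 (k := k) W'
  have h1 : 4 * (lam ^ 8 * (W'.b₈ : k)) = (lam ^ 2 * (W'.b₂ : k)) * (lam ^ 6 * W'.b₆) -
      (lam ^ 4 * (W'.b₄ : k)) ^ 2 := by
    linear_combination lam ^ 8 * h8'
  rw [hb, ← h6, ← h4] at h1
  have h4k : (4 : k) ≠ 0 := by norm_num
  apply mul_left_cancel₀ h4k
  rw [h1]
  linear_combination h8

end H28I
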