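import Mathlib
import Pool.Agent.Lib.H28I.E4

/-! # H28I, part E: integrality -/

open NumberField IsDedekindDomain WeierstrassCurve

namespace H28I

open H55P (IQ embF eF LF Per IsHecke Pt ac Inert Dec Nm)
open H35P (WAB Ker tt GoodW IntW)
open H55K (xc yc)

variable {k : Type} [Field k] [CharZero k] {V : ValuationSubring k}

theorem e5_int (V : ValuationSubring k) (n : ℤ) : (n : k) ∈ V := (V.valuation_le_one_iff _).1 (vint V n)

theorem e5_nat (V : ValuationSubring k) (n : ℕ) : (n : k) ∈ V := by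
  have h := e5_int V (n : ℤ)
  rwa [Int.cast_natCast] at h

theorem e5_ofNat (V : ValuationSubring k) (n : ℕ) [n.AtLeastTwo] : (OfNat.ofNat n : k) ∈ V := by
  have h := e5_nat V (OfNat.ofNat n)
  rwa [Nat.cast_ofNat] at h

/-- a unit can be cancelled -/
theorem e5_cancel {V : ValuationSubring k} {a x : k} (ha : V.valuation a = 1) (h : a * x ∈ V) : x ∈ V := by
  have h0 : a ≠ 0 := by
    rintro rfl
    rw [map_zero] at ha
    exact zero_ne_one ha
  have h1 : a⁻¹ ∈ V := (V.valuation_le_one_iff _).1 (by rw [map_inv₀, ha, inv_one])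
  have h2 : x = a⁻¹ * (a * x) := by field_simp
  rw [h2]
  exact V.mul_mem _ _ h1 h

theorem e5_lam {V : ValuationSubring k} {lam : k} (h : V.valuation lam = 1) : lam ∈ V :=
  (V.valuation_le_one_iff _).1 h.le

theorem e5_lt_mul {V : ValuationSubring k} {a x : k} (ha : V.valuation a < 1) (hx : x ∈ V) :
    V.valuation (a * x) < 1 := by
  rw [map_mul]
  calc V.valuation a * V.valuation x ≤ V.valuation a * 1 :=
        mul_le_mul_right ((V.valuation_le_one_iff _).2 hx) _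
    _ < 1 := by rw [mul_one]; exact ha

/-- Chunk E5 (M). V(2) = 1 or V(3) = 1 (3 - 2 = 1). Suppose V(ρ) > 1. If V(2) = 1: rel6: 4 ρ^3 has the value V(ρ)^3, all the other terms have value ≤ V(ρ)^2: contradiction. If V(3) = 1: rel8: 3 ρ^4 has the value V(ρ)^4, the other terms have value ≤ V(ρ)^3. (All coefficients have value ≤ 1: vint, hlam, he0, ht, hu.) -/
theorem rho_int (W W' : WeierstrassCurve ℤ) {e t u lam : k} (hA : lam ^ 4 * sA W' k = sA W k - 5 * t)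
    (hB : lam ^ 6 * sB W' k = sB W k - 7 * (u + e * t)) (hlam : V.valuation lam = 1)
    (he0 : V.valuation (e - (W.b₂ : k) / 12) ≤ 1) (ht : V.valuation t ≤ 1) (hu : V.valuation u ≤ 1) :
    V.valuation (lam ^ 2 * ((W'.b₂ : k) / 12) - (W.b₂ : k) / 12) ≤ 1 := by
  set ρ := lam ^ 2 * ((W'.b₂ : k) / 12) - (W.b₂ : k) / 12 with hρ
  set e₀ := e - (W.b₂ : k) / 12 with he
  have h6 := rel6 W W' hA hB he hρ
  have h8 := rel8 W W' hA hB he hρ
  rw [V.valuation_le_one_iff] at he0 ht hu ⊢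
  have hl := e5_lam hlam
  by_contra hcon
  have hρ0 : ρ ≠ 0 := by
    intro h
    rw [h] at hcon
    exact hcon V.zero_mem
  have hs : ρ⁻¹ ∈ V := (V.mem_or_inv_mem ρ).resolve_left hcon
  have i2 := e5_int V W.b₂
  have i4 := e5_int V W.b₄
  have i6 := e5_int V W.b₆
  have i8 := e5_int V W.b₈
  have i6' := e5_int V W'.b₆
  have i8' := e5_int V W'.b₈
  have hor : V.valuation (2 : k) = 1 ∨ V.valuation (3 : k) = 1 := by
    by_contra h
    push Not at h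
    have a2 : V.valuation (2 : k) < 1 := lt_of_le_of_ne ((V.valuation_le_one_iff _).2 (e5_ofNat V 2)) h.1
    have a3 : V.valuation (3 : k) < 1 := lt_of_le_of_ne ((V.valuation_le_one_iff _).2 (e5_ofNat V 3)) h.2
    have a1 : V.valuation ((3 : k) - 2) < 1 := Valuation.map_sub_lt _ a3 a2
    have a0 : (3 : k) - 2 = 1 := by norm_num
    rw [a0, map_one] at a1
    exact lt_irrefl _ a1
  rcases hor with h2 | h3
  · have h4 : V.valuation (4 : k) = 1 := by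
      have : (4 : k) = 2 * 2 := by norm_num
      rw [this, map_mul, h2, one_mul]
    refine hcon (e5_cancel h4 ?_)
    have e1 : 4 * ρ = lam ^ 6 * W'.b₆ * ρ⁻¹ ^ 2 - (W.b₂ + (2 * W.b₄ - 20 * t) * ρ⁻¹ +
        (W.b₆ - 28 * (u + e₀ * t) - 4 * W.b₂ * t) * ρ⁻¹ ^ 2) := by
      rw [← h6]
      field_simp
      ring
    rw [e1]
    have n2 := e5_ofNat V 2
    have n20 := e5_ofNat V 20
    have n28 := e5_ofNat V 28
    have n4 := e5_ofNat V 4
    exact sub_mem (mul_mem (mul_mem (pow_mem hl 6) i6') (pow_mem hs 2))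
      (add_mem (add_mem i2 (mul_mem (sub_mem (mul_mem n2 i4) (mul_mem n20 ht)) hs))
        (mul_mem (sub_mem (sub_mem i6 (mul_mem n28 (add_mem hu (mul_mem he0 ht))))
          (mul_mem (mul_mem n4 i2) ht)) (pow_mem hs 2)))
  · refine hcon (e5_cancel h3 ?_)
    have e1 : 3 * ρ = lam ^ 8 * W'.b₈ * ρ⁻¹ ^ 3 - (W.b₂ + 3 * (W.b₄ - 10 * t) * ρ⁻¹ +
        3 * (W.b₆ - 4 * W.b₂ * t - 28 * (u + e₀ * t)) * ρ⁻¹ ^ 2 +
        (W.b₈ - W.b₂ ^ 2 * t - 7 * W.b₂ * (u + e₀ * t) + 5 * W.b₄ * t - 25 * t ^ 2) * ρ⁻¹ ^ 3) := by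
      rw [← h8]
      field_simp
      ring
    rw [e1]
    have n3 := e5_ofNat V 3
    have n10 := e5_ofNat V 10
    have n28 := e5_ofNat V 28
    have n4 := e5_ofNat V 4
    have n7 := e5_ofNat V 7
    have n5 := e5_ofNat V 5
    have n25 := e5_ofNat V 25
    have hue := add_mem hu (mul_mem he0 ht)
    exact sub_mem (mul_mem (mul_mem (pow_mem hl 8) i8') (pow_mem hs 3))
      (add_mem (add_mem (add_mem i2 (mul_mem (mul_mem n3 (sub_mem i4 (mul_mem n10 ht))) hs))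
        (mul_mem (mul_mem n3 (sub_mem (sub_mem i6 (mul_mem (mul_mem n4 i2) ht)) (mul_mem n28 hue)))
          (pow_mem hs 2)))
        (mul_mem (sub_mem (add_mem (sub_mem (sub_mem i8 (mul_mem (pow_mem i2 2) ht))
          (mul_mem (mul_mem n7 i2) hue)) (mul_mem (mul_mem n5 i4) ht))
          (mul_mem n25 (pow_mem ht 2))) (pow_mem hs 3)))

/-- Chunk E5 (S/M). four_f with e₀ = e - b₂/12. First case: 2 t = 6 e₀^2 + b₂ e₀ + b₄, so t has value ≤ 1 if V(2) = 1. Second case: t = 6 e₀^2 + b₂ e₀ + b₄, u = 4 e₀^3 + b₂ e₀^2 + 2 b₄ e₀ + b₆. -/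
theorem tu_int (W : WeierstrassCurve ℤ) {A' B' e t u : k} (h : VI (sA W k) (sB W k) A' B' e t u)
    (he0 : V.valuation (e - (W.b₂ : k) / 12) ≤ 1) (h2 : u = 0 → V.valuation (2 : k) = 1 ∨ V.valuation t ≤ 1) :
    V.valuation t ≤ 1 ∧ V.valuation u ≤ 1 := by
  rw [V.valuation_le_one_iff] at he0 ⊢
  rw [V.valuation_le_one_iff]
  obtain ⟨f1, f2⟩ := four_f W (e - (W.b₂ : k) / 12)
  have he : e - (W.b₂ : k) / 12 + (W.b₂ : k) / 12 = e := by ring
  rw [he] at f1 f2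
  have i2 := e5_int V W.b₂
  have i4 := e5_int V W.b₄
  have i6 := e5_int V W.b₆
  have n2 := e5_ofNat V 2
  have n4 := e5_ofNat V 4
  have n6 := e5_ofNat V 6
  have ht2 : 2 * (3 * e ^ 2 + sA W k) ∈ V := by
    rw [f2]
    exact add_mem (add_mem (mul_mem n6 (pow_mem he0 2)) (mul_mem i2 he0)) i4
  rcases h.cs with ⟨c1, -, c3⟩ | ⟨c1, c2, -⟩
  · refine ⟨?_, by rw [c1]; exact V.zero_mem⟩
    rcases h2 c1 with a | a
    · rw [← c3] at ht2
      exact e5_cancel a ht2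
    · exact (V.valuation_le_one_iff _).1 a
  · refine ⟨by rw [c1]; exact ht2, ?_⟩
    rw [c2, f1]
    exact add_mem (add_mem (add_mem (mul_mem n4 (pow_mem he0 3)) (mul_mem i2 (pow_mem he0 2)))
      (mul_mem (mul_mem n2 i4) he0)) i6

/-- Chunk E5 (M). The ordinary case at 2. Let e₀ = e - b₂/12 and suppose V(e₀) > 1. four_f: 4 e₀^3 + b₂ e₀^2 + 2 b₄ e₀ + b₆ = 0 and 2 t = 6 e₀^2 + b₂ e₀ + b₄. In the first equation V(b₂ e₀^2) = V(e₀)^2 is larger than V(2 b₄ e₀) and V(b₆), so V(4 e₀^3) = V(e₀)^2, V(4 e₀) = 1. In the second: V(6 e₀^2) = V(2) V(e₀)^2 (V(3) = 1 because V(2) < 1), V(b₂ e₀) = V(e₀), V(b₄) ≤ 1 < V(e₀);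
V(2) V(e₀) > 1 because V(4) V(e₀) = 1 and V(2) < 1 (V(4) < V(2)), so V(6 e₀^2) > V(e₀) and V(2 t) = V(2) V(e₀)^2, V(t) = V(e₀)^2 > 1: contradiction. -/
theorem e0_ord (W : WeierstrassCurve ℤ) {e t : k} (h1 : e ^ 3 + sA W k * e + sB W k = 0) (h2 : t = 3 * e ^ 2 + sA W k)
    (hV2 : V.valuation (2 : k) < 1) (hb : V.valuation (W.b₂ : k) = 1) (ht : V.valuation t ≤ 1) :
    V.valuation (e - (W.b₂ : k) / 12) ≤ 1 := by
  rw [V.valuation_le_one_iff] at ht ⊢
  obtain ⟨f1, f2⟩ := four_f W (e - (W.b₂ : k) / 12)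
  have he : e - (W.b₂ : k) / 12 + (W.b₂ : k) / 12 = e := by ring
  rw [he] at f1 f2
  rw [h1, mul_zero] at f1
  rw [← h2] at f2
  set e₀ := e - (W.b₂ : k) / 12 with he0
  by_contra hcon
  have h0 : e₀ ≠ 0 := by
    intro h
    rw [h] at hcon
    exact hcon V.zero_mem
  have hs : e₀⁻¹ ∈ V := (V.mem_or_inv_mem e₀).resolve_left hcon
  have hs1 : V.valuation e₀⁻¹ < 1 := by
    refine lt_of_le_of_ne ((V.valuation_le_one_iff _).2 hs) fun h => hcon ?_
    rw [map_inv₀] at h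
    exact (V.valuation_le_one_iff _).1 (inv_injective (h.trans inv_one.symm)).le
  have i2 := e5_int V W.b₂
  have i4 := e5_int V W.b₄
  have i6 := e5_int V W.b₆
  have n2 := e5_ofNat V 2
  have a3 : V.valuation (3 : k) = 1 := by
    have h : (3 : k) = 1 + 2 := by norm_num
    rw [h]
    rw [Valuation.map_add_eq_of_lt_left _ (by rw [map_one]; exact hV2), map_one]
  have e1 : 3 * (W.b₂ + e₀⁻¹ * (2 * W.b₄ + W.b₆ * e₀⁻¹)) = 2 * (W.b₂ + W.b₄ * e₀⁻¹ - 2 * (t * e₀⁻¹)) := by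
    field_simp
    linear_combination (-3 : k) * f1 + (2 * e₀ : k) * f2
  have b1 : V.valuation (3 * (W.b₂ + e₀⁻¹ * (2 * W.b₄ + W.b₆ * e₀⁻¹)) : k) = 1 := by
    rw [map_mul, a3, one_mul]
    have b2 : V.valuation (e₀⁻¹ * (2 * W.b₄ + W.b₆ * e₀⁻¹) : k) < V.valuation (W.b₂ : k) := by
      rw [hb]
      exact e5_lt_mul hs1 (add_mem (mul_mem n2 i4) (mul_mem i6 hs))
    rw [Valuation.map_add_eq_of_lt_left _ b2, hb]
  have b3 : V.valuation (2 * (W.b₂ + W.b₄ * e₀⁻¹ - 2 * (t * e₀⁻¹)) : k) < 1 :=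
    e5_lt_mul hV2 (sub_mem (add_mem i2 (mul_mem i4 hs)) (mul_mem n2 (mul_mem ht hs)))
  rw [← e1, b1] at b3
  exact lt_irrefl _ b3

end H28I
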