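import Mathlib
import Pool.Agent.Lib.H28I.D

/-! # H28I, part V: the identity of the isogeny -/

open NumberField IsDedekindDomain WeierstrassCurve

namespace H28I

open H55P (IQ embF eF LF Per IsHecke Pt ac Inert Dec Nm)
open H35P (WAB Ker tt GoodW IntW)
open H55K (xc yc)

/-- Chunk V1 (M). z = x - e. In the first case of h.cs: u = 0, B = - e^3 - A e, t = 3 e^2 + A: field_simp, ring. In the second case, with t, u, A', B' substituted, and numerators R = (z + e) z^2 + t z + u (vx = R/z^2), D = z^3 - t z - 2 u (vd = D/z^3):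
R^3 + A' R z^4 + B' z^6 - D^2 ((z + e)^3 + A (z + e) + B) = (6 z^5 - 12 z^3 e^2 - 4 z^3 A - 12 z^2 e^3 - 12 z^2 e A - 12 z^2 B) (3 e^4 + 6 A e^2 + 12 B e - A^2)
(checked by computer), so linear_combination with this cofactor, then divide by z^6. -/
theorem vi_id {k : Type} [Field k] {A B A' B' e t u x : k} (h : VI A B A' B' e t u) (hx : x ≠ e) :
    vx e t u x ^ 3 + A' * vx e t u x + B' = vd e t u x ^ 2 * (x ^ 3 + A * x + B) := by
  obtain ⟨z, rfl⟩ : ∃ z, x = z + e := ⟨x - e, by ring⟩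
  have hz : z ≠ 0 := by
    rintro rfl
    exact hx (zero_add e)
  obtain ⟨-, -, rfl, rfl, hcs⟩ := h
  unfold vx vd
  rw [add_sub_cancel_right]
  rcases hcs with ⟨rfl, h1, rfl⟩ | ⟨rfl, rfl, h1⟩
  · obtain rfl : B = -e ^ 3 - A * e := by linear_combination h1
    field_simp
    ring
  · have e1 : (z + e + 2 * (3 * e ^ 2 + A) / z + 4 * (e ^ 3 + A * e + B) / z ^ 2) =
        ((z + e) * z ^ 2 + 2 * (3 * e ^ 2 + A) * z + 4 * (e ^ 3 + A * e + B)) / z ^ 2 := by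
      field_simp
    have e2 : 1 - 2 * (3 * e ^ 2 + A) / z ^ 2 - 2 * (4 * (e ^ 3 + A * e + B)) / z ^ 3 =
        (z ^ 3 - 2 * (3 * e ^ 2 + A) * z - 2 * (4 * (e ^ 3 + A * e + B))) / z ^ 3 := by
      field_simp
    rw [e1, e2]
    have hz6 : z ^ 6 ≠ 0 := pow_ne_zero 6 hz
    have e3 : (((z + e) * z ^ 2 + 2 * (3 * e ^ 2 + A) * z + 4 * (e ^ 3 + A * e + B)) / z ^ 2) ^ 3 +
        (A - 5 * (2 * (3 * e ^ 2 + A))) *
          (((z + e) * z ^ 2 + 2 * (3 * e ^ 2 + A) * z + 4 * (e ^ 3 + A * e + B)) / z ^ 2) +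
        (B - 7 * (4 * (e ^ 3 + A * e + B) + e * (2 * (3 * e ^ 2 + A)))) =
        (((z + e) * z ^ 2 + 2 * (3 * e ^ 2 + A) * z + 4 * (e ^ 3 + A * e + B)) ^ 3 +
        (A - 5 * (2 * (3 * e ^ 2 + A))) *
          ((z + e) * z ^ 2 + 2 * (3 * e ^ 2 + A) * z + 4 * (e ^ 3 + A * e + B)) * z ^ 4 +
        (B - 7 * (4 * (e ^ 3 + A * e + B) + e * (2 * (3 * e ^ 2 + A)))) * z ^ 6) / z ^ 6 := by
      field_simp
    have e4 : ((z ^ 3 - 2 * (3 * e ^ 2 + A) * z - 2 * (4 * (e ^ 3 + A * e + B))) / z ^ 3) ^ 2 *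
        ((z + e) ^ 3 + A * (z + e) + B) =
        ((z ^ 3 - 2 * (3 * e ^ 2 + A) * z - 2 * (4 * (e ^ 3 + A * e + B))) ^ 2 *
        ((z + e) ^ 3 + A * (z + e) + B)) / z ^ 6 := by
      field_simp
    rw [e3, e4]
    congr 1
    linear_combination (6 * z ^ 5 - 12 * z ^ 3 * e ^ 2 - 4 * z ^ 3 * A - 12 * z ^ 2 * e ^ 3 - 12 * z ^ 2 * e * A -
      12 * z ^ 2 * B) * h1

end H28I
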