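import Mathlib
import Pool.Agent.Lib.H28I.V1

/-! # H28I, part V: the map -/

open NumberField IsDedekindDomain WeierstrassCurve

namespace H28I

open H55P (IQ embF eF LF Per IsHecke Pt ac Inert Dec Nm)
open H35P (WAB Ker tt GoodW IntW)
open H55K (xc yc)

theorem v2_delta {k : Type} [Field k] (A B : k) : (WAB A B).Δ = -16 * (4 * A ^ 3 + 27 * B ^ 2) := by
  unfold WeierstrassCurve.Δ WeierstrassCurve.b₂ WeierstrassCurve.b₄ WeierstrassCurve.b₆ WeierstrassCurve.b₈ WAB
  ring

theorem v2_eq {k : Type} [Field k] {A B x y : k} : (WAB A B).toAffine.Equation x y ↔ y ^ 2 = x ^ 3 + A * x + B := by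
  rw [Affine.equation_iff]
  simp only [WAB]
  constructor
  · intro h
    linear_combination h
  · intro h
    linear_combination h

theorem v2_ns {k : Type} [Field k] [CharZero k] {A B x y : k} (hd : 4 * A ^ 3 + 27 * B ^ 2 ≠ 0)
    (h : y ^ 2 = x ^ 3 + A * x + B) : (WAB A B).toAffine.Nonsingular x y := by
  have hD : (WAB A B).Δ ≠ 0 := by
    rw [v2_delta]
    exact mul_ne_zero (by norm_num) hd
  exact (Affine.equation_iff_nonsingular_of_Δ_ne_zero hD).1 (v2_eq.2 h)

theorem v2_pt {k : Type} [Field k] {A B : k} {P : (WAB A B).toAffine.Point} (hP : P ≠ 0) :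
    yc P ^ 2 = xc P ^ 3 + A * xc P + B := by
  rcases P with _ | ⟨x, y, h⟩
  · exact absurd rfl hP
  exact v2_eq.1 h.1

theorem v2_ext {k : Type} [Field k] {W : WeierstrassCurve k} {P Q : W.toAffine.Point} (hP : P ≠ 0) (hQ : Q ≠ 0)
    (hx : xc P = xc Q) (hy : yc P = yc Q) : P = Q := by
  rcases P with _ | ⟨x, y, h⟩
  · exact absurd rfl hP
  rcases Q with _ | ⟨x', y', h'⟩
  · exact absurd rfl hQ
  have h1 : x = x' := hx
  have h2 : y = y' := hy
  subst h1 h2
  rfl

/-- Chunk V2 (M). By cases on the point: 0 goes to 0, some x y to 0 if x = e and otherwise to some (vx e t u x) (vd e t u x * y): the equation is vi_id (and y^2 = x^3 + A x + B: Affine.equation_iff), nonsingular because the discriminant -16 (4 A'^3 + 27 B'^2) is not 0 (Affine.equation_iff_nonsingular_of_Δ_ne_zero; H35P.B1_delta). Use if x = e then .. else .. (classical). -/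
theorem exists_v {k : Type} [Field k] [CharZero k] {A B A' B' e t u : k} (h : VI A B A' B' e t u) :
    ∃ Φ : (WAB A B).toAffine.Point → (WAB A' B').toAffine.Point, IsV A B A' B' e t u Φ := by
  classical
  have hns : ∀ P : (WAB A B).toAffine.Point, P ≠ 0 ∧ xc P ≠ e →
      (WAB A' B').toAffine.Nonsingular (vx e t u (xc P)) (vd e t u (xc P) * yc P) := by
    intro P hP
    refine v2_ns h.disc' ?_
    rw [vi_id h hP.2, mul_pow, v2_pt hP.1]
  refine ⟨fun P => if hP : P ≠ 0 ∧ xc P ≠ e then .some _ _ (hns P hP) else 0, ?_, ?_, ?_, ?_, ?_⟩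
  · exact dif_neg fun h => h.1 rfl
  · intro P _ hx
    exact dif_neg fun h => h.2 hx
  · intro P h0 hx
    show (if hP : P ≠ 0 ∧ xc P ≠ e then Affine.Point.some _ _ (hns P hP) else 0) ≠ 0
    rw [dif_pos ⟨h0, hx⟩]
    exact Affine.Point.some_ne_zero _
  · intro P h0 hx
    show xc (if hP : P ≠ 0 ∧ xc P ≠ e then Affine.Point.some _ _ (hns P hP) else 0) = _
    rw [dif_pos ⟨h0, hx⟩]
    rfl
  · intro P h0 hx
    show yc (if hP : P ≠ 0 ∧ xc P ≠ e then Affine.Point.some _ _ (hns P hP) else 0) = _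
    rw [dif_pos ⟨h0, hx⟩]
    rfl

/-- Chunk V2 (S). By cases; two nonzero points with the same coordinates are equal (H55K.CC.c27_ext or H55K.CC.c14_ext). -/
theorem v_uniq {k : Type} [Field k] {A B A' B' e t u : k} {Φ Φ' : (WAB A B).toAffine.Point → (WAB A' B').toAffine.Point}
    (h : IsV A B A' B' e t u Φ) (h' : IsV A B A' B' e t u Φ') (P : (WAB A B).toAffine.Point) : Φ P = Φ' P := by
  by_cases h0 : P = 0
  · rw [h0, h.zero, h'.zero]
  · by_cases hx : xc P = e
    · rw [h.ker P h0 hx, h'.ker P h0 hx]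
    · refine v2_ext (h.ne P h0 hx) (h'.ne P h0 hx) ?_ ?_
      · rw [h.x P h0 hx, h'.x P h0 hx]
      · rw [h.y P h0 hx, h'.y P h0 hx]

end H28I
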