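import Mathlib
import Pool.Agent.Lib.H28I.D

/-! # H28I, part LA: sublattices and overlattices: definitions -/

open NumberField IsDedekindDomain WeierstrassCurve

namespace H28I

open H55P (IQ embF eF LF Per IsHecke Pt ac Inert Dec Nm)
open H35P (WAB Ker tt GoodW IntW)
open H55K (xc yc)

/-- S represents the nonzero classes of the lattice of L' modulo the lattice of L. -/
structure RepL (L L' : PeriodPair) (S : Finset ℂ) : Prop where
  le : ∀ z ∈ L.lattice, z ∈ L'.lattice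
  mem : ∀ r ∈ S, r ∈ L'.lattice
  out : ∀ r ∈ S, r ∉ L.lattice
  inj : ∀ r ∈ S, ∀ r' ∈ S, r - r' ∈ L.lattice → r = r'
  ex : ∀ z ∈ L'.lattice, z ∈ L.lattice ∨ ∃ r ∈ S, z - r ∈ L.lattice

/-- The conclusion of part LA: the lattice of the isogenous curve. -/
structure IsoL (L L' : PeriodPair) (A' B' e t u : ℂ) : Prop where
  g2 : L'.g₂ = -4 * A'
  g3 : L'.g₃ = -4 * B'
  le : ∀ z ∈ L.lattice, z ∈ L'.lattice
  six : ∀ z ∈ L'.lattice, 6 * z ∈ L.lattice
  pole : ∀ z ∈ L'.lattice, z ∈ L.lattice ∨ L.weierstrassP z = e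
  out : ∀ z, z ∉ L'.lattice → L.weierstrassP z ≠ e
  x : ∀ z, z ∉ L'.lattice → L'.weierstrassP z = vx e t u (L.weierstrassP z)
  y : ∀ z, z ∉ L'.lattice → L'.derivWeierstrassP z = vd e t u (L.weierstrassP z) * L.derivWeierstrassP z

end H28I
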