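import Mathlib
import Pool.Agent.Lib.H28G.CDefs
import Pool.Agent.Lib.H28I.LA0

/-! # H28I, part LA: overlattices of prime index -/

open NumberField IsDedekindDomain WeierstrassCurve

namespace H28I

open H55P (IQ embF eF LF Per IsHecke Pt ac Inert Dec Nm)
open H35P (WAB Ker tt GoodW IntW)
open H55K (xc yc)

/-- Bezout. -/
theorem la1_bez {N : ℕ} (hN : N.Prime) {a : ℤ} (ha : ¬ (N : ℤ) ∣ a) : ∃ c d : ℤ, c * a = 1 + N * d := by
  have h : IsCoprime (N : ℤ) a := by
    rw [Int.isCoprime_iff_gcd_eq_one]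
    have := (Nat.Prime.coprime_iff_not_dvd hN (n := a.natAbs)).2 (by
      intro h; exact ha (Int.natCast_dvd.2 h))
    simpa [Int.gcd] using this
  obtain ⟨x, y, h⟩ := h
  exact ⟨y, -x, by linear_combination h⟩

/-- Case 1. -/
theorem la1_one (L : PeriodPair) {N : ℕ} (hN : N.Prime) {w : ℂ} {a b : ℤ} (hab : (a : ℂ) * L.ω₁ + b * L.ω₂ = N * w)
    (ha : ¬ (N : ℤ) ∣ a) :
    ∃ L' : PeriodPair, ∀ z, z ∈ L'.lattice ↔ ∃ k : ℤ, z - k * w ∈ L.lattice := by
  obtain ⟨c, d, hcd⟩ := la1_bez hN ha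
  have hN0 : (N : ℂ) ≠ 0 := Nat.cast_ne_zero.2 hN.ne_zero
  have hNr : (N : ℝ) ≠ 0 := Nat.cast_ne_zero.2 hN.ne_zero
  have hcd' : (c : ℂ) * a = 1 + N * d := by exact_mod_cast hcd
  have e1 : (N : ℂ) * (c * w - d * L.ω₁) = L.ω₁ + c * b * L.ω₂ := by
    linear_combination (-(c : ℂ)) * hab + hcd' * L.ω₁
  have e2 : w = a * (c * w - d * L.ω₁) - d * b * L.ω₂ := by
    linear_combination (-w) * hcd' + (d : ℂ) * hab
  have hind := L.indep
  rw [LinearIndependent.pair_iff] at hind
  refine ⟨⟨c * w - d * L.ω₁, L.ω₂, ?_⟩, ?_⟩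
  · rw [LinearIndependent.pair_iff]
    intro s t hst
    have h1 : (s : ℂ) * (c * w - d * L.ω₁) + (t : ℂ) * L.ω₂ = 0 := by
      simpa [Complex.real_smul] using hst
    have h2 := hind s (s * c * b + N * t) (by
      simp only [Complex.real_smul]
      push_cast
      linear_combination (N : ℂ) * h1 - (s : ℂ) * e1)
    obtain ⟨h3, h4⟩ := h2
    refine ⟨h3, ?_⟩
    rw [h3] at h4
    simp only [zero_mul, zero_add] at h4
    rcases mul_eq_zero.1 h4 with h | h
    · exact absurd h hNr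
    · exact h
  · intro z
    rw [PeriodPair.mem_lattice]
    constructor
    · rintro ⟨m, n, h⟩
      simp only at h
      refine ⟨m * c, ?_⟩
      rw [PeriodPair.mem_lattice]
      refine ⟨-m * d, n, ?_⟩
      rw [← h]
      push_cast
      ring
    · rintro ⟨k, h⟩
      rw [PeriodPair.mem_lattice] at h
      obtain ⟨p, q, h⟩ := h
      refine ⟨k * a + p * N, -k * d * b - p * c * b + q, ?_⟩
      simp only
      push_cast
      linear_combination h - (k : ℂ) * e2 + (p : ℂ) * e1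

/-- Case 2. -/
theorem la1_two (L : PeriodPair) {N : ℕ} (hN : N.Prime) {w : ℂ} {a b : ℤ}
    (hab : (N : ℂ) * a * L.ω₁ + b * L.ω₂ = N * w) (hb : ¬ (N : ℤ) ∣ b) :
    ∃ L' : PeriodPair, ∀ z, z ∈ L'.lattice ↔ ∃ k : ℤ, z - k * w ∈ L.lattice := by
  obtain ⟨c, d, hcd⟩ := la1_bez hN hb
  have hN0 : (N : ℂ) ≠ 0 := Nat.cast_ne_zero.2 hN.ne_zero
  have hNr : (N : ℝ) ≠ 0 := Nat.cast_ne_zero.2 hN.ne_zero
  have hcd' : (c : ℂ) * b = 1 + N * d := by exact_mod_cast hcd
  have e1 : (N : ℂ) * (c * (w - a * L.ω₁) - d * L.ω₂) = L.ω₂ := by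
    linear_combination (-(c : ℂ)) * hab + hcd' * L.ω₂
  have e2 : w - a * L.ω₁ = b * (c * (w - a * L.ω₁) - d * L.ω₂) := by
    have h : (N : ℂ) * (w - a * L.ω₁) = N * (b * (c * (w - a * L.ω₁) - d * L.ω₂)) := by
      linear_combination (-1 : ℂ) * hab - (b : ℂ) * e1
    exact mul_left_cancel₀ hN0 h
  have hind := L.indep
  rw [LinearIndependent.pair_iff] at hind
  refine ⟨⟨L.ω₁, c * (w - a * L.ω₁) - d * L.ω₂, ?_⟩, ?_⟩
  · rw [LinearIndependent.pair_iff]
    intro s t hst
    have h1 : (s : ℂ) * L.ω₁ + (t : ℂ) * (c * (w - a * L.ω₁) - d * L.ω₂) = 0 := by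
      simpa [Complex.real_smul] using hst
    have h2 := hind (N * s) t (by
      simp only [Complex.real_smul]
      push_cast
      linear_combination (N : ℂ) * h1 - (t : ℂ) * e1)
    obtain ⟨h3, h4⟩ := h2
    refine ⟨?_, h4⟩
    rcases mul_eq_zero.1 h3 with h | h
    · exact absurd h hNr
    · exact h
  · intro z
    rw [PeriodPair.mem_lattice]
    constructor
    · rintro ⟨m, n, h⟩
      simp only at h
      refine ⟨n * c, ?_⟩
      rw [PeriodPair.mem_lattice]
      refine ⟨m - n * c * a, -n * d, ?_⟩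
      rw [← h]
      push_cast
      ring
    · rintro ⟨k, h⟩
      rw [PeriodPair.mem_lattice] at h
      obtain ⟨p, q, h⟩ := h
      refine ⟨k * a + p, k * b + q * N, ?_⟩
      simp only
      push_cast
      linear_combination h - (k : ℂ) * e2 + (q : ℂ) * e1

/-- Chunk LA1 (M). N w = a ω₁ + b ω₂ (PeriodPair.mem_lattice).
Case 1: N does not divide a. Choose integers c, d with c a = 1 + N d. Put w' = c w - d ω₁, so N w' = ω₁ + c b ω₂, that is w' = (1/N) ω₁ + (c b/N) ω₂. L' = the pair (w', ω₂), linearly independent over the real numbers (LinearIndependent.pair_iff, L.indep). If z - k w is in the lattice of L: ω₁ = N w' - c b ω₂ is in L', and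
w = a w' - d b ω₂ (check: a w' = a c w - a d ω₁ = w + d (N w - a ω₁) = w + d b ω₂), so z is in L'. Conversely m w' + n ω₂ = (m c) w + (- m d ω₁ + n ω₂).
Case 2: a = N a'. Then N does not divide b (else w = a' ω₁ + b' ω₂ is in the lattice of L). w'' = w - a' ω₁, N w'' = b ω₂; c b = 1 + N d, w' = c w'' - d ω₂ = ω₂/N; L' = the pair (ω₁, w'): w'' = b w'. -/
theorem over_pair (L : PeriodPair) {N : ℕ} (hN : N.Prime) {w : ℂ} (hw : w ∉ L.lattice) (hNw : (N : ℂ) * w ∈ L.lattice) :
    ∃ L' : PeriodPair, ∀ z, z ∈ L'.lattice ↔ ∃ k : ℤ, z - k * w ∈ L.lattice := by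
  rw [PeriodPair.mem_lattice] at hNw
  obtain ⟨a, b, hab⟩ := hNw
  by_cases ha : (N : ℤ) ∣ a
  · obtain ⟨a', rfl⟩ := ha
    refine la1_two L hN (a := a') (b := b) (by rw [← hab]; push_cast; ring) ?_
    rintro ⟨b', rfl⟩
    apply hw
    rw [PeriodPair.mem_lattice]
    refine ⟨a', b', ?_⟩
    have hN0 : (N : ℂ) ≠ 0 := Nat.cast_ne_zero.2 hN.ne_zero
    apply mul_left_cancel₀ hN0
    rw [← hab]
    push_cast
    ring
  · exact la1_one L hN hab ha

/-- Chunk LA1 (S/M). S = {w}: mod 2 w every k w is in the lattice or congruent to w. -/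
theorem rep_two {L L' : PeriodPair} {w : ℂ} (hw : w ∉ L.lattice) (h2 : 2 * w ∈ L.lattice)
    (h : ∀ z, z ∈ L'.lattice ↔ ∃ k : ℤ, z - k * w ∈ L.lattice) : RepL L L' {w} := by
  have hz : ∀ (m : ℤ), (m : ℂ) * (2 * w) ∈ L.lattice := fun m => by
    have := L.lattice.smul_mem m h2
    simpa [zsmul_eq_mul] using this
  refine ⟨fun z hz => (h z).2 ⟨0, by simpa using hz⟩, ?_, ?_, ?_, ?_⟩
  · intro r hr
    rw [Finset.mem_singleton] at hr
    subst hr
    exact (h r).2 ⟨1, by simp⟩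
  · intro r hr
    rw [Finset.mem_singleton] at hr
    rwa [hr]
  · intro r hr r' hr' _
    rw [Finset.mem_singleton] at hr hr'
    rw [hr, hr']
  · intro z hzz
    obtain ⟨k, hk⟩ := (h z).1 hzz
    rcases Int.even_or_odd' k with ⟨m, rfl | rfl⟩
    · left
      have := add_mem hk (hz m)
      rwa [show z - ((2 * m : ℤ) : ℂ) * w + m * (2 * w) = z by push_cast; ring] at this
    · right
      refine ⟨w, Finset.mem_singleton_self _, ?_⟩
      have := add_mem hk (hz m)
      rwa [show z - ((2 * m + 1 : ℤ) : ℂ) * w + m * (2 * w) = z - w by push_cast; ring] at this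

open Classical in
/-- Chunk LA1 (S/M). S = {w, -w}; 2 w is not in the lattice (else w = 3 w - 2 w is). -/
theorem rep_three {L L' : PeriodPair} {w : ℂ} (hw : w ∉ L.lattice) (h3 : 3 * w ∈ L.lattice)
    (h : ∀ z, z ∈ L'.lattice ↔ ∃ k : ℤ, z - k * w ∈ L.lattice) : RepL L L' {w, -w} ∧ w ≠ -w := by
  have hz : ∀ (m : ℤ), (m : ℂ) * (3 * w) ∈ L.lattice := fun m => by
    have := L.lattice.smul_mem m h3
    simpa [zsmul_eq_mul] using this
  have h2 : 2 * w ∉ L.lattice := by
    intro h2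
    apply hw
    have := sub_mem h3 h2
    rwa [show 3 * w - 2 * w = w by ring] at this
  refine ⟨⟨fun z hz => (h z).2 ⟨0, by simpa using hz⟩, ?_, ?_, ?_, ?_⟩, ?_⟩
  · intro r hr
    rw [Finset.mem_insert, Finset.mem_singleton] at hr
    rcases hr with rfl | rfl
    · exact (h r).2 ⟨1, by simp⟩
    · exact (h _).2 ⟨-1, by simp⟩
  · intro r hr
    rw [Finset.mem_insert, Finset.mem_singleton] at hr
    rcases hr with rfl | rfl
    · exact hw
    · rwa [neg_mem_iff]
  · intro r hr r' hr' hd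
    rw [Finset.mem_insert, Finset.mem_singleton] at hr hr'
    rcases hr with rfl | rfl
    · rcases hr' with rfl | rfl
      · rfl
      · exact absurd (by rwa [show r - -r = 2 * r by ring] at hd) h2
    · rcases hr' with rfl | rfl
      · exact absurd (by rw [← neg_mem_iff]; rwa [show -r' - r' = -(2 * r') by ring] at hd) h2
      · rfl
  · intro z hzz
    obtain ⟨k, hk⟩ := (h z).1 hzz
    have hm : k % 3 = 0 ∨ k % 3 = 1 ∨ k % 3 = 2 := by omega
    rcases hm with hm | hm | hm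
    · left
      obtain ⟨m, rfl⟩ : ∃ m, k = 3 * m := ⟨k / 3, by omega⟩
      have := add_mem hk (hz m)
      rwa [show z - ((3 * m : ℤ) : ℂ) * w + m * (3 * w) = z by push_cast; ring] at this
    · right
      obtain ⟨m, rfl⟩ : ∃ m, k = 3 * m + 1 := ⟨k / 3, by omega⟩
      refine ⟨w, by simp, ?_⟩
      have := add_mem hk (hz m)
      rwa [show z - ((3 * m + 1 : ℤ) : ℂ) * w + m * (3 * w) = z - w by push_cast; ring] at this
    · right
      obtain ⟨m, rfl⟩ : ∃ m, k = 3 * m - 1 := ⟨(k + 1) / 3, by omega⟩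
      refine ⟨-w, by simp, ?_⟩
      have := add_mem hk (hz m)
      rwa [show z - ((3 * m - 1 : ℤ) : ℂ) * w + m * (3 * w) = z - -w by push_cast; ring] at this
  · intro he
    apply hw
    have : w = 0 := by
      have h4 : 2 * w = 0 := by linear_combination he
      simpa using h4
    rw [this]
    exact zero_mem _

end H28I
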