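import Mathlib
import Pool.Agent.Lib.H28I.LA0
import Pool.Agent.Lib.H55K.C2

/-! # H28I, part LA: the Weierstrass function of an overlattice -/

open NumberField IsDedekindDomain WeierstrassCurve

namespace H28I

open H55P (IQ embF eF LF Per IsHecke Pt ac Inert Dec Nm)
open H35P (WAB Ker tt GoodW IntW)
open H55K (xc yc)

/-- The difference. -/
noncomputable def la2_D (L L' : PeriodPair) (T : Finset ℂ) (z : ℂ) : ℂ :=
  L'.weierstrassP z - ∑ r ∈ T, L.weierstrassP (z + r)

theorem la2_zero_notMem {L L' : PeriodPair} {S : Finset ℂ} (h : RepL L L' S) : (0 : ℂ) ∉ S :=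
  fun h0 => h.out 0 h0 (zero_mem _)

theorem la2_per {L L' : PeriodPair} {S : Finset ℂ} (h : RepL L L' S) (T : Finset ℂ) (z : ℂ) (l : ℂ)
    (hl : l ∈ L.lattice) : la2_D L L' T (z + l) = la2_D L L' T z := by
  unfold la2_D
  rw [H55K.CC.wp_per L' z (h.le l hl)]
  congr 1
  refine Finset.sum_congr rfl fun r _ => ?_
  rw [show z + l + r = z + r + l by ring, H55K.CC.wp_per L (z + r) hl]

open Classical in
theorem la2_out {L L' : PeriodPair} {S : Finset ℂ} (h : RepL L L' S) {z₀ r₀ : ℂ} (hr₀ : r₀ ∈ insert 0 S)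
    (h0 : z₀ + r₀ ∈ L.lattice) {r : ℂ} (hr : r ∈ (insert 0 S).erase r₀) : z₀ + r ∉ L.lattice := by
  intro h1
  have hd : r - r₀ ∈ L.lattice := by
    have := sub_mem h1 h0
    rwa [show z₀ + r - (z₀ + r₀) = r - r₀ by ring] at this
  rw [Finset.mem_erase, Finset.mem_insert] at hr
  rw [Finset.mem_insert] at hr₀
  obtain ⟨hne, hr⟩ := hr
  rcases hr with rfl | hr
  · rcases hr₀ with rfl | hr₀
    · exact hne rfl
    · rw [zero_sub, neg_mem_iff] at hd
      exact h.out _ hr₀ hd
  · rcases hr₀ with rfl | hr₀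
    · rw [sub_zero] at hd
      exact h.out _ hr hd
    · exact hne (h.inj r hr r₀ hr₀ hd)

open Classical in
theorem la2_loc {L L' : PeriodPair} {S : Finset ℂ} (h : RepL L L' S) {z₀ r₀ : ℂ} (hr₀ : r₀ ∈ insert 0 S)
    (h0 : z₀ + r₀ ∈ L.lattice) {u u' : ℂ → ℂ} (hu : AnalyticAt ℂ u 0) (hu' : AnalyticAt ℂ u' 0)
    (hwp : ∀ z : ℂ, z ≠ 0 → L.weierstrassP z = (z ^ 2)⁻¹ + u z)
    (hwp' : ∀ z : ℂ, z ≠ 0 → L'.weierstrassP z = (z ^ 2)⁻¹ + u' z) :
    AnalyticAt ℂ (fun z => u' (z - z₀) - u (z - z₀) -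
      ∑ r ∈ (insert 0 S).erase r₀, L.weierstrassP (z + r)) z₀ ∧
    ∀ z, z ≠ z₀ → la2_D L L' (insert 0 S) z = u' (z - z₀) - u (z - z₀) -
      ∑ r ∈ (insert 0 S).erase r₀, L.weierstrassP (z + r) := by
  constructor
  · have h1 : AnalyticAt ℂ (fun z => u' (z - z₀)) z₀ := by
      have e : AnalyticAt ℂ u' ((fun z : ℂ => z - z₀) z₀) := by simpa using hu'
      exact e.comp (f := fun z : ℂ => z - z₀) (by fun_prop)
    have h2 : AnalyticAt ℂ (fun z => u (z - z₀)) z₀ := by
      have e : AnalyticAt ℂ u ((fun z : ℂ => z - z₀) z₀) := by simpa using hu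
      exact e.comp (f := fun z : ℂ => z - z₀) (by fun_prop)
    have h3 : AnalyticAt ℂ (fun z => ∑ r ∈ (insert 0 S).erase r₀, L.weierstrassP (z + r)) z₀ :=
      Finset.analyticAt_fun_sum _ fun r hr => H55K.CC.c2_an (la2_out h hr₀ h0 hr)
    exact (h1.sub h2).sub h3
  · intro z hz
    have hz' : z - z₀ ≠ 0 := sub_ne_zero.2 hz
    have hb : z₀ ∈ L'.lattice := by
      have h1 := h.le _ h0
      have h2 : r₀ ∈ L'.lattice := by
        rw [Finset.mem_insert] at hr₀
        rcases hr₀ with rfl | hr₀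
        · exact zero_mem _
        · exact h.mem _ hr₀
      have := sub_mem h1 h2
      rwa [show (z₀ + r₀) - r₀ = z₀ by ring] at this
    have e1 : L'.weierstrassP z = ((z - z₀) ^ 2)⁻¹ + u' (z - z₀) := by
      rw [← hwp' _ hz', ← H55K.CC.wp_per L' (z - z₀) hb]
      congr 1
      ring
    have e2 : L.weierstrassP (z + r₀) = ((z - z₀) ^ 2)⁻¹ + u (z - z₀) := by
      rw [← hwp _ hz', ← H55K.CC.wp_per L (z - z₀) h0]
      congr 1
      ring
    unfold la2_D
    rw [← Finset.add_sum_erase _ _ hr₀, e1, e2]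
    ring

open Classical in
/-- The proof of sum_wp. -/
theorem la2_main {L L' : PeriodPair} {S : Finset ℂ} (h : RepL L L' S) {z : ℂ} (hz : z ∉ L'.lattice) :
    L'.weierstrassP z = L.weierstrassP z + ∑ r ∈ S, (L.weierstrassP (z + r) - L.weierstrassP r) := by
  obtain ⟨u, hu, hu0, hwp⟩ := H35P.wp_zero L
  obtain ⟨u', hu', hu'0, hwp'⟩ := H35P.wp_zero L'
  have han : ∀ z₀, z₀ ∉ L'.lattice → AnalyticAt ℂ (la2_D L L' (insert 0 S)) z₀ := by
    intro z₀ hz₀
    have h1 : AnalyticAt ℂ (fun z => L'.weierstrassP z) z₀ := H35P.wp_analytic L' _ hz₀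
    have h3 : AnalyticAt ℂ (fun z => ∑ r ∈ insert 0 S, L.weierstrassP (z + r)) z₀ := by
      refine Finset.analyticAt_fun_sum _ fun r hr => H55K.CC.c2_an ?_
      rw [Finset.mem_insert] at hr
      rcases hr with rfl | hr
      · rw [add_zero]; exact fun k => hz₀ (h.le _ k)
      · intro k
        apply hz₀
        have k1 := sub_mem (h.le _ k) (h.mem _ hr)
        rwa [show z₀ + r - r = z₀ by ring] at k1
    exact h1.sub h3
  obtain ⟨c, hc⟩ := H35P.liouville L (la2_D L L' (insert 0 S)) (fun z l hl => la2_per h _ z l hl) (by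
    intro z₀
    by_cases hz₀ : z₀ ∈ L'.lattice
    · obtain ⟨r₀, hr₀, h0⟩ : ∃ r₀ ∈ insert 0 S, z₀ + r₀ ∈ L.lattice := by
        have h1 : (-z₀) ∈ L'.lattice := by
          rw [neg_mem_iff]; exact hz₀
        rcases h.ex _ h1 with h2 | ⟨r, hr, h2⟩
        · exact ⟨0, Finset.mem_insert_self _ _, by rw [add_zero]; exact neg_mem_iff.1 h2⟩
        · refine ⟨r, Finset.mem_insert_of_mem hr, ?_⟩
          rw [← neg_mem_iff]
          rwa [show -(z₀ + r) = -z₀ - r by ring]
      obtain ⟨k1, k2⟩ := la2_loc h hr₀ h0 hu hu' hwp hwp'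
      refine ⟨_, k1, ?_⟩
      filter_upwards [self_mem_nhdsWithin] with z hz using k2 z hz
    · exact ⟨_, han z₀ hz₀, Filter.Eventually.of_forall fun z => rfl⟩)
  have h0 : (0 : ℂ) + 0 ∈ L.lattice := by rw [add_zero]; exact zero_mem _
  obtain ⟨k1, k2⟩ := la2_loc h (Finset.mem_insert_self 0 S) h0 hu hu' hwp hwp'
  have e1 := hc 0 _ k1.continuousAt (by
    filter_upwards [self_mem_nhdsWithin] with z hz using k2 z hz)
  have e2 := hc z _ (han z hz).continuousAt (Filter.Eventually.of_forall fun z => rfl)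
  rw [← e1] at e2
  simp only [sub_zero, hu0, hu'0, zero_add, zero_sub] at e2
  rw [Finset.erase_insert (la2_zero_notMem h)] at e2
  unfold la2_D at e2
  rw [Finset.sum_insert (la2_zero_notMem h), add_zero] at e2
  rw [Finset.sum_sub_distrib]
  linear_combination e2

/-- Chunk LA2 (M). Port of E1 (H55K/C2.lean) with two lattices: D(z) = wp_L'(z) - sum over r in insert 0 S of wp_L(z + r). It is periodic for the lattice of L' : for l in L' : translation by l permutes the classes modulo L (or, simpler: D is periodic for the lattice of L, which is enough for H35P.liouville L: wp_per for L and for L' (h.le)).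
Local: z0 not in L': every z0 + r (r in insert 0 S) is outside L' hence outside L: analytic (H35P.wp_analytic). z0 in L': there is exactly one r0 in insert 0 S with z0 + r0 in L (h.ex for -z0, h.inj, h.out); with u, u' from H35P.wp_zero for L, L': near z0: wp_L'(z) = ((z - z0)^2)^(-1) + u'(z - z0) and wp_L(z + r0) = ((z - z0)^2)^(-1) + u(z - z0), so
D(z) = u'(z - z0) - u(z - z0) - (the other terms), analytic. liouville gives a constant; at z0 = 0 (r0 = 0, u 0 = u' 0 = 0) it is - sum over S of wp_L r. -/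
theorem sum_wp {L L' : PeriodPair} {S : Finset ℂ} (h : RepL L L' S) {z : ℂ} (hz : z ∉ L'.lattice) :
    L'.weierstrassP z = L.weierstrassP z + ∑ r ∈ S, (L.weierstrassP (z + r) - L.weierstrassP r) :=
  la2_main h hz

end H28I
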