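import Mathlib
import Pool.Agent.Lib.H55K.C10

/-! # H28I, part LA: translation by points of order 2 and 3 -/

open NumberField IsDedekindDomain WeierstrassCurve

namespace H28I

open H55P (IQ embF eF LF Per IsHecke Pt ac Inert Dec Nm)
open H35P (WAB Ker tt GoodW IntW)
open H55K (xc yc)

/-- The formula with Om = 1. -/
theorem la3_add_sub (L : PeriodPair) {A B : ℂ} (g2 : L.g₂ = -4 * A) (g3 : L.g₃ = -4 * B) {w z : ℂ} (hw : w ∉ L.lattice)
    (hz : z ∉ L.lattice) (hzw : z + w ∉ L.lattice) (hzw' : z - w ∉ L.lattice) :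
    L.weierstrassP z - L.weierstrassP w ≠ 0 ∧ L.weierstrassP (z + w) + L.weierstrassP (z - w) =
      2 * ((L.weierstrassP z + L.weierstrassP w) * (L.weierstrassP w * L.weierstrassP z + A) + 2 * B) /
        (L.weierstrassP z - L.weierstrassP w) ^ 2 := by
  have h := H55K.CC.xl_add_sub L (A := A) (B := B) (Om := 1) one_ne_zero (by rw [g2]; ring) (by rw [g3]; ring) hz hw hzw hzw'
  simpa [H55K.CC.XL] using h

/-- The derivative vanishes at a point of order 2. -/
theorem la3_deriv (L : PeriodPair) {w : ℂ} (h2 : 2 * w ∈ L.lattice) : L.derivWeierstrassP w = 0 := by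
  have h := H55K.CC.wpd_per L (-w) h2
  rw [show -w + 2 * w = w by ring, L.derivWeierstrassP_neg] at h
  linear_combination h / 2

/-- Chunk LA3 (S/M). z - w = (z + w) - 2 w is not in the lattice. H55K.CC.xl_add_sub with Om = 1 (XL L 1 z = wp z): wp z ≠ wp w and, wp(z - w) = wp(z + w) (periodicity), 2 wp(z + w) = 2 ((x + e)(x e + A) + 2 B)/(x - e)^2 with x = wp z, e = wp w. derivWeierstrassP w = 0 (odd, periodic: w and -w are congruent), so e^3 + A e + B = 0
(L.derivWeierstrassP_sq). B = - e^3 - A e: field_simp, ring. -/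
theorem two_add (L : PeriodPair) {A B : ℂ} (g2 : L.g₂ = -4 * A) (g3 : L.g₃ = -4 * B) {w z : ℂ} (hw : w ∉ L.lattice)
    (h2 : 2 * w ∈ L.lattice) (hz : z ∉ L.lattice) (hzw : z + w ∉ L.lattice) :
    L.weierstrassP z ≠ L.weierstrassP w ∧ L.weierstrassP (z + w) - L.weierstrassP w =
      (3 * L.weierstrassP w ^ 2 + A) / (L.weierstrassP z - L.weierstrassP w) := by
  have hzw' : z - w ∉ L.lattice := by
    intro h
    apply hzw
    have := add_mem h h2
    rwa [show z - w + 2 * w = z + w by ring] at this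
  obtain ⟨h0, h1⟩ := la3_add_sub L g2 g3 hw hz hzw hzw'
  have e1 : L.weierstrassP (z + w) = L.weierstrassP (z - w) := by
    rw [← H55K.CC.wp_per L (z - w) h2]
    congr 1
    ring
  have e2 := L.derivWeierstrassP_sq w hw
  rw [la3_deriv L h2, g2, g3] at e2
  rw [← e1] at h1
  refine ⟨sub_ne_zero.1 h0, ?_⟩
  have h1' : L.weierstrassP (z + w) = ((L.weierstrassP z + L.weierstrassP w) * (L.weierstrassP w * L.weierstrassP z + A) + 2 * B) /
        (L.weierstrassP z - L.weierstrassP w) ^ 2 := by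
    linear_combination h1 / 2
  rw [h1']
  set x := L.weierstrassP z
  set e := L.weierstrassP w
  have e3 : e ^ 3 + A * e + B = 0 := by linear_combination (-1 / 4 : ℂ) * e2
  rw [eq_div_iff h0, sub_mul, div_mul_eq_mul_div, pow_two (x - e), mul_div_mul_right _ _ h0, sub_eq_iff_eq_add,
    div_eq_iff h0]
  linear_combination 2 * e3

/-- Chunk LA3 (S/M). H55K.CC.xl_add_sub with Om = 1; the wp w are subtracted; field_simp, ring (no relation is needed: 2 ((x + e)(x e + A) + 2 B) - 2 e (x - e)^2 = 2 (3 e^2 + A)(x - e) + 4 (e^3 + A e + B)). -/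
theorem three_add (L : PeriodPair) {A B : ℂ} (g2 : L.g₂ = -4 * A) (g3 : L.g₃ = -4 * B) {w z : ℂ} (hw : w ∉ L.lattice)
    (hz : z ∉ L.lattice) (hzw : z + w ∉ L.lattice) (hzw' : z - w ∉ L.lattice) :
    L.weierstrassP z ≠ L.weierstrassP w ∧
      (L.weierstrassP (z + w) - L.weierstrassP w) + (L.weierstrassP (z - w) - L.weierstrassP w) =
      2 * (3 * L.weierstrassP w ^ 2 + A) / (L.weierstrassP z - L.weierstrassP w) +
        4 * (L.weierstrassP w ^ 3 + A * L.weierstrassP w + B) / (L.weierstrassP z - L.weierstrassP w) ^ 2 := by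
  obtain ⟨h0, h1⟩ := la3_add_sub L g2 g3 hw hz hzw hzw'
  refine ⟨sub_ne_zero.1 h0, ?_⟩
  have e1 : (L.weierstrassP (z + w) - L.weierstrassP w) + (L.weierstrassP (z - w) - L.weierstrassP w) =
    (L.weierstrassP (z + w) + L.weierstrassP (z - w)) - 2 * L.weierstrassP w := by ring
  rw [e1, h1]
  field_simp
  ring

end H28I
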