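import Mathlib
import Pool.Agent.Lib.H55K.C1

/-! # H28I, part LA: points of order 2 and 3 -/

open NumberField IsDedekindDomain WeierstrassCurve

namespace H28I

open H55P (IQ embF eF LF Per IsHecke Pt ac Inert Dec Nm)
open H35P (WAB Ker tt GoodW IntW)
open H55K (xc yc)

/-- Chunk LA3B (M). H55K.CC.wp_surj: w with wp w = e. pt from H35P.pt_exists with Om = 1 (and pt z = 0 only for z in the lattice, since otherwise pt z = some). derivWeierstrassP_sq: (wp' w)^2 = 4 (e^3 + A e + B) = 0. So pt w = some e 0, - pt w = pt w (Affine.Point.neg_some, negY), pt (2 w) = pt w + pt w = 0, 2 w is in the lattice. -/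
theorem two_tor (L : PeriodPair) {A B e : ℂ} (g2 : L.g₂ = -4 * A) (g3 : L.g₃ = -4 * B) (hd : 4 * A ^ 3 + 27 * B ^ 2 ≠ 0)
    (he : e ^ 3 + A * e + B = 0) : ∃ w, w ∉ L.lattice ∧ L.weierstrassP w = e ∧ 2 * w ∈ L.lattice := by
  obtain ⟨w, hw, hwe⟩ := H55K.CC.wp_surj L e
  refine ⟨w, hw, hwe, ?_⟩
  by_contra h2
  have h3 := H35P.wpd_ne L w hw h2
  have e1 := L.derivWeierstrassP_sq w hw
  rw [g2, g3, hwe] at e1
  have e2 : L.derivWeierstrassP w ^ 2 = 0 := by linear_combination e1 + 4 * he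
  exact h3 (pow_eq_zero_iff two_ne_zero |>.1 e2)

/-- Chunk LA3B (M). w and pt as in two_tor, P = pt w = some e y, y = wp' w/2, y^2 = e^3 + A e + B. y ≠ 0: otherwise e^3 + A e + B = 0 and 3 e^4 + 6 A e^2 + 12 B e - A^2 = 0, so with B = - e^3 - A e: - (3 e^2 + A)^2 = 0, A = -3 e^2, B = 2 e^3, 4 A^3 + 27 B^2 = 0, contradiction. P + P = some x' .. with x' = ((3 e^2 + A)/(2 y))^2 - 2 e (Affine.Point.add_self_of_Y_ne or add_some, slope_of_Y_ne),
and x' = e because (3 e^2 + A)^2 - 12 e y^2 = -(3 e^4 + 6 A e^2 + 12 B e - A^2) = 0. Two points with the same x-coordinate are equal or opposite: P + P = P gives P = 0, impossible; so P + P = -P, 3 P = 0 and 3 w is in the lattice. -/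
theorem three_tor (L : PeriodPair) {A B e : ℂ} (g2 : L.g₂ = -4 * A) (g3 : L.g₃ = -4 * B) (hd : 4 * A ^ 3 + 27 * B ^ 2 ≠ 0)
    (he : 3 * e ^ 4 + 6 * A * e ^ 2 + 12 * B * e - A ^ 2 = 0) :
    ∃ w, w ∉ L.lattice ∧ L.weierstrassP w = e ∧ 3 * w ∈ L.lattice := by
  obtain ⟨w, hw, hwe⟩ := H55K.CC.wp_surj L e
  refine ⟨w, hw, hwe, ?_⟩
  by_contra h3
  have e1 := L.derivWeierstrassP_sq w hw
  rw [g2, g3, hwe] at e1
  have h2 : 2 * w ∉ L.lattice := by
    intro h2
    have h4 := H55K.CC.wpd_per L (-w) h2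
    rw [show -w + 2 * w = w by ring, L.derivWeierstrassP_neg] at h4
    have h5 : L.derivWeierstrassP w = 0 := by linear_combination h4 / 2
    rw [h5] at e1
    have h6 : (3 * e ^ 2 + A) ^ 2 = 0 := by linear_combination (-1 : ℂ) * he - 3 * e * e1
    have h7 : 3 * e ^ 2 + A = 0 := pow_eq_zero_iff two_ne_zero |>.1 h6
    apply hd
    have h8 : A = -3 * e ^ 2 := by linear_combination h7
    have h9 : B = 2 * e ^ 3 := by
      rw [h8] at e1
      linear_combination (-1 / 4 : ℂ) * e1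
    rw [h8, h9]
    ring
  have h4 := H35P.dbl_x L w hw h2
  have h5 := H35P.wpd_ne L w hw h2
  have h6 : L.weierstrassP (2 * w) = L.weierstrassP w := by
    rw [h4, hwe]
    unfold H35P.md
    rw [hwe, g2, div_pow]
    have h7 : (6 * e ^ 2 - -4 * A / 2) ^ 2 / L.derivWeierstrassP w ^ 2 = 12 * e := by
      rw [div_eq_iff (pow_ne_zero 2 h5), e1]
      linear_combination (-4 : ℂ) * he
    rw [h7]
    ring
  exact H35P.wp_ne L (2 * w) w h2 hw (by rwa [show 2 * w + w = 3 * w by ring]) (by rwa [show 2 * w - w = w by ring]) h6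

end H28I
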