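import Mathlib
import Pool.Agent.Lib.H28I.LA1
import Pool.Agent.Lib.H28I.LA2
import Pool.Agent.Lib.H28I.LA3
import Pool.Agent.Lib.H28I.LA3B

/-! # H28I, part LA: the lattice of the isogenous curve -/

open NumberField IsDedekindDomain WeierstrassCurve

namespace H28I

open H55P (IQ embF eF LF Per IsHecke Pt ac Inert Dec Nm)
open H35P (WAB Ker tt GoodW IntW)
open H55K (xc yc)

theorem la4_per (L : PeriodPair) {z w : ℂ} (h : z - w ∈ L.lattice) : L.weierstrassP z = L.weierstrassP w := by
  have h1 := L.weierstrassP_add_coe w ⟨z - w, h⟩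
  rw [← h1]
  show L.weierstrassP z = L.weierstrassP (w + (z - w))
  rw [add_sub_cancel]

theorem la4_mul (L : PeriodPair) {z : ℂ} (n : ℤ) (h : z ∈ L.lattice) : (n : ℂ) * z ∈ L.lattice := by
  have h1 := L.lattice.smul_mem n h
  rwa [zsmul_eq_mul] at h1

/-- Chunk LA4 (M). First case of h.cs: w from two_tor, L' from over_pair (N = 2), S = {w} (rep_two). Second case: w from three_tor, N = 3, S = {w, -w} (rep_three, Finset.sum_pair; wp(-w) = wp w). For z outside L': z, z + w, z - w are outside L (they are outside L'), so sum_wp and two_add or three_add give L'.weierstrassP z = vx e t u (L.weierstrassP z) and wp_L z ≠ e.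
pole: z in L' is in L or z = ± w + l, where wp_L z = wp_L w = e. le, six: from the description of L'. -/
theorem iso_x (L : PeriodPair) {A B A' B' e t u : ℂ} (h : VI A B A' B' e t u) (g2 : L.g₂ = -4 * A) (g3 : L.g₃ = -4 * B) :
    ∃ L' : PeriodPair, (∀ z ∈ L.lattice, z ∈ L'.lattice) ∧ (∀ z ∈ L'.lattice, 6 * z ∈ L.lattice) ∧
      (∀ z ∈ L'.lattice, z ∈ L.lattice ∨ L.weierstrassP z = e) ∧ (∀ z, z ∉ L'.lattice → L.weierstrassP z ≠ e) ∧
      ∀ z, z ∉ L'.lattice → L'.weierstrassP z = vx e t u (L.weierstrassP z) := by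
  rcases h.cs with ⟨hu, he, ht⟩ | ⟨ht, hu, h3⟩
  · obtain ⟨w, hw, hwe, h2⟩ := two_tor L g2 g3 h.disc he
    obtain ⟨L', hL'⟩ := over_pair L Nat.prime_two hw (by exact_mod_cast h2)
    have hR := rep_two hw h2 hL'
    have hcl : ∀ z ∈ L'.lattice, z ∈ L.lattice ∨ z - w ∈ L.lattice := by
      intro z hz
      rcases hR.ex z hz with h1 | ⟨r, hr, h1⟩
      · exact Or.inl h1
      · rw [Finset.mem_singleton.1 hr] at h1
        exact Or.inr h1
    have hout : ∀ z, z ∉ L'.lattice → z ∉ L.lattice ∧ z + w ∉ L.lattice := by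
      intro z hz
      refine ⟨fun h1 => hz (hR.le z h1), fun h1 => hz ((hL' z).2 ⟨-1, ?_⟩)⟩
      push_cast
      have e1 : z - -1 * w = z + w := by ring
      rw [e1]
      exact h1
    refine ⟨L', hR.le, ?_, ?_, ?_, ?_⟩
    · intro z hz
      rcases hcl z hz with h1 | h1
      · exact_mod_cast la4_mul L 6 h1
      · have e1 : (6 : ℂ) * z = ((6 : ℤ) : ℂ) * (z - w) + ((3 : ℤ) : ℂ) * (2 * w) := by
          push_cast
          ring
        rw [e1]
        exact add_mem (la4_mul L 6 h1) (la4_mul L 3 h2)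
    · intro z hz
      rcases hcl z hz with h1 | h1
      · exact Or.inl h1
      · exact Or.inr (by rw [la4_per L h1, hwe])
    · intro z hz
      obtain ⟨a1, a2⟩ := hout z hz
      have a3 := (two_add L g2 g3 hw h2 a1 a2).1
      rwa [hwe] at a3
    · intro z hz
      obtain ⟨a1, a2⟩ := hout z hz
      have a3 := (two_add L g2 g3 hw h2 a1 a2).2
      rw [sum_wp hR hz, Finset.sum_singleton, a3, hwe, hu, ht]
      unfold vx
      rw [zero_div, add_zero]
  · obtain ⟨w, hw, hwe, h3w⟩ := three_tor L g2 g3 h.disc h3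
    obtain ⟨L', hL'⟩ := over_pair L Nat.prime_three hw (by exact_mod_cast h3w)
    obtain ⟨hR, hne⟩ := rep_three hw h3w hL'
    have hcl : ∀ z ∈ L'.lattice, z ∈ L.lattice ∨ z - w ∈ L.lattice ∨ z + w ∈ L.lattice := by
      intro z hz
      rcases hR.ex z hz with h1 | ⟨r, hr, h1⟩
      · exact Or.inl h1
      · rcases Finset.mem_insert.1 hr with h4 | h4
        · rw [h4] at h1
          exact Or.inr (Or.inl h1)
        · rw [Finset.mem_singleton.1 h4, sub_neg_eq_add] at h1
          exact Or.inr (Or.inr h1)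
    have hout : ∀ z, z ∉ L'.lattice → z ∉ L.lattice ∧ z + w ∉ L.lattice ∧ z - w ∉ L.lattice := by
      intro z hz
      refine ⟨fun h1 => hz (hR.le z h1), fun h1 => hz ((hL' z).2 ⟨-1, ?_⟩), fun h1 => hz ((hL' z).2 ⟨1, ?_⟩)⟩
      · push_cast
        have e1 : z - -1 * w = z + w := by ring
        rw [e1]
        exact h1
      · push_cast
        rw [one_mul]
        exact h1
    refine ⟨L', hR.le, ?_, ?_, ?_, ?_⟩
    · intro z hz
      rcases hcl z hz with h1 | h1 | h1
      · exact_mod_cast la4_mul L 6 h1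
      · have e1 : (6 : ℂ) * z = ((6 : ℤ) : ℂ) * (z - w) + ((2 : ℤ) : ℂ) * (3 * w) := by
          push_cast
          ring
        rw [e1]
        exact add_mem (la4_mul L 6 h1) (la4_mul L 2 h3w)
      · have e1 : (6 : ℂ) * z = ((6 : ℤ) : ℂ) * (z + w) + ((-2 : ℤ) : ℂ) * (3 * w) := by
          push_cast
          ring
        rw [e1]
        exact add_mem (la4_mul L 6 h1) (la4_mul L (-2) h3w)
    · intro z hz
      rcases hcl z hz with h1 | h1 | h1
      · exact Or.inl h1
      · exact Or.inr (by rw [la4_per L h1, hwe])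
      · refine Or.inr ?_
        have h4 : z - -w ∈ L.lattice := by rwa [sub_neg_eq_add]
        rw [la4_per L h4, L.weierstrassP_neg, hwe]
    · intro z hz
      obtain ⟨a1, a2, a3⟩ := hout z hz
      have a4 := (three_add L g2 g3 hw a1 a2 a3).1
      rwa [hwe] at a4
    · intro z hz
      obtain ⟨a1, a2, a3⟩ := hout z hz
      have a4 := (three_add L g2 g3 hw a1 a2 a3).2
      rw [sum_wp hR hz, Finset.sum_pair hne, L.weierstrassP_neg, ← sub_eq_add_neg z w, a4, hwe, hu, ht]
      unfold vx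
      ring

end H28I
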