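import Mathlib
import Pool.Agent.Lib.H28I.LA4
import Pool.Agent.Lib.H28I.V1

/-! # H28I, part LA: the lattice of the isogenous curve -/

open NumberField IsDedekindDomain WeierstrassCurve

namespace H28I

open H55P (IQ embF eF LF Per IsHecke Pt ac Inert Dec Nm)
open H35P (WAB Ker tt GoodW IntW)
open H55K (xc yc)

theorem la4b_vx {e t u x : ℂ} (hx : x ≠ e) : HasDerivAt (fun y => vx e t u y) (vd e t u x) x := by
  have hx' : x - e ≠ 0 := sub_ne_zero.2 hx
  have h1 : HasDerivAt (fun y : ℂ => y - e) 1 x := (hasDerivAt_id x).sub_const e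
  have h2 := (((hasDerivAt_id x).add ((hasDerivAt_const x t).div h1 hx')).add
    ((hasDerivAt_const x u).div (h1.fun_pow 2) (pow_ne_zero 2 hx')))
  unfold vx vd
  refine HasDerivAt.congr_deriv h2 ?_
  simp only [Nat.cast_ofNat]
  field_simp
  ring

/-- Chunk LA4B (S/M). On the open set of the z outside L' (H35P.compl_open L') the two functions L'.weierstrassP and vx e t u ∘ L.weierstrassP agree; derivatives (H35P.wp_hasDeriv for L' and for L (z is outside L), the chain rule: the derivative of vx e t u at x ≠ e is vd e t u x), HasDerivAt.unique. -/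
theorem iso_y {L L' : PeriodPair} {e t u : ℂ} (hle : ∀ z ∈ L.lattice, z ∈ L'.lattice)
    (hne : ∀ z, z ∉ L'.lattice → L.weierstrassP z ≠ e)
    (hx : ∀ z, z ∉ L'.lattice → L'.weierstrassP z = vx e t u (L.weierstrassP z)) {z : ℂ} (hz : z ∉ L'.lattice) :
    L'.derivWeierstrassP z = vd e t u (L.weierstrassP z) * L.derivWeierstrassP z := by
  have hzL : z ∉ L.lattice := fun h => hz (hle z h)
  have h1 := H35P.wp_hasDeriv L' z hz
  have h2 := (la4b_vx (t := t) (u := u) (hne z hz)).comp z (H35P.wp_hasDeriv L z hzL)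
  have h3 : ∀ᶠ w in nhds z, w ∉ L'.lattice := (H35P.compl_open L').mem_nhds hz
  refine h1.unique (h2.congr_of_eventuallyEq ?_)
  filter_upwards [h3] with w hw
  exact hx w hw

/-- Chunk LA4B (M). g₂, g₃ of L': for z outside L' put X = L'.weierstrassP z, x = L.weierstrassP z. derivWeierstrassP_sq for L' : (vd x)^2 (wp' z)^2 = 4 X^3 - g₂' X - g₃'; for L: (wp' z)^2 = 4 (x^3 + A x + B); vi_id: so 4 (X^3 + A' X + B') = 4 X^3 - g₂' X - g₃', that is (4 A' + g₂') X + (4 B' + g₃') = 0. X takes the values 0 and 1 (H55K.CC.wp_surj L'). -/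
theorem iso_L (L : PeriodPair) {A B A' B' e t u : ℂ} (h : VI A B A' B' e t u) (g2 : L.g₂ = -4 * A) (g3 : L.g₃ = -4 * B) :
    ∃ L' : PeriodPair, IsoL L L' A' B' e t u := by
  obtain ⟨L', hle, hsix, hpole, hout, hx⟩ := iso_x L h g2 g3
  have hy : ∀ z, z ∉ L'.lattice → L'.derivWeierstrassP z = vd e t u (L.weierstrassP z) * L.derivWeierstrassP z :=
    fun z hz => iso_y hle hout hx hz
  have hkey : ∀ z, z ∉ L'.lattice → (4 * A' + L'.g₂) * L'.weierstrassP z + (4 * B' + L'.g₃) = 0 := by
    intro z hz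
    have hzL : z ∉ L.lattice := fun h => hz (hle z h)
    have e1 := L'.derivWeierstrassP_sq z hz
    have e2 := L.derivWeierstrassP_sq z hzL
    have e3 := vi_id h (hout z hz)
    rw [hy z hz] at e1
    rw [← hx z hz] at e3
    rw [g2, g3] at e2
    linear_combination e1 - (vd e t u (L.weierstrassP z)) ^ 2 * e2 + 4 * e3
  obtain ⟨z0, h0, h0'⟩ := H55K.CC.wp_surj L' 0
  obtain ⟨z1, h1, h1'⟩ := H55K.CC.wp_surj L' 1
  have k0 := hkey z0 h0
  have k1 := hkey z1 h1
  rw [h0'] at k0
  rw [h1'] at k1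
  refine ⟨L', ?_, ?_, hle, hsix, hpole, hout, hx, hy⟩
  · linear_combination k1 - k0
  · linear_combination k0

end H28I
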