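import Mathlib
import Pool.Agent.Lib.H28I.LA4B
import Pool.Agent.Lib.H55K.C14

/-! # H28I, part V: additivity over the complex numbers -/

open NumberField IsDedekindDomain WeierstrassCurve

namespace H28I

open H55P (IQ embF eF LF Per IsHecke Pt ac Inert Dec Nm)
open H35P (WAB Ker tt GoodW IntW)
open H55K (xc yc)

theorem v3_surj (L : PeriodPair) {A B : ℂ} (g2 : L.g₂ = -4 * A) (g3 : L.g₃ = -4 * B)
    {pt : ℂ → (WAB A B).toAffine.Point} (h0 : pt 0 = 0)
    (p1 : ∀ z ∉ L.lattice, ∃ h, pt z = .some (L.weierstrassP z / 1 ^ 2) (L.derivWeierstrassP z / (2 * 1 ^ 3)) h) :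
    Function.Surjective pt := by
  intro R
  rcases R with _ | ⟨x, y, hxy⟩
  · exact ⟨0, h0⟩
  · obtain ⟨z, hz, hz1⟩ := H55K.CC.wp_surj L x
    have hE := (Affine.equation_iff _ _).1 hxy.1
    simp only [WAB] at hE
    have hY := L.derivWeierstrassP_sq z hz
    rw [hz1, g2, g3] at hY
    have h2 : (L.derivWeierstrassP z / 2 - y) * (L.derivWeierstrassP z / 2 + y) = 0 := by
      linear_combination (1 / 4 : ℂ) * hY - hE
    rcases mul_eq_zero.1 h2 with h3 | h3
    · obtain ⟨hns, e⟩ := p1 z hz
      refine ⟨z, ?_⟩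
      rw [e, Affine.Point.some.injEq]
      constructor
      · rw [hz1]
        ring
      · linear_combination h3
    · have hz' : -z ∉ L.lattice := fun h0 => hz (by simpa using L.lattice.neg_mem h0)
      obtain ⟨hns, e⟩ := p1 (-z) hz'
      refine ⟨-z, ?_⟩
      rw [e, Affine.Point.some.injEq]
      constructor
      · rw [L.weierstrassP_neg, hz1]
        ring
      · rw [L.derivWeierstrassP_neg]
        linear_combination -h3

open Classical in
/-- Chunk V3 (M). L' from iso_L. pt, pt' from H35P.pt_exists for L and L' with Om = 1 (g₂ = -4 A * 1^4). Claim: Φ (pt z) = pt' z for all z. z in L: both are 0. z in L' but not in L: pt z = some (wp z) .. with wp z = e (IsoL.pole), so Φ (pt z) = 0 = pt' z. z not in L' : wp z ≠ e (IsoL.out), and the coordinates agree (IsoL.x, IsoL.y; y = wp'/2): two nonzero points with equal coordinates.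
pt is surjective (H55K.CC.wp_surj, as in H55K/C12.lean): P = pt z, Q = pt w; Φ (P + Q) = pt' (z + w). -/
theorem v_add_C {A B A' B' e t u : ℂ} (h : VI A B A' B' e t u) (L : PeriodPair) (g2 : L.g₂ = -4 * A) (g3 : L.g₃ = -4 * B)
    {Φ : (WAB A B).toAffine.Point → (WAB A' B').toAffine.Point} (hΦ : IsV A B A' B' e t u Φ) (P Q : (WAB A B).toAffine.Point) :
    Φ (P + Q) = Φ P + Φ Q := by
  obtain ⟨L', hL⟩ := iso_L L h g2 g3
  obtain ⟨pt, p0, p1⟩ := H35P.pt_exists L A B 1 one_ne_zero (by rw [g2]; ring) (by rw [g3]; ring) h.disc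
  obtain ⟨pt', p0', p1'⟩ := H35P.pt_exists L' A' B' 1 one_ne_zero (by rw [hL.g2]; ring) (by rw [hL.g3]; ring) h.disc'
  have hkey : ∀ z, Φ (pt z) = pt' z := by
    intro z
    by_cases hz : z ∈ L.lattice
    · rw [p0 z hz, hΦ.zero, p0' z (hL.le z hz)]
    · obtain ⟨hns, e1⟩ := p1 z hz
      have hne : pt z ≠ 0 := by
        rw [e1]
        exact Affine.Point.some_ne_zero _
      have hxc : xc (pt z) = L.weierstrassP z := by
        rw [e1]
        show L.weierstrassP z / 1 ^ 2 = _
        ring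
      have hyc : yc (pt z) = L.derivWeierstrassP z / 2 := by
        rw [e1]
        show L.derivWeierstrassP z / (2 * 1 ^ 3) = _
        ring
      by_cases hz' : z ∈ L'.lattice
      · rw [p0' z hz', hΦ.ker _ hne (hxc.trans ((hL.pole z hz').resolve_left hz))]
      · obtain ⟨hns', e1'⟩ := p1' z hz'
        have hxe : xc (pt z) ≠ e := by
          rw [hxc]
          exact hL.out z hz'
        refine H55K.CC.c14_ext (hΦ.ne _ hne hxe) ?_ ?_ ?_
        · rw [e1']
          exact Affine.Point.some_ne_zero _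
        · rw [hΦ.x _ hne hxe, hxc, ← hL.x z hz', e1']
          show _ = L'.weierstrassP z / 1 ^ 2
          ring
        · rw [hΦ.y _ hne hxe, hxc, hyc, e1']
          show _ = L'.derivWeierstrassP z / (2 * 1 ^ 3)
          rw [hL.y z hz']
          ring
  have hs := v3_surj L g2 g3 (map_zero pt) p1
  obtain ⟨z, rfl⟩ := hs P
  obtain ⟨w, rfl⟩ := hs Q
  rw [← map_add, hkey, hkey, hkey, map_add]

end H28I
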