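import Mathlib
import Pool.Agent.Lib.H28I.V2
import Pool.Agent.Lib.H28I.V3

/-! # H28I, part V: additivity over a field with a complex embedding -/

open NumberField IsDedekindDomain WeierstrassCurve

namespace H28I

open H55P (IQ embF eF LF Per IsHecke Pt ac Inert Dec Nm)
open H35P (WAB Ker tt GoodW IntW)
open H55K (xc yc)

variable {k k' : Type} [Field k] [Field k'] [DecidableEq k] [DecidableEq k']

theorem v4_key [Algebra k k'] (E E₁ : WeierstrassCurve k) (E' : WeierstrassCurve k') (h1 : E.baseChange k = E₁)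
    (h2 : E.baseChange k' = E') : ∃ J : E₁.toAffine.Point →+ E'.toAffine.Point,
    Function.Injective J ∧ ∀ P, P ≠ 0 → J P ≠ 0 ∧ xc (J P) = algebraMap k k' (xc P) ∧ yc (J P) = algebraMap k k' (yc P) := by
  subst h1 h2
  refine ⟨Affine.Point.map (W' := E.toAffine) (Algebra.ofId k k'), Affine.Point.map_injective (Algebra.ofId k k'), ?_⟩
  intro P hP
  rcases P with _ | ⟨x, y, hxy⟩
  · exact absurd rfl hP
  · rw [Affine.Point.map_some]
    exact ⟨Affine.Point.some_ne_zero _, rfl, rfl⟩

/-- Chunk V4 (M). Port of c11_key (H55K/C11.lean): give k' the algebra structure j.toAlgebra; (WAB A B).baseChange k' = WAB (j A) (j B) (ext, map_zero) and (WAB A B).baseChange k = WAB A B (map_id). Or, simpler: Affine.Point.map (W' := (WAB A B).toAffine) with the base field k, (WAB A B)⁄k = WAB A B by WeierstrassCurve.map_id; prove the statement for all E, E' with (WAB A B)⁄k = E,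
(WAB A B)⁄k' = E' by rintro _ _ rfl rfl. -/
theorem exists_jj (j : k →+* k') (A B : k) : ∃ J : (WAB A B).toAffine.Point →+ (WAB (j A) (j B)).toAffine.Point,
    Function.Injective J ∧ ∀ P, P ≠ 0 → J P ≠ 0 ∧ xc (J P) = j (xc P) ∧ yc (J P) = j (yc P) := by
  letI : Algebra k k' := j.toAlgebra
  refine v4_key (WAB A B) (WAB A B) (WAB (j A) (j B)) ?_ ?_
  · exact WeierstrassCurve.map_id _
  · ext
    · exact map_zero (algebraMap k k')
    · exact map_zero (algebraMap k k')
    · exact map_zero (algebraMap k k')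
    · rfl
    · rfl

/-- Chunk V4 (S). Apply j to the equations; j is injective. -/
theorem vi_map (j : k →+* k') {A B A' B' e t u : k} (h : VI A B A' B' e t u) :
    VI (j A) (j B) (j A') (j B') (j e) (j t) (j u) := by
  obtain ⟨h1, h2, h3, h4, h5⟩ := h
  refine ⟨?_, ?_, ?_, ?_, ?_⟩
  · have e : 4 * j A ^ 3 + 27 * j B ^ 2 = j (4 * A ^ 3 + 27 * B ^ 2) := by
      simp only [map_add, map_mul, map_pow, map_ofNat]
    rw [e]
    exact (map_ne_zero j).2 h1
  · have e : 4 * j A' ^ 3 + 27 * j B' ^ 2 = j (4 * A' ^ 3 + 27 * B' ^ 2) := by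
      simp only [map_add, map_mul, map_pow, map_ofNat]
    rw [e]
    exact (map_ne_zero j).2 h2
  · rw [h3]
    simp only [map_sub, map_mul, map_ofNat]
  · rw [h4]
    simp only [map_sub, map_mul, map_add, map_ofNat]
  · rcases h5 with ⟨a1, a2, a3⟩ | ⟨a1, a2, a3⟩
    · left
      refine ⟨by rw [a1, map_zero], ?_, ?_⟩
      · have := congrArg j a2
        simpa only [map_add, map_mul, map_pow, map_zero] using this
      · rw [a3]
        simp only [map_add, map_mul, map_pow, map_ofNat]
    · right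
      refine ⟨?_, ?_, ?_⟩
      · rw [a1]
        simp only [map_add, map_mul, map_pow, map_ofNat]
      · rw [a2]
        simp only [map_add, map_mul, map_pow, map_ofNat]
      · have := congrArg j a3
        simpa only [map_add, map_sub, map_mul, map_pow, map_ofNat, map_zero] using this

/-- Chunk V4 (M). J, J' from exists_jj for (A, B) and (A', B'), Ψ from exists_v for the images (vi_map). J' (Φ P) = Ψ (J P) for all P: P = 0; xc P = e: both 0; xc P ≠ e: xc (J P) = j (xc P) ≠ j e, the coordinates agree (map_div₀ and so on). Ψ is additive (v_add_C), J, J' are additive, J' is injective. -/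
theorem v_add [CharZero k] (j : k →+* ℂ) {A B A' B' e t u : k} (h : VI A B A' B' e t u) (L : PeriodPair) (g2 : L.g₂ = -4 * j A)
    (g3 : L.g₃ = -4 * j B) {Φ : (WAB A B).toAffine.Point → (WAB A' B').toAffine.Point} (hΦ : IsV A B A' B' e t u Φ)
    (P Q : (WAB A B).toAffine.Point) : Φ (P + Q) = Φ P + Φ Q := by
  obtain ⟨J, hJ, hJ1⟩ := exists_jj (k' := ℂ) j A B
  obtain ⟨J', hJ', hJ1'⟩ := exists_jj (k' := ℂ) j A' B'
  have hv := vi_map j h
  obtain ⟨Ψ, hΨ⟩ := exists_v hv
  have hkey : ∀ P, J' (Φ P) = Ψ (J P) := by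
    intro P
    by_cases hP : P = 0
    · rw [hP, hΦ.zero, map_zero, map_zero, hΨ.zero]
    · obtain ⟨a1, a2, a3⟩ := hJ1 P hP
      by_cases hx : xc P = e
      · rw [hΦ.ker P hP hx, map_zero, hΨ.ker _ a1 (by rw [a2, hx])]
      · have hx' : xc (J P) ≠ j e := by
          rw [a2]
          exact fun h0 => hx (j.injective h0)
        obtain ⟨b1, b2, b3⟩ := hJ1' _ (hΦ.ne P hP hx)
        refine H55K.CC.c14_ext b1 (hΨ.ne _ a1 hx') ?_ ?_
        · rw [b2, hΦ.x P hP hx, hΨ.x _ a1 hx', a2]
          unfold vx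
          simp only [map_add, map_div₀, map_sub, map_pow]
        · rw [b3, hΦ.y P hP hx, hΨ.y _ a1 hx', a2, a3]
          unfold vd
          simp only [map_sub, map_mul, map_div₀, map_pow, map_one, map_ofNat]
  apply hJ'
  rw [hkey, map_add, map_add, hkey, hkey]
  exact v_add_C hv L g2 g3 hΨ _ _

end H28I
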