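import Mathlib
import Pool.Agent.Lib.H28I.D

/-! # H28I, part V: the points of the kernel -/

open NumberField IsDedekindDomain WeierstrassCurve

namespace H28I

open H55P (IQ embF eF LF Per IsHecke Pt ac Inert Dec Nm)
open H35P (WAB Ker tt GoodW IntW)
open H55K (xc yc)

variable {k : Type} [Field k]

/-- Chunk V0 (S). t = 3 e^2 + A, e^3 + A e + B = 0: if t = 0 then A = -3 e^2, B = 2 e^3 and 4 A^3 + 27 B^2 = 0. -/
theorem t_ne {A B A' B' e t u : k} (h : VI A B A' B' e t u) (hu : u = 0) (he : e ^ 3 + A * e + B = 0)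
    (ht : t = 3 * e ^ 2 + A) : t ≠ 0 := by
  intro h0
  apply h.disc
  obtain rfl : A = -3 * e ^ 2 := by linear_combination h0 - ht
  obtain rfl : B = 2 * e ^ 3 := by linear_combination he
  ring

/-- Chunk V0 (S). If e^3 + A e + B = 0 then B = - e^3 - A e and 3 e^4 + 6 A e^2 + 12 B e - A^2 = - (3 e^2 + A)^2, so A = -3 e^2, B = 2 e^3 and 4 A^3 + 27 B^2 = 0. -/
theorem f_ne {A B e : k} (hd : 4 * A ^ 3 + 27 * B ^ 2 ≠ 0) (h3 : 3 * e ^ 4 + 6 * A * e ^ 2 + 12 * B * e - A ^ 2 = 0) :
    e ^ 3 + A * e + B ≠ 0 := by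
  intro he
  apply hd
  have h1 : (3 * e ^ 2 + A) ^ 2 = 0 := by linear_combination 12 * e * he - h3
  have h2 : 3 * e ^ 2 + A = 0 := pow_eq_zero_iff (two_ne_zero) |>.1 h1
  obtain rfl : A = -3 * e ^ 2 := by linear_combination h2
  obtain rfl : B = 2 * e ^ 3 := by linear_combination he
  ring

theorem v0_eq {A B x y : k} (h : (WAB A B).toAffine.Nonsingular x y) : y ^ 2 = x ^ 3 + A * x + B := by
  have h1 := (Affine.equation_iff x y).1 h.1
  simp only [WAB] at h1
  linear_combination h1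

theorem v0_negY (A B x y : k) : (WAB A B).toAffine.negY x y = -y := by
  unfold Affine.negY WAB
  ring

theorem v0_ext {W : WeierstrassCurve k} {P Q : W.toAffine.Point} (hP : P ≠ 0) (hQ : Q ≠ 0)
    (hx : xc P = xc Q) (hy : yc P = yc Q) : P = Q := by
  rcases P with _ | ⟨x, y, h⟩
  · exact absurd rfl hP
  rcases Q with _ | ⟨x', y', h'⟩
  · exact absurd rfl hQ
  have h1 : x = x' := hx
  have h2 : y = y' := hy
  subst h1 h2
  rfl

variable [DecidableEq k] [CharZero k]

/-- Chunk V0 (S/M). y^2 = 0 by the equation, so P = -P (Affine.Point.neg_some, negY = -y for the short equation). -/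
theorem two_pt {A B e : k} (he : e ^ 3 + A * e + B = 0) {P : (WAB A B).toAffine.Point} (h0 : P ≠ 0) (hx : xc P = e) :
    (2 : ℕ) • P = 0 := by
  rcases P with _ | ⟨x, y, hP⟩
  · exact absurd rfl h0
  have hxe : x = e := hx
  subst hxe
  have h1 := v0_eq hP
  rw [he] at h1
  have hy : y = 0 := pow_eq_zero_iff (two_ne_zero) |>.1 h1
  rw [two_nsmul]
  refine Affine.Point.add_self_of_Y_eq ?_
  rw [v0_negY, hy, neg_zero]

/-- Chunk V0 (M). P = some e y, y^2 = e^3 + A e + B ≠ 0 (f_ne). P + P = some x' .. with x' = ((3 e^2 + A)/(2 y))^2 - 2 e (Affine.Point.add_self_of_Y_ne, or add_some with slope_of_Y_ne; y ≠ negY = -y), and x' = e because (3 e^2 + A)^2 - 12 e y^2 = -(3 e^4 + 6 A e^2 + 12 B e - A^2) = 0.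
Two points with the same x-coordinate are equal or opposite: P + P = P gives P = 0, impossible; so P + P = -P. -/
theorem three_pt {A B e : k} (hd : 4 * A ^ 3 + 27 * B ^ 2 ≠ 0) (h3 : 3 * e ^ 4 + 6 * A * e ^ 2 + 12 * B * e - A ^ 2 = 0)
    {P : (WAB A B).toAffine.Point} (h0 : P ≠ 0) (hx : xc P = e) : (3 : ℕ) • P = 0 := by
  rcases P with _ | ⟨x, y, hP⟩
  · exact absurd rfl h0
  have hxe : x = e := hx
  subst hxe
  have h1 := v0_eq hP
  have hy : y ≠ 0 := by
    rintro rfl
    apply f_ne hd h3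
    rw [← h1]
    ring
  have hyn : y ≠ (WAB A B).toAffine.negY x y := by
    rw [v0_negY]
    intro h
    apply hy
    have h2 : 2 * y = 0 := by linear_combination h
    exact (mul_eq_zero.1 h2).resolve_left two_ne_zero
  have hadd := Affine.Point.add_self_of_Y_ne (h₁ := hP) hyn
  have hsl : (WAB A B).toAffine.slope x x y y = (3 * x ^ 2 + A) / (2 * y) := by
    rw [Affine.slope_of_Y_ne rfl hyn, v0_negY]
    have e1 : y - -y = 2 * y := by ring
    rw [e1]
    simp only [WAB]
    congr 1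
    ring
  have hX : (WAB A B).toAffine.addX x x ((WAB A B).toAffine.slope x x y y) = x := by
    rw [hsl]
    unfold Affine.addX
    simp only [WAB]
    have e2 : ((3 * x ^ 2 + A) / (2 * y)) ^ 2 = 3 * x := by
      rw [div_pow, div_eq_iff (pow_ne_zero 2 (mul_ne_zero two_ne_zero hy))]
      linear_combination -h3 - 12 * x * h1
    rw [e2]
    ring
  have hYY : (WAB A B).toAffine.addY x x y ((WAB A B).toAffine.slope x x y y) = -y := by
    unfold Affine.addY Affine.negAddY
    rw [hX, v0_negY]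
    ring
  have hPP : Affine.Point.some x y hP + Affine.Point.some x y hP = -Affine.Point.some x y hP := by
    rw [hadd, Affine.Point.neg_some]
    refine v0_ext (by simp) (by simp) hX ?_
    show (WAB A B).toAffine.addY x x y ((WAB A B).toAffine.slope x x y y) = (WAB A B).toAffine.negY x y
    rw [hYY, v0_negY]
  rw [succ_nsmul, two_nsmul, hPP, neg_add_cancel]

/-- Chunk V0 (S). two_pt or three_pt. -/
theorem six_pt {A B A' B' e t u : k} (h : VI A B A' B' e t u) {P : (WAB A B).toAffine.Point} (h0 : P ≠ 0) (hx : xc P = e) :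
    (6 : ℕ) • P = 0 := by
  rcases h.cs with ⟨-, he, -⟩ | ⟨-, -, h3⟩
  · have h1 := two_pt he h0 hx
    have h2 : (6 : ℕ) • P = (3 : ℕ) • ((2 : ℕ) • P) := by rw [← mul_nsmul']
    rw [h2, h1, nsmul_zero]
  · have h1 := three_pt h.disc h3 h0 hx
    have h2 : (6 : ℕ) • P = (2 : ℕ) • ((3 : ℕ) • P) := by rw [← mul_nsmul']
    rw [h2, h1, nsmul_zero]

end H28I
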