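import Mathlib
import Pool.Agent.Lib.H28I.V2
import Pool.Agent.Lib.H28I.V0

/-! # H28I, part V: surjectivity -/

open NumberField IsDedekindDomain WeierstrassCurve

namespace H28I

open H55P (IQ embF eF LF Per IsHecke Pt ac Inert Dec Nm)
open H35P (WAB Ker tt GoodW IntW)
open H55K (xc yc)

variable {k : Type} [Field k] [CharZero k] [IsAlgClosed k]

/-- Chunk V5 (S/M). First case of h.cs: u = 0, t ≠ 0 (t_ne): the monic polynomial x (x - e) + t - X (x - e) has a root x (IsAlgClosed.exists_root, or the quadratic formula with a square root), x ≠ e because its value at e is t; vx e t 0 x = x + t/(x - e) = X. Second case: u = 4 (e^3 + A e + B) ≠ 0 (f_ne): a root x of the monic cubic x (x - e)^2 + t (x - e) + u - X (x - e)^2, x ≠ e. -/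
theorem vx_surj {A B A' B' e t u : k} (h : VI A B A' B' e t u) (X : k) : ∃ x, x ≠ e ∧ vx e t u x = X := by
  rcases h.cs with ⟨hu, he, ht⟩ | ⟨ht, hu, h3⟩
  · have ht0 := t_ne h hu he ht
    obtain ⟨s, hs⟩ := IsAlgClosed.exists_pow_nat_eq ((e - X) ^ 2 - 4 * t) (n := 2) (by norm_num)
    obtain ⟨z, hz⟩ : ∃ z, z = (-(e - X) + s) / 2 := ⟨_, rfl⟩
    have hz2 : z ^ 2 + (e - X) * z + t = 0 := by
      rw [hz]
      linear_combination (1 / 4 : k) * hs
    have hz0 : z ≠ 0 := by
      rintro h0
      rw [h0] at hz2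
      apply ht0
      linear_combination hz2
    refine ⟨z + e, ?_, ?_⟩
    · intro h1
      apply hz0
      linear_combination h1
    · unfold vx
      rw [add_sub_cancel_right, hu, zero_div, add_zero]
      field_simp
      linear_combination hz2
  · have hu0 : u ≠ 0 := by
      rw [hu]
      exact mul_ne_zero (by norm_num) (f_ne h.disc h3)
    obtain ⟨z, hz⟩ := IsAlgClosed.exists_root (Polynomial.C 1 * Polynomial.X ^ 3 + Polynomial.C (e - X) * Polynomial.X ^ 2 +
      Polynomial.C t * Polynomial.X + Polynomial.C u : Polynomial k) (by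
        rw [Polynomial.degree_cubic one_ne_zero]
        norm_num)
    have hz3 : z ^ 3 + (e - X) * z ^ 2 + t * z + u = 0 := by
      have h1 := hz
      rw [Polynomial.IsRoot.def] at h1
      simp only [Polynomial.eval_add, Polynomial.eval_mul, Polynomial.eval_C, Polynomial.eval_pow, Polynomial.eval_X,
        one_mul] at h1
      exact h1
    have hz0 : z ≠ 0 := by
      rintro h0
      rw [h0] at hz3
      apply hu0
      linear_combination hz3
    refine ⟨z + e, ?_, ?_⟩
    · intro h1
      apply hz0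
      linear_combination h1
    · unfold vx
      rw [add_sub_cancel_right]
      field_simp
      linear_combination hz3

/-- Chunk V5 (M). Q = 0: P = 0 (hΦ.zero). Q = some X Y: x from vx_surj, y with y^2 = x^3 + A x + B (IsAlgClosed.exists_pow_nat_eq); P = some x y (nonsingular: discriminant). vi_id: (vd x y)^2 = X^3 + A' X + B' = Y^2, so Y = vd x y or Y = - vd x y; in the second case take -y. Equality of points by coordinates (hΦ.x, hΦ.y, hΦ.ne). -/
theorem v_surj {A B A' B' e t u : k} (h : VI A B A' B' e t u) {Φ : (WAB A B).toAffine.Point → (WAB A' B').toAffine.Point}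
    (hΦ : IsV A B A' B' e t u Φ) : Function.Surjective Φ := by
  intro Q
  by_cases hQ : Q = 0
  · exact ⟨0, by rw [hΦ.zero, hQ]⟩
  obtain ⟨x, hx, hX⟩ := vx_surj h (xc Q)
  obtain ⟨y, hy⟩ := IsAlgClosed.exists_pow_nat_eq (x ^ 3 + A * x + B) (n := 2) (by norm_num)
  have hsq : (vd e t u x * y) ^ 2 = yc Q ^ 2 := by
    rw [mul_pow, hy, ← vi_id h hx, hX, v2_pt hQ]
  have key : ∀ y' : k, y' ^ 2 = x ^ 3 + A * x + B → vd e t u x * y' = yc Q → ∃ P, Φ P = Q := by
    intro y' hy' hY
    have hP : (Affine.Point.some x y' (v2_ns h.disc hy') : (WAB A B).toAffine.Point) ≠ 0 :=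
      Affine.Point.some_ne_zero _
    refine ⟨Affine.Point.some x y' (v2_ns h.disc hy'), v2_ext (hΦ.ne _ hP hx) hQ ?_ ?_⟩
    · rw [hΦ.x _ hP hx]
      exact hX
    · rw [hΦ.y _ hP hx]
      exact hY
  rcases sq_eq_sq_iff_eq_or_eq_neg.1 hsq with h1 | h1
  · exact key y hy h1
  · refine key (-y) (by rw [neg_sq, hy]) ?_
    rw [mul_neg, h1, neg_neg]

end H28I
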