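import Mathlib
import Pool.Agent.Lib.H28I.V4
import Pool.Agent.Lib.H28I.V5
import Pool.Agent.Lib.H55K.C27
import Pool.Agent.Lib.H55K.M1B

/-! # H28I, part V: the isogeny over Ω -/

open NumberField IsDedekindDomain WeierstrassCurve

namespace H28I

open H55P (IQ embF eF LF Per IsHecke Pt ac Inert Dec Nm)
open H35P (WAB Ker tt GoodW IntW)
open H55K (xc yc)
open H55K.MG (VC Crd)

theorem v6_delta {k : Type} [Field k] (A B : k) : (WAB A B).Δ = -16 * (4 * A ^ 3 + 27 * B ^ 2) := by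
  simp only [WAB, WeierstrassCurve.Δ, WeierstrassCurve.b₂, WeierstrassCurve.b₄, WeierstrassCurve.b₆, WeierstrassCurve.b₈]
  ring

/-- The properties of the isogeny, as a homomorphism, for equations E, E'. -/
structure IsH {k : Type} [Field k] [DecidableEq k] {E E' : WeierstrassCurve k} (e t u : k) (Φ : E.toAffine.Point →+ E'.toAffine.Point) : Prop where
  ker : ∀ P, P ≠ 0 → xc P = e → Φ P = 0
  ne : ∀ P, P ≠ 0 → xc P ≠ e → Φ P ≠ 0
  x : ∀ P, P ≠ 0 → xc P ≠ e → xc (Φ P) = vx e t u (xc P)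
  y : ∀ P, P ≠ 0 → xc P ≠ e → yc (Φ P) = vd e t u (xc P) * yc P
  surj : Function.Surjective Φ
  six : ∀ P, Φ P = 0 → (6 : ℕ) • P = 0

/-- Chunk V6 (S/M). subst E, E'; Φ from exists_v, additive by v_add (AddMonoidHom.mk'), v_surj, six_pt (Φ P = 0 and P ≠ 0: xc P = e by hΦ.ne). -/
theorem exists_h {k : Type} [Field k] [DecidableEq k] [CharZero k] [IsAlgClosed k] (j : k →+* ℂ) {A B A' B' e t u : k}
    (h : VI A B A' B' e t u) (L : PeriodPair) (g2 : L.g₂ = -4 * j A) (g3 : L.g₃ = -4 * j B) (E E' : WeierstrassCurve k)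
    (hE : E = WAB A B) (hE' : E' = WAB A' B') : ∃ Φ : E.toAffine.Point →+ E'.toAffine.Point, IsH e t u Φ := by
  subst hE hE'
  obtain ⟨Φ, hΦ⟩ := exists_v h
  have hadd := v_add j h L g2 g3 hΦ
  refine ⟨AddMonoidHom.mk' Φ hadd, hΦ.ker, hΦ.ne, hΦ.x, hΦ.y, v_surj h hΦ, ?_⟩
  intro P hP
  have hP' : Φ P = 0 := hP
  by_cases h0 : P = 0
  · rw [h0, nsmul_zero]
  · refine six_pt h h0 ?_
    by_contra hx
    exact hΦ.ne P h0 hx hP'

variable {K : Type} [Field K] {Ω : Type} [Field Ω] [DecidableEq Ω] [Algebra K Ω]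

/-- Chunk V6 (M). The equations A' = lam^4 A'', B' = lam^6 B'' over Ω: exists_h for the images of A, B, lam^4 A'', lam^6 B'', e, t, u in Ω (vi_map; (WAB A B)⁄Ω = WAB (image) (image): ext), E = (WAB A B)⁄Ω, E' = (WAB (lam^4 A'') (lam^6 B''))⁄Ω; then Θ from H55K.MG.vc_iso for VC E' ((WAB A'' B'')⁄Ω) lam 0 0 0 (both discriminants are not 0): xc P = lam^2 xc (Θ P), yc P = lam^3 yc (Θ P).
Φ = Θ ∘ Φ₀. gal: P = 0 clear; xc P = e: xc (ac s P) = s (xc P) = e (H55K.MG.ac_crd or CC.c27_xc, CC.c27_ne), both sides are 0; otherwise compare the coordinates of the two nonzero points (lam^2 x and lam^3 y; s fixes the image of K). -/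
theorem exists_W [CharZero Ω] [IsAlgClosed Ω] (j : Ω →+* ℂ) (L : PeriodPair) {A B A'' B'' e t u lam : K} (hl : lam ≠ 0)
    (h : VI A B (lam ^ 4 * A'') (lam ^ 6 * B'') e t u) (g2 : L.g₂ = -4 * j (algebraMap K Ω A))
    (g3 : L.g₃ = -4 * j (algebraMap K Ω B)) : ∃ Φ : Pt (WAB A B) Ω →+ Pt (WAB A'' B'') Ω, IsW A B A'' B'' e t u lam Φ := by
  classical
  set a : K →+* Ω := algebraMap K Ω with ha
  have hv := vi_map a h
  have hla : a lam ≠ 0 := (map_ne_zero a).2 hl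
  have hE : (WAB A B)⁄Ω = WAB (a A) (a B) := by
    ext
    · exact map_zero a
    · exact map_zero a
    · exact map_zero a
    · rfl
    · rfl
  obtain ⟨Φ₀, h₀⟩ := exists_h j hv L g2 g3 ((WAB A B)⁄Ω) (WAB (a (lam ^ 4 * A'')) (a (lam ^ 6 * B''))) hE rfl
  -- the scaling
  have hVC : VC (WAB (a (lam ^ 4 * A'')) (a (lam ^ 6 * B''))) ((WAB A'' B'')⁄Ω) (a lam) 0 0 0 := by
    refine ⟨hla, ?_, ?_, ?_, ?_, ?_⟩
    · show a lam * a 0 = 0 + 2 * 0
      rw [map_zero]; ring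
    · show a lam ^ 2 * a 0 = 0 - 0 * 0 + 3 * 0 - 0 ^ 2
      rw [map_zero]; ring
    · show a lam ^ 3 * a 0 = 0 + 0 * 0 + 2 * 0
      rw [map_zero]; ring
    · show a lam ^ 4 * a A'' = a (lam ^ 4 * A'') - 0 * 0 + 2 * 0 * 0 - (0 + 0 * 0) * 0 + 3 * 0 ^ 2 - 2 * 0 * 0
      rw [map_mul, map_pow]; ring
    · show a lam ^ 6 * a B'' = a (lam ^ 6 * B'') + 0 * a (lam ^ 4 * A'') + 0 ^ 2 * 0 + 0 ^ 3 - 0 * 0 - 0 ^ 2 - 0 * 0 * 0
      rw [map_mul, map_pow]; ring
  have hd1 : (WAB (a (lam ^ 4 * A'')) (a (lam ^ 6 * B''))).Δ ≠ 0 := by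
    rw [v6_delta]
    exact mul_ne_zero (by norm_num) hv.disc'
  have hd2 : ((WAB A'' B'')⁄Ω).Δ ≠ 0 := by
    have e1 : ((WAB A'' B'')⁄Ω).Δ = a (WAB A'' B'').Δ := (WAB A'' B'').map_Δ _
    rw [e1]
    refine (map_ne_zero a).2 ?_
    rw [v6_delta]
    have h16 : (-16 : K) ≠ 0 := by
      intro h0
      have h1 := congrArg a h0
      rw [map_neg, map_ofNat, map_zero] at h1
      norm_num at h1
    refine mul_ne_zero h16 fun h0 => h.disc' ?_
    linear_combination lam ^ 12 * h0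
  obtain ⟨Θ, hΘ⟩ := H55K.MG.vc_iso hVC hd1 hd2
  set Φ : Pt (WAB A B) Ω →+ Pt (WAB A'' B'') Ω := Θ.toAddMonoidHom.comp Φ₀ with hΦ
  have hΦ1 : ∀ P, Φ P = Θ (Φ₀ P) := fun P => rfl
  have hne : ∀ P, P ≠ 0 → xc P ≠ a e → Φ P ≠ 0 := by
    intro P hP hx
    rw [hΦ1]
    exact (hΘ _ (h₀.ne P hP hx)).1
  have hx : ∀ P, P ≠ 0 → xc P ≠ a e → a lam ^ 2 * xc (Φ P) = vx (a e) (a t) (a u) (xc P) := by
    intro P hP hx
    rw [hΦ1, ← h₀.x P hP hx, (hΘ _ (h₀.ne P hP hx)).2.1, add_zero]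
  have hy : ∀ P, P ≠ 0 → xc P ≠ a e → a lam ^ 3 * yc (Φ P) = vd (a e) (a t) (a u) (xc P) * yc P := by
    intro P hP hx
    rw [hΦ1, ← h₀.y P hP hx, (hΘ _ (h₀.ne P hP hx)).2.2]
    ring
  have hker : ∀ P, P ≠ 0 → xc P = a e → Φ P = 0 := by
    intro P hP hx
    rw [hΦ1, h₀.ker P hP hx, map_zero]
  refine ⟨Φ, hker, hne, hx, ?_, ?_, ?_⟩
  · intro Q
    obtain ⟨P, hP⟩ := h₀.surj (Θ.symm Q)
    refine ⟨P, ?_⟩
    rw [hΦ1, hP, AddEquiv.apply_symm_apply]
  · intro P hP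
    apply h₀.six
    rw [hΦ1] at hP
    exact (map_eq_zero_iff Θ Θ.injective).1 hP
  · intro s P
    by_cases hP : P = 0
    · rw [hP, map_zero, map_zero, map_zero]
    · have hsP := H55K.CC.c27_ne (WAB A B) s hP
      have hsx := H55K.CC.c27_xc (WAB A B) s P
      have hsy := H55K.CC.c27_yc (WAB A B) s P
      by_cases hxe : xc P = a e
      · rw [hker P hP hxe, map_zero]
        apply hker _ hsP
        rw [hsx, hxe]
        exact s.commutes e
      · have hxe' : xc (ac (WAB A B) s P) ≠ a e := by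
          rw [hsx]
          intro h0
          apply hxe
          apply s.injective
          rw [h0]
          exact (s.commutes e).symm
        have b1 := hx P hP hxe
        have b2 := hx _ hsP hxe'
        have b3 := hy P hP hxe
        have b4 := hy _ hsP hxe'
        have c1 := congrArg s b1
        have c2 := congrArg s b3
        have sc : ∀ z : K, s (a z) = a z := fun z => s.commutes z
        have hlz : s (a lam) = a lam := sc lam
        refine H55K.CC.c14_ext (hne _ hsP hxe') (H55K.CC.c27_ne (WAB A'' B'') s (hne P hP hxe)) ?_ ?_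
        · rw [H55K.CC.c27_xc]
          apply mul_left_cancel₀ (pow_ne_zero 2 hla)
          rw [b2, hsx]
          rw [map_mul, map_pow, hlz] at c1
          rw [c1]
          unfold vx
          simp only [map_add, map_div₀, map_sub, map_pow, sc]
        · rw [H55K.CC.c27_yc]
          apply mul_left_cancel₀ (pow_ne_zero 3 hla)
          rw [b4, hsx, hsy]
          rw [map_mul, map_pow, hlz] at c2
          rw [c2]
          unfold vd
          simp only [map_mul, map_div₀, map_sub, map_pow, map_one, map_ofNat, sc]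

end H28I
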