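import Mathlib
import Pool.Agent.Lib.H13D.B3
import Pool.Agent.Lib.H28I.C1
import Pool.Agent.Lib.H28I.V6
import Pool.Agent.Lib.H55K.QD

/-! # H28I, part K: the isogeny over a number field -/

open NumberField IsDedekindDomain WeierstrassCurve

namespace H28I

open H55P (IQ embF eF LF Per IsHecke Pt ac Inert Dec Nm)
open H35P (WAB Ker tt GoodW IntW)
open H55K (xc yc)

theorem k1_cur (W : WeierstrassCurve ℤ) (K : Type) [Field K] [NumberField K] : (W⁄(𝓞 K))⁄K = W⁄K := by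
  show (W.map (algebraMap ℤ (𝓞 K))).map (algebraMap (𝓞 K) K) = W.map (algebraMap ℤ K)
  rw [WeierstrassCurve.map_map]
  congr 1

/-- Chunk K1 (S). H13D.exists_model (B3.lean) for K instead of F, W₀ = W⁄(𝓞 K), (W⁄(𝓞 K))⁄K = W⁄K (see H55K.TQ.cur_eq in FB3A.lean); the c₄, c₆ of W⁄(𝓞 K) are the images of integers. -/
theorem model_K (W : WeierstrassCurve ℤ) (hΔ : W.Δ ≠ 0) (K : Type) [Field K] [NumberField K] (Ω : Type) [Field Ω] [DecidableEq Ω]
    [Algebra K Ω] : ∃ Θ : Pt (WAB (sA W K) (sB W K)) Ω ≃+ Pt (W⁄K) Ω,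
      ∀ (s : Ω ≃ₐ[K] Ω) (P : Pt (WAB (sA W K) (sB W K)) Ω), Θ (ac (WAB (sA W K) (sB W K)) s P) = ac (W⁄K) s (Θ P) := by
  have hA : sA W K = -(algebraMap (𝓞 K) K (W⁄(𝓞 K)).c₄) / 48 := by
    have e1 : (W⁄(𝓞 K)).c₄ = algebraMap ℤ (𝓞 K) W.c₄ := W.map_c₄ _
    rw [e1, sA]
    simp
  have hB : sB W K = -(algebraMap (𝓞 K) K (W⁄(𝓞 K)).c₆) / 864 := by
    have e1 : (W⁄(𝓞 K)).c₆ = algebraMap ℤ (𝓞 K) W.c₆ := W.map_c₆ _
    rw [e1, sB]
    simp
  have hd : (W⁄(𝓞 K)).Δ ≠ 0 := by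
    have e1 : (W⁄(𝓞 K)).Δ = algebraMap ℤ (𝓞 K) W.Δ := W.map_Δ _
    rw [e1]
    simpa using hΔ
  have h := H13D.exists_model (Ω := Ω) (W⁄(𝓞 K)) hA hB hd
  rw [k1_cur W K] at h
  obtain ⟨Θ, -, hΘ⟩ := h
  exact ⟨Θ, hΘ⟩

/-- Chunk K1 (S). Apply algebraMap ℚ K (vi_map in V4.lean); the images of sA W ℚ, sB W ℚ are sA W K, sB W K (map_intCast, map_div₀). -/
theorem vi_K {W W' : WeierstrassCurve ℤ} {kap : ℤ} {e t u lam : ℚ} (h : IP W W' kap e t u lam) (K : Type) [Field K] [CharZero K] [DecidableEq K] :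
    VI (sA W K) (sB W K) ((lam : K) ^ 4 * sA W' K) ((lam : K) ^ 6 * sB W' K) (e : K) (t : K) (u : K) := by
  have h1 := vi_map (Rat.castHom K) h.vi
  have eA : ∀ W : WeierstrassCurve ℤ, Rat.castHom K (sA W ℚ) = sA W K := by
    intro W
    simp [sA]
  have eB : ∀ W : WeierstrassCurve ℤ, Rat.castHom K (sB W ℚ) = sB W K := by
    intro W
    simp [sB]
  rw [map_mul, map_mul, map_pow, map_pow, eA, eA, eB, eB] at h1
  exact h1

/-- Chunk K1 (S). 1728 Δ = c₄^3 - c₆^2, so Δ = -16 (4 A^3 + 27 B^2) for A = -c₄/48, B = -c₆/864; the discriminants in vi are not 0. -/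
theorem disc_ne {W W' : WeierstrassCurve ℤ} {kap : ℤ} {e t u lam : ℚ} (h : IP W W' kap e t u lam) : W.Δ ≠ 0 ∧ W'.Δ ≠ 0 := by
  have key : ∀ W : WeierstrassCurve ℤ, (W.Δ : ℚ) = -16 * (4 * sA W ℚ ^ 3 + 27 * sB W ℚ ^ 2) := by
    intro W
    have h1 := W.c_relation
    have h2 : (1728 : ℚ) * (W.Δ : ℚ) = (W.c₄ : ℚ) ^ 3 - (W.c₆ : ℚ) ^ 2 := by
      exact_mod_cast h1
    rw [sA, sB]
    linear_combination h2 / 1728
  constructor
  · intro h0
    have h1 := key W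
    rw [h0, Int.cast_zero] at h1
    have h2 := h.vi.disc
    apply h2
    linarith
  · intro h0
    have h1 := key W'
    rw [h0, Int.cast_zero] at h1
    have h2 := h.vi.disc'
    apply h2
    have h3 : 4 * sA W' ℚ ^ 3 + 27 * sB W' ℚ ^ 2 = 0 := by linarith
    linear_combination lam ^ 12 * h3

theorem k1_exj (K : Type) [Field K] [NumberField K] : ∃ j : AlgebraicClosure K →+* ℂ, True := by
  obtain ⟨i⟩ : Nonempty (K →+* ℂ) := inferInstance
  letI : Algebra K ℂ := i.toAlgebra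
  let j : AlgebraicClosure K →ₐ[K] ℂ := IsAlgClosed.lift
  exact ⟨j.toRingHom, trivial⟩

open Classical in
/-- Chunk K1 (M). Ω = the algebraic closure; j : Ω → ℂ (an embedding of K in ℂ exists: NumberField, and IsAlgClosed.lift; see H55K.exists_j). exists_W (V6.lean) for A = sA W K, A'' = sA W' K and so on (vi_K), L.g₂ = c₄/12 = -4 j(A). Φ' = Θ' ∘ Φ ∘ Θ⁻¹ with model_K for W and W'; iso6_of_surj (C1.lean). -/
theorem iso6_of {W W' : WeierstrassCurve ℤ} {kap : ℤ} {e t u lam : ℚ} (h : IP W W' kap e t u lam) {L : PeriodPair}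
    (hL : H55K.TQ.PerZ W L) (K : Type) [Field K] [NumberField K] : Iso6 (W⁄K) (W'⁄K) (AlgebraicClosure K) := by
  obtain ⟨j, -⟩ := k1_exj K
  obtain ⟨hd1, hd2⟩ := disc_ne h
  have hl : (lam : K) ≠ 0 := by
    exact_mod_cast h.lam0
  have hg2 : L.g₂ = -4 * j (algebraMap K (AlgebraicClosure K) (sA W K)) := by
    rw [hL.g2, sA]
    simp only [map_div₀, map_neg, map_intCast, map_ofNat]
    ring
  have hg3 : L.g₃ = -4 * j (algebraMap K (AlgebraicClosure K) (sB W K)) := by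
    rw [hL.g3, sB]
    simp only [map_div₀, map_neg, map_intCast, map_ofNat]
    ring
  haveI : CharZero (AlgebraicClosure K) := charZero_of_injective_algebraMap (algebraMap K (AlgebraicClosure K)).injective
  obtain ⟨Φ, hΦ⟩ := exists_W (Ω := AlgebraicClosure K) j L hl (vi_K h K) hg2 hg3
  obtain ⟨Θ, hΘ⟩ := model_K W hd1 K (AlgebraicClosure K)
  obtain ⟨Θ', hΘ'⟩ := model_K W' hd2 K (AlgebraicClosure K)
  have hinv : ∀ (s : AlgebraicClosure K ≃ₐ[K] AlgebraicClosure K) (P : Pt (W⁄K) (AlgebraicClosure K)),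
      Θ.symm (ac (W⁄K) s P) = ac (WAB (sA W K) (sB W K)) s (Θ.symm P) := by
    intro s P
    apply Θ.injective
    rw [AddEquiv.apply_symm_apply, hΘ, AddEquiv.apply_symm_apply]
  refine iso6_of_surj (Θ'.toAddMonoidHom.comp (Φ.comp Θ.symm.toAddMonoidHom)) ?_ ?_ ?_
  · intro P
    obtain ⟨Q, hQ⟩ := Θ'.surjective P
    obtain ⟨R, hR⟩ := hΦ.surj Q
    refine ⟨Θ R, ?_⟩
    show Θ' (Φ (Θ.symm (Θ R))) = P
    rw [AddEquiv.symm_apply_apply, hR, hQ]
  · intro P hP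
    have h1 : Θ' (Φ (Θ.symm P)) = 0 := hP
    have h2 : Φ (Θ.symm P) = 0 := by
      apply Θ'.injective
      rw [h1, map_zero]
    have h3 := hΦ.six _ h2
    rw [← map_nsmul] at h3
    apply Θ.symm.injective
    rw [h3, map_zero]
  · intro s P
    show Θ' (Φ (Θ.symm (ac (W⁄K) s P))) = ac (W'⁄K) s (Θ' (Φ (Θ.symm P)))
    rw [hinv, hΦ.gal, hΘ']

end H28I
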