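import Mathlib
import Pool.Agent.Lib.H13D.D
import Pool.Agent.Lib.H28I.E5
import Pool.Agent.Lib.H28I.K1
import Pool.Agent.Lib.H55K.T8

/-! # H28I, part E: integrality of the isogeny -/

open NumberField IsDedekindDomain WeierstrassCurve

namespace H28I

open H55P (IQ embF eF LF Per IsHecke Pt ac Inert Dec Nm)
open H35P (WAB Ker tt GoodW IntW)
open H55K (xc yc)
open H13D
open H55K (CMA ak)

variable {F : Type} [Field F] [NumberField F] {Ω : Type} [Field Ω] [DecidableEq Ω] [Algebra F Ω] {V : ValuationSubring Ω}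

/-- The data of the isogeny are integral at V. -/
structure IntA (W W' : WeierstrassCurve ℤ) (V : ValuationSubring Ω) (e t u lam : ℚ) : Prop where
  vlam : V.valuation (lam : Ω) = 1
  ve : V.valuation ((e : Ω) - (W.b₂ : Ω) / 12) ≤ 1
  vt : V.valuation (t : Ω) ≤ 1
  vu : V.valuation (u : Ω) ≤ 1
  vrho : V.valuation ((lam : Ω) ^ 2 * ((W'.b₂ : Ω) / 12) - (W.b₂ : Ω) / 12) ≤ 1

theorem e6_int {v : HeightOneSpectrum (𝓞 F)}
    (hv : ∀ a : 𝓞 F, a ∈ v.asIdeal → V.valuation (ak Ω a) < 1) {n : ℤ} (hn : (n : 𝓞 F) ∉ v.asIdeal) :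
    V.valuation (n : Ω) = 1 := by
  have h1 := H55K.TQ.t8_val hv hn
  rwa [show ak Ω ((n : ℤ) : 𝓞 F) = (n : Ω) by simp [ak]] at h1

theorem e6_lt {v : HeightOneSpectrum (𝓞 F)}
    (hv : ∀ a : 𝓞 F, a ∈ v.asIdeal → V.valuation (ak Ω a) < 1) {n : ℤ} (hn : (n : 𝓞 F) ∈ v.asIdeal) :
    V.valuation (n : Ω) < 1 := by
  have h1 := hv _ hn
  rwa [show ak Ω ((n : ℤ) : 𝓞 F) = (n : Ω) by simp [ak]] at h1

theorem e6_le (n : ℤ) : V.valuation (n : Ω) ≤ 1 :=
  (V.valuation_le_one_iff _).2 (intCast_mem V n)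

theorem e6_delta (W : WeierstrassCurve ℤ) (R : Type) [CommRing R] : (W⁄R).Δ = (W.Δ : R) := by
  have h1 : (W⁄R).Δ = algebraMap ℤ R W.Δ := W.map_Δ _
  rw [h1]
  simp

theorem e6_pt {k : Type} [Field k] [IsAlgClosed k] {A B : k} (hd : 4 * A ^ 3 + 27 * B ^ 2 ≠ 0) [CharZero k] (e : k)
    (E : WeierstrassCurve k) (hE : E = WAB A B) : ∃ T : E.toAffine.Point, T ≠ 0 ∧ xc T = e := by
  subst hE
  obtain ⟨y, hy⟩ := IsAlgClosed.exists_pow_nat_eq (e ^ 3 + A * e + B) (show 0 < 2 by norm_num)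
  have h1 : (WAB A B).toAffine.Equation e y := by
    rw [Affine.equation_iff]
    simp only [WAB]
    linear_combination hy
  have h2 : (WAB A B).Δ ≠ 0 := by
    have h3 : (WAB A B).Δ = -16 * (4 * A ^ 3 + 27 * B ^ 2) := by
      simp only [WAB, WeierstrassCurve.Δ, WeierstrassCurve.b₂, WeierstrassCurve.b₄, WeierstrassCurve.b₆, WeierstrassCurve.b₈]
      ring
    rw [h3]
    exact mul_ne_zero (by norm_num) hd
  refine ⟨Affine.Point.some e y ((Affine.equation_iff_nonsingular_of_Δ_ne_zero h2).1 h1), ?_, rfl⟩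
  exact Affine.Point.some_ne_zero _

theorem e6_two {k : Type} [Field k] [DecidableEq k] [CharZero k] {A B e : k} (he : e ^ 3 + A * e + B = 0)
    (E : WeierstrassCurve k) (hE : E = WAB A B) {P : E.toAffine.Point} (h0 : P ≠ 0) (hx : xc P = e) : (2 : ℕ) • P = 0 := by
  subst hE
  exact two_pt he h0 hx

theorem e6_three {k : Type} [Field k] [DecidableEq k] [CharZero k] {A B e : k} (hd : 4 * A ^ 3 + 27 * B ^ 2 ≠ 0)
    (h3 : 3 * e ^ 4 + 6 * A * e ^ 2 + 12 * B * e - A ^ 2 = 0)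
    (E : WeierstrassCurve k) (hE : E = WAB A B) {P : E.toAffine.Point} (h0 : P ≠ 0) (hx : xc P = e) : (3 : ℕ) • P = 0 := by
  subst hE
  exact three_pt hd h3 h0 hx

theorem e6_eq (W : WeierstrassCurve ℤ) : (WAB (sA W F) (sB W F))⁄Ω = WAB (sA W Ω) (sB W Ω) := by
  ext
  · exact map_zero (algebraMap F Ω)
  · exact map_zero (algebraMap F Ω)
  · exact map_zero (algebraMap F Ω)
  · show algebraMap F Ω (sA W F) = sA W Ω
    simp only [sA, map_div₀, map_neg, map_intCast, map_ofNat]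
  · show algebraMap F Ω (sB W F) = sB W Ω
    simp only [sB, map_div₀, map_neg, map_intCast, map_ofNat]

/-- Chunk E6 (S/M). v above V. An integer n with (n : 𝓞 F) not in v has value 1 (H55K.TQ.t8_val in T8.lean), in v value < 1. W.Δ, W'.Δ have value 1 (map_Δ); kap divides W.Δ^n, so V(kap) = 1; quo (cast to Ω): V(lam)^12 = 1, so V(lam) = 1 (pow_eq_one_iff / linear order). -/
theorem lam_unit {W W' : WeierstrassCurve ℤ} {kap : ℤ} {e t u lam : ℚ} (h : IP W W' kap e t u lam) {v : HeightOneSpectrum (𝓞 F)}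
    (hv : ∀ a : 𝓞 F, a ∈ v.asIdeal → V.valuation (ak Ω a) < 1) (hΔ : (W⁄(𝓞 F)).Δ ∉ v.asIdeal) (hΔ' : (W'⁄(𝓞 F)).Δ ∉ v.asIdeal) :
    V.valuation (lam : Ω) = 1 := by
  have hz := fun n : ℤ => e6_int (Ω := Ω) hv (n := n)
  have : CharZero Ω := charZero_of_injective_algebraMap (algebraMap F Ω).injective
  rw [e6_delta] at hΔ hΔ'
  have h1 : V.valuation (W.Δ : Ω) = 1 := hz _ hΔ
  have h2 : V.valuation (W'.Δ : Ω) = 1 := hz _ hΔ'
  have h3 : V.valuation (kap : Ω) = 1 := by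
    apply hz
    intro hk
    obtain ⟨n, c, hc⟩ := h.kd
    have h4 : ((W.Δ : ℤ) : 𝓞 F) ^ n ∈ v.asIdeal := by
      have h5 : ((W.Δ : ℤ) : 𝓞 F) ^ n = (kap : 𝓞 F) * (c : 𝓞 F) := by
        exact_mod_cast congrArg (fun z : ℤ => (z : 𝓞 F)) hc
      rw [h5]
      exact Ideal.mul_mem_right _ _ hk
    exact hΔ (v.isPrime.mem_of_pow_mem _ h4)
  have h6 : (lam : Ω) ^ 12 * (W'.Δ : Ω) = (kap : Ω) * (W.Δ : Ω) := by
    have := congrArg (fun z : ℚ => (z : Ω)) h.quo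
    push_cast at this
    exact this
  have h7 := congrArg V.valuation h6
  rw [map_mul, map_mul, map_pow, h1, h2, h3, mul_one, mul_one] at h7
  exact (pow_eq_one_iff.1 h7).resolve_right (by norm_num)

/-- Chunk E6 (M). A point T ≠ 0 with xc T = e exists (y with y^2 = e^3 + A e + B, Ω algebraically closed; or it is given: only the statement for all T is needed, and e₀ from a T). Cases of h.vi.cs (cast to Ω; vi_K in K1.lean style).
Case 2 (u = 4 f(e), degree 3; u ≠ 0 by f_ne in V0.lean): h.three: 3 divides Δ, so V(3) = 1 (otherwise 3 is in v: t8_val; 3 divides Δ: Δ in v). q = 3, q • T = 0 (three_pt). T is not in Kg (hR.tors), V(e₀) ≤ 1 (hR.int; xn 1 r T = e - b₂/12). tu_int.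
Case 1 (u = 0, degree 2), q = 2 (two_pt). If V(2) = 1: the same. If V(2) < 1: 2 is in v, so 2 does not divide Δ; h.two: b₂ is odd (V(b₂) = 1: odd integers have value 1, 2 a + 1) and t = a/b with b odd, so V(t) ≤ 1: e0_ord gives V(e₀) ≤ 1, T is not in Kg (hR.big). tu_int. In all cases rho_int. -/
theorem int_all [IsAlgClosed Ω] {W W' : WeierstrassCurve ℤ} {kap : ℤ} {e t u lam : ℚ} (h : IP W W' kap e t u lam) {v : HeightOneSpectrum (𝓞 F)}
    (hv : ∀ a : 𝓞 F, a ∈ v.asIdeal → V.valuation (ak Ω a) < 1) (hΔ : (W⁄(𝓞 F)).Δ ∉ v.asIdeal) (hΔ' : (W'⁄(𝓞 F)).Δ ∉ v.asIdeal)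
    {Kg : AddSubgroup (Pt (WAB (sA W F) (sB W F)) Ω)} (hR : RM (sA W F) (sB W F) V Kg 1 ((W.b₂ : Ω) / 12)) :
    IntA W W' V e t u lam ∧ ∃ q : ℕ, 0 < q ∧ ∀ T : Pt (WAB (sA W F) (sB W F)) Ω, T ≠ 0 → xc T = (e : Ω) → T ∉ Kg ∧ q • T = 0 := by
  have hl := lam_unit h hv hΔ hΔ'
  have : CharZero Ω := charZero_of_injective_algebraMap (algebraMap F Ω).injective
  have hVI := vi_K h Ω
  have hE := e6_eq (F := F) (Ω := Ω) W
  rw [e6_delta] at hΔ
  obtain ⟨T₀, hT0, hTx⟩ := e6_pt hVI.disc (e : Ω) _ hE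
  have hxn : ∀ T : Pt (WAB (sA W F) (sB W F)) Ω, xc T = (e : Ω) →
      xn 1 ((W.b₂ : Ω) / 12) T = (e : Ω) - (W.b₂ : Ω) / 12 := by
    intro T hT
    unfold xn
    rw [hT]
    simp
  -- from an estimate of e and the points to everything
  have hfin : V.valuation ((e : Ω) - (W.b₂ : Ω) / 12) ≤ 1 →
      ((u : Ω) = 0 → V.valuation (2 : Ω) = 1 ∨ V.valuation (t : Ω) ≤ 1) → IntA W W' V e t u lam := by
    intro h1 h2
    obtain ⟨ht, hu⟩ := tu_int W hVI h1 h2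
    exact ⟨hl, h1, ht, hu, rho_int W W' hVI.hA hVI.hB hl h1 ht hu⟩
  have hq : ∀ q : ℕ, V.valuation (q : Ω) = 1 → (∀ T : Pt (WAB (sA W F) (sB W F)) Ω, T ≠ 0 → xc T = (e : Ω) → q • T = 0) →
      (∀ T : Pt (WAB (sA W F) (sB W F)) Ω, T ≠ 0 → xc T = (e : Ω) → T ∉ Kg ∧ q • T = 0) ∧
        V.valuation ((e : Ω) - (W.b₂ : Ω) / 12) ≤ 1 := by
    intro q hq1 hq2
    have h1 : ∀ T : Pt (WAB (sA W F) (sB W F)) Ω, T ≠ 0 → xc T = (e : Ω) → T ∉ Kg ∧ q • T = 0 := by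
      intro T h0 hx
      refine ⟨fun hK => h0 (hR.tors q hq1 T hK (hq2 T h0 hx)), hq2 T h0 hx⟩
    refine ⟨h1, ?_⟩
    rw [← hxn T₀ hTx]
    exact hR.int T₀ (h1 T₀ hT0 hTx).1
  have hdv : ∀ n : ℤ, n ∣ W.Δ → (n : 𝓞 F) ∉ v.asIdeal := by
    intro n hn hm
    obtain ⟨c, hc⟩ := hn
    apply hΔ
    rw [hc, Int.cast_mul]
    exact Ideal.mul_mem_right _ _ hm
  rcases hVI.cs with ⟨hu, he, ht⟩ | ⟨ht, hu, h3⟩
  · have hu' : u = 0 := by exact_mod_cast hu
    have h2p : ∀ T : Pt (WAB (sA W F) (sB W F)) Ω, T ≠ 0 → xc T = (e : Ω) → (2 : ℕ) • T = 0 := by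
      intro T h0 hx
      exact e6_two he _ hE h0 hx
    by_cases hV : V.valuation (2 : Ω) = 1
    · obtain ⟨h4, h5⟩ := hq 2 (by exact_mod_cast hV) h2p
      exact ⟨hfin h5 fun _ => Or.inl hV, 2, by norm_num, h4⟩
    · have h2v : ((2 : ℤ) : 𝓞 F) ∈ v.asIdeal := by
        by_contra hn
        exact hV (by exact_mod_cast e6_int (Ω := Ω) (V := V) hv hn)
      have hV2 : V.valuation (2 : Ω) < 1 := by
        exact_mod_cast e6_lt (Ω := Ω) (V := V) hv h2v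
      have hnd : ¬ (2 : ℤ) ∣ W.Δ := fun hn => hdv _ hn h2v
      have hodd : ∀ b : ℤ, ¬ (2 : ℤ) ∣ b → V.valuation (b : Ω) = 1 := by
        intro b hb
        apply e6_int hv
        intro hm
        obtain ⟨m, hm2⟩ : ∃ m, b = 2 * m + 1 := ⟨b / 2, by omega⟩
        apply v.isPrime.ne_top
        rw [Ideal.eq_top_iff_one]
        have h6 : (1 : 𝓞 F) = (b : 𝓞 F) - ((2 : ℤ) : 𝓞 F) * (m : 𝓞 F) := by
          rw [hm2]
          push_cast
          ring
        rw [h6]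
        exact Ideal.sub_mem _ hm (Ideal.mul_mem_right _ _ h2v)
      rcases h.two hu' with h7 | ⟨hb, a, b, hb2, htt⟩
      · exact absurd h7 hnd
      have htV : V.valuation (t : Ω) ≤ 1 := by
        rw [htt]
        push_cast
        rw [map_div₀, hodd b hb2, div_one]
        exact e6_le a
      have h5 : V.valuation ((e : Ω) - (W.b₂ : Ω) / 12) ≤ 1 := e0_ord W he ht hV2 (hodd _ hb) htV
      refine ⟨hfin h5 fun _ => Or.inr htV, 2, by norm_num, ?_⟩
      intro T h0 hx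
      refine ⟨fun hK => ?_, h2p T h0 hx⟩
      have h8 := hR.big T hK h0
      rw [hxn T hx] at h8
      exact absurd h5 (not_le.2 h8)
  · have hu0 : (u : Ω) ≠ 0 := by
      rw [hu]
      exact mul_ne_zero (by norm_num) (f_ne hVI.disc h3)
    have hu' : u ≠ 0 := by
      intro h9
      exact hu0 (by rw [h9]; simp)
    have hV : V.valuation (3 : Ω) = 1 := by
      exact_mod_cast e6_int (Ω := Ω) (V := V) hv (hdv 3 (h.three hu'))
    obtain ⟨h4, h5⟩ := hq 3 (by exact_mod_cast hV) (fun T h0 hx => e6_three hVI.disc h3 _ hE h0 hx)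
    exact ⟨hfin h5 fun h9 => absurd h9 hu0, 3, by norm_num, h4⟩

end H28I
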