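import Mathlib
import Pool.Agent.Lib.H28I.E6

/-! # H28I, part E: the isogeny and the kernels of reduction -/

open NumberField IsDedekindDomain WeierstrassCurve

namespace H28I

open H55P (IQ embF eF LF Per IsHecke Pt ac Inert Dec Nm)
open H35P (WAB Ker tt GoodW IntW)
open H55K (xc yc)
open H13D
open H55K (CMA ak)

variable {F : Type} [Field F] [NumberField F] {Ω : Type} [Field Ω] [DecidableEq Ω] [Algebra F Ω] {V : ValuationSubring Ω}
  {W W' : WeierstrassCurve ℤ} {e t u lam : ℚ} {Kg : AddSubgroup (Pt (WAB (sA W F) (sB W F)) Ω)}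
  {Kg' : AddSubgroup (Pt (WAB (sA W' F) (sB W' F)) Ω)}
  {Φ : Pt (WAB (sA W F) (sB W F)) Ω →+ Pt (WAB (sA W' F) (sB W' F)) Ω}

theorem e7_map (r : ℚ) : algebraMap F Ω (r : F) = (r : Ω) := map_ratCast _ _

theorem e7_xn {E : WeierstrassCurve F} (c : Ω) (X : Pt E Ω) : xn 1 c X = xc X - c := by
  simp [xn]

/-- Chunk E7 (S/M). Definition of xn, hΦ.x, vx: with x = xc X - b₂/12, e₀ = e - b₂/12, ρ = lam^2 b₂'/12 - b₂/12: lam^2 xc (Φ X) = xc X + t/(x - e₀) + u/(x - e₀)^2 and xc X = x + b₂/12. (algebraMap F Ω of a rational number is the rational number: map_ratCast.) -/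
theorem xn_phi (hΦ : IsW (sA W F) (sB W F) (sA W' F) (sB W' F) (e : F) (t : F) (u : F) (lam : F) Φ) (hl : (lam : Ω) ≠ 0)
    {X : Pt (WAB (sA W F) (sB W F)) Ω} (h0 : X ≠ 0) (hX : xc X ≠ (e : Ω)) :
    (lam : Ω) ^ 2 * xn 1 ((W'.b₂ : Ω) / 12) (Φ X) = xn 1 ((W.b₂ : Ω) / 12) X +
      (t : Ω) / (xn 1 ((W.b₂ : Ω) / 12) X - ((e : Ω) - (W.b₂ : Ω) / 12)) +
      (u : Ω) / (xn 1 ((W.b₂ : Ω) / 12) X - ((e : Ω) - (W.b₂ : Ω) / 12)) ^ 2 -
      ((lam : Ω) ^ 2 * ((W'.b₂ : Ω) / 12) - (W.b₂ : Ω) / 12) := by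
  have hx := hΦ.x X h0 (by rwa [e7_map])
  rw [e7_map, e7_map, e7_map, e7_map, vx] at hx
  rw [e7_xn, e7_xn]
  have h1 : xc X - (W.b₂ : Ω) / 12 - ((e : Ω) - (W.b₂ : Ω) / 12) = xc X - (e : Ω) := by ring
  rw [h1, mul_sub, hx]
  ring

theorem e7_big {x e₀ t u ρ : Ω} (he : V.valuation e₀ ≤ 1) (ht : V.valuation t ≤ 1) (hu : V.valuation u ≤ 1)
    (hρ : V.valuation ρ ≤ 1) (hx : 1 < V.valuation x) :
    V.valuation (x + t / (x - e₀) + u / (x - e₀) ^ 2 - ρ) = V.valuation x := by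
  have h1 : V.valuation (x - e₀) = V.valuation x := by
    exact V.valuation.map_sub_eq_of_lt_left (lt_of_le_of_lt he hx)
  have h2 : V.valuation (t / (x - e₀)) ≤ 1 := by
    rw [map_div₀, h1]
    exact div_le_one_of_le₀ (ht.trans hx.le) zero_le'
  have h3 : V.valuation (u / (x - e₀) ^ 2) ≤ 1 := by
    rw [map_div₀, map_pow, h1]
    exact div_le_one_of_le₀ (hu.trans (one_le_pow₀ hx.le)) zero_le'
  have h4 : V.valuation (t / (x - e₀) + u / (x - e₀) ^ 2 - ρ) ≤ 1 :=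
    V.valuation.map_sub_le (V.valuation.map_add_le h2 h3) hρ
  have h5 : x + t / (x - e₀) + u / (x - e₀) ^ 2 - ρ = x + (t / (x - e₀) + u / (x - e₀) ^ 2 - ρ) := by ring
  rw [h5]
  exact V.valuation.map_add_eq_of_lt_left (lt_of_le_of_lt h4 hx)

theorem e7_le {x e₀ t u ρ : Ω} (ht : V.valuation t ≤ 1) (hu : V.valuation u ≤ 1)
    (hρ : V.valuation ρ ≤ 1) (hx : V.valuation x ≤ 1) (he : V.valuation (x - e₀) = 1) :
    V.valuation (x + t / (x - e₀) + u / (x - e₀) ^ 2 - ρ) ≤ 1 := by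
  have h2 : V.valuation (t / (x - e₀)) ≤ 1 := by
    rw [map_div₀, he, div_one]
    exact ht
  have h3 : V.valuation (u / (x - e₀) ^ 2) ≤ 1 := by
    rw [map_div₀, map_pow, he, one_pow, div_one]
    exact hu
  exact V.valuation.map_sub_le (V.valuation.map_add_le (V.valuation.map_add_le hx h2) h3) hρ

/-- Chunk E7 (M). X = 0 clear. xc X = e: Φ X = 0 (hΦ.ker). Otherwise V(x) > 1 for x = xn X (hR.big), V(x - e₀) = V(x), so the terms t/.. and u/.. have value < 1, V(ρ) ≤ 1: V(xn (Φ X)) = V(x) > 1 (V(lam) = 1), so Φ X is in Kg' (hR'.int: otherwise V ≤ 1). -/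
theorem phi_in (hΦ : IsW (sA W F) (sB W F) (sA W' F) (sB W' F) (e : F) (t : F) (u : F) (lam : F) Φ) (hI : IntA W W' V e t u lam)
    (hR : RM (sA W F) (sB W F) V Kg 1 ((W.b₂ : Ω) / 12)) (hR' : RM (sA W' F) (sB W' F) V Kg' 1 ((W'.b₂ : Ω) / 12))
    {X : Pt (WAB (sA W F) (sB W F)) Ω} (hX : X ∈ Kg) : Φ X ∈ Kg' := by
  by_cases h0 : X = 0
  · rw [h0, map_zero]
    exact Kg'.zero_mem
  by_cases he : xc X = (e : Ω)
  · rw [hΦ.ker X h0 (by rw [e7_map, he])]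
    exact Kg'.zero_mem
  have hl : (lam : Ω) ≠ 0 := by
    intro h
    have h1 := hI.vlam
    rw [h, map_zero] at h1
    exact zero_ne_one h1
  have h1 := xn_phi hΦ hl h0 he
  have h2 := hR.big X hX h0
  have h3 := e7_big hI.ve hI.vt hI.vu hI.vrho h2
  rw [← h1, map_mul, map_pow, hI.vlam, one_pow, one_mul] at h3
  by_contra h4
  have h5 := hR'.int _ h4
  rw [h3] at h5
  exact absurd h2 (not_lt.2 h5)

/-- Chunk E7 (M). X in Kg clear. Otherwise X ≠ 0. xc X = e: q • X = 0 (hT). Otherwise Φ X ≠ 0 (hΦ.ne), V(xn (Φ X)) > 1 (hR'.big), V(x) ≤ 1 for x = xn X (hR.int), V(ρ) ≤ 1: so V(t/(x - e₀) + u/(x - e₀)^2) > 1, and V(x - e₀) ≤ 1, V(t), V(u) ≤ 1: V(x - e₀) < 1 (if it were 1 the sum would have value ≤ 1).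
T with xc T = e, T ≠ 0 (y with y^2 = e^3 + A e + B, IsAlgClosed; the curve is nonsingular: disc_ne style, hypothesis hd). T is not in Kg (hT), xn T = e₀: cls_of (H13D/A1.lean): X - T or X + T is in Kg, so q • X is in Kg. -/
theorem phi_ker [IsAlgClosed Ω] (hd : 4 * sA W F ^ 3 + 27 * sB W F ^ 2 ≠ 0)
    (hΦ : IsW (sA W F) (sB W F) (sA W' F) (sB W' F) (e : F) (t : F) (u : F) (lam : F) Φ) (hI : IntA W W' V e t u lam)
    (hR : RM (sA W F) (sB W F) V Kg 1 ((W.b₂ : Ω) / 12)) (hR' : RM (sA W' F) (sB W' F) V Kg' 1 ((W'.b₂ : Ω) / 12)) {q : ℕ}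
    (hT : ∀ T : Pt (WAB (sA W F) (sB W F)) Ω, T ≠ 0 → xc T = (e : Ω) → T ∉ Kg ∧ q • T = 0)
    {X : Pt (WAB (sA W F) (sB W F)) Ω} (hX : Φ X ∈ Kg') : q • X ∈ Kg := by
  by_cases hK : X ∈ Kg
  · exact Kg.nsmul_mem hK q
  have h0 : X ≠ 0 := by
    rintro rfl
    exact hK Kg.zero_mem
  by_cases he : xc X = (e : Ω)
  · rw [(hT X h0 he).2]
    exact Kg.zero_mem
  have hl : (lam : Ω) ≠ 0 := by
    intro h
    have h1 := hI.vlam
    rw [h, map_zero] at h1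
    exact zero_ne_one h1
  have h1 := xn_phi hΦ hl h0 he
  have h2 := hR.int X hK
  have h3 : 1 < V.valuation (xn 1 ((W'.b₂ : Ω) / 12) (Φ X)) := hR'.big _ hX (hΦ.ne X h0 (by rwa [e7_map]))
  have h4 : 1 < V.valuation ((lam : Ω) ^ 2 * xn 1 ((W'.b₂ : Ω) / 12) (Φ X)) := by
    rwa [map_mul, map_pow, hI.vlam, one_pow, one_mul]
  rw [h1] at h4
  have h5 : V.valuation (xn 1 ((W.b₂ : Ω) / 12) X - ((e : Ω) - (W.b₂ : Ω) / 12)) < 1 := by
    refine lt_of_le_of_ne (V.valuation.map_sub_le h2 hI.ve) fun h => ?_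
    exact absurd h4 (not_lt.2 (e7_le hI.vt hI.vu hI.vrho h2 h))
  -- the point T
  have hd' : 4 * sA W Ω ^ 3 + 27 * sB W Ω ^ 2 ≠ 0 := by
    intro h
    apply hd
    apply (algebraMap F Ω).injective
    rw [map_zero]
    simp only [map_add, map_mul, map_pow, map_ofNat, sA, sB, map_div₀, map_neg, map_intCast] at h ⊢
    exact h
  haveI : CharZero Ω := charZero_of_injective_algebraMap (algebraMap F Ω).injective
  obtain ⟨T, hT0, hTe⟩ := e6_pt hd' (e : Ω) _ (e6_eq (F := F) (Ω := Ω) W)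
  obtain ⟨hTK, hTq⟩ := hT T hT0 hTe
  have h6 : V.valuation (xn 1 ((W.b₂ : Ω) / 12) X - xn 1 ((W.b₂ : Ω) / 12) T) < 1 := by
    have h7 : xn 1 ((W.b₂ : Ω) / 12) T = (e : Ω) - (W.b₂ : Ω) / 12 := by
      rw [e7_xn, hTe]
    rw [h7]
    exact h5
  have h10 : X - T ∈ Kg ∨ X + T ∈ Kg := by
    by_contra hcon
    push Not at hcon
    have h11 := hR.diff X T hK hTK hcon.1 hcon.2
    rw [h11] at h6
    exact lt_irrefl _ h6
  rcases h10 with h8 | h8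
  · have h9 := Kg.nsmul_mem h8 q
    rwa [nsmul_sub, hTq, sub_zero] at h9
  · have h9 := Kg.nsmul_mem h8 q
    rwa [nsmul_add, hTq, add_zero] at h9

end H28I
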