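import Mathlib
import Pool.Agent.Lib.H13D.A8
import Pool.Agent.Lib.H28I.E0
import Pool.Agent.Lib.H28I.E2
import Pool.Agent.Lib.H28I.E3
import Pool.Agent.Lib.H28I.E7
import Pool.Agent.Lib.H55K.CM
import Pool.Agent.Lib.H55K.FB5
import Pool.Agent.Lib.H55K.K0A
import Pool.Agent.Lib.H55K.Y1

/-! # H28I, part E: the numbers of points agree -/

open NumberField IsDedekindDomain WeierstrassCurve

namespace H28I

open H55P (IQ embF eF LF Per IsHecke Pt ac Inert Dec Nm)
open H35P (WAB Ker tt GoodW IntW)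
open H55K (xc yc)
open H13D
open H55K (CMA ak)
open H55K.TQ

theorem e8_fin {k : Type} [Field k] [Finite k] (W : WeierstrassCurve k) : Finite W.toAffine.Point := by
  let f : W.toAffine.Point → Option (k × k) := fun P => match P with
    | .zero => none
    | .some x y _ => some (x, y)
  apply Finite.of_injective f
  rintro (_ | ⟨x, y, h⟩) (_ | ⟨x', y', h'⟩) he
  · rfl
  · exact absurd he (by simp [f])
  · exact absurd he (by simp [f])
  · have h1 : (x, y) = (x', y') := Option.some.inj he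
    rw [Prod.mk.injEq] at h1
    obtain ⟨rfl, rfl⟩ := h1
    rfl

/-- Chunk E8 (M). Ω = the algebraic closure of F, V above v and a Frobenius element s (H13S.exists_frob; see H13D.H3 or H55K/G10C.lean for the setup: exists_abw, exists_j, exists_CMA, the relation between hH.data.per and A = sA W F, B = sB W F as in bad_K, T10.lean). Kg, Kg' from exists_rmZ for W and W'. int_all, exists_W (V6.lean; vi_K in K1.lean for F; L from exists_perZ, perW_of: FB5.lean, QP1A.lean).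
count_grp with f = ac s, f' = ac s (Kg, Kg' are stable: ac_mem_iff in H13D/A8.lean, s (b₂/12) = b₂/12), phi_in, phi_ker, nsmul_surj, fin_nsmul (q^n > 0; q^n • c = 0), hfix: the number of classes is the number of points over a finite field, which is not 0 (Nat.card of a finite nonempty type; the points over a finite field are finitely many:
WeierstrassCurve.Affine.Point over a Finite field, see H55K/G9B or W-part), so the type is finite. Then the two formulas of exists_rmZ. -/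
theorem deu_iso {F : Type} [Field F] [NumberField F] [IQ F] {W W' : WeierstrassCurve ℤ} {Om : ℂ} {m : Ideal (𝓞 F)}
    {ψ : Ideal (𝓞 F) →*₀ 𝓞 F} (hH : BaseH F (W⁄(𝓞 F)) Om m ψ) {kap : ℤ} {e t u lam : ℚ} (h : IP W W' kap e t u lam)
    (v : HeightOneSpectrum (𝓞 F)) (hΔ : (W⁄(𝓞 F)).Δ ∉ v.asIdeal) (hΔ' : (W'⁄(𝓞 F)).Δ ∉ v.asIdeal) :
    Nat.card ((W'⁄(𝓞 F))⁄(𝓞 F ⧸ v.asIdeal)).toAffine.Point = Nat.card ((W⁄(𝓞 F))⁄(𝓞 F ⧸ v.asIdeal)).toAffine.Point := by
  classical
  have hper := hH.data.per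
  have eA : sA W F = -(algebraMap (𝓞 F) F (W⁄(𝓞 F)).c₄) / 48 := by
    have h1 : (W⁄(𝓞 F)).c₄ = algebraMap ℤ (𝓞 F) W.c₄ := WeierstrassCurve.map_c₄ W _
    rw [h1, sA]
    simp
  have eB : sB W F = -(algebraMap (𝓞 F) F (W⁄(𝓞 F)).c₆) / 864 := by
    have h1 : (W⁄(𝓞 F)).c₆ = algebraMap ℤ (𝓞 F) W.c₆ := WeierstrassCurve.map_c₆ W _
    rw [h1, sB]
    simp
  have hdisc : 4 * sA W F ^ 3 + 27 * sB W F ^ 2 ≠ 0 := H55K.y3_ne (W⁄(𝓞 F)) eA eB hH.data.ell
  have hper' : Per F (embF F (sA W F)) (embF F (sB W F)) Om := by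
    have e1 : embF F (sA W F) = -(eF F (W⁄(𝓞 F)).c₄) / 48 := by
      rw [eA, map_div₀, map_neg, map_ofNat]
      rfl
    have e2 : embF F (sB W F) = -(eF F (W⁄(𝓞 F)).c₆) / 864 := by
      rw [eB, map_div₀, map_neg, map_ofNat]
      rfl
    rw [e1, e2]
    exact hper
  let Ω := AlgebraicClosure F
  obtain ⟨j, hj⟩ := H55K.exists_j F Ω
  obtain ⟨act, hC⟩ := H55K.exists_CMA F (sA W F) (sB W F) Om j hdisc hper' hj
  have : CharZero Ω := charZero_of_injective_algebraMap (algebraMap F Ω).injective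
  obtain ⟨V, hV⟩ := H55K.exists_abw Ω v
  have hVv : ∀ a : 𝓞 F, a ∈ v.asIdeal → V.valuation (ak Ω a) < 1 := by
    intro a ha
    rw [hV.lt]
    exact (v.valuation_lt_one_iff_mem _).2 ha
  obtain ⟨s, hDec, hs⟩ := H13S.exists_frob v V hVv
  obtain ⟨Kg, hR, hcard⟩ := exists_rmZ (Ω := Ω) (V := V) W v hΔ hVv
  obtain ⟨Kg', hR', hcard'⟩ := exists_rmZ (Ω := Ω) (V := V) W' v hΔ' hVv
  obtain ⟨hI, q, hq, hT⟩ := int_all h hVv hΔ hΔ' hR
  -- the isogeny
  obtain ⟨L, hL⟩ := exists_perZ (H55K.TQ.perW_of hH)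
  have g2 : L.g₂ = -4 * j (algebraMap F Ω (sA W F)) := by
    rw [hL.g2, hj, sA, map_div₀, map_neg, map_ofNat, map_intCast]
    ring
  have g3 : L.g₃ = -4 * j (algebraMap F Ω (sB W F)) := by
    rw [hL.g3, hj, sB, map_div₀, map_neg, map_ofNat, map_intCast]
    ring
  have hlF : (lam : F) ≠ 0 := by
    intro h0
    exact h.lam0 (by exact_mod_cast h0)
  obtain ⟨Φ, hΦ⟩ := exists_W (Ω := Ω) j L hlF (vi_K h F) g2 g3
  have hb : ∀ (E : WeierstrassCurve ℤ), s ((E.b₂ : Ω) / 12) = (E.b₂ : Ω) / 12 := by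
    intro E
    rw [map_div₀, map_intCast, map_ofNat]
  have hcnt := count_grp Kg Kg' Φ hΦ.surj (ac (WAB (sA W F) (sB W F)) s) (ac (WAB (sA W' F) (sB W' F)) s)
    (fun X => hΦ.gal s X) (fun X hX => (ac_mem_iff hR s hDec (map_one s) (hb W) X).2 hX)
    (fun X hX => (ac_mem_iff hR' s hDec (map_one s) (hb W') X).2 hX)
    (fun X hX => phi_in hΦ hI hR hR' hX) q (fun X hX => phi_ker hdisc hΦ hI hR hR' hT hX)
    (fun X => nsmul_surj hC hq X) (fun n => fin_nsmul hC hR (pow_pos hq n)) ?_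
  · rw [hcard' s hDec hs, hcard s hDec hs]
    exact hcnt
  · have hvm := v.isMaximal
    let _ : Field (𝓞 F ⧸ v.asIdeal) := Ideal.Quotient.field v.asIdeal
    have : Finite (𝓞 F ⧸ v.asIdeal) := Ideal.finiteQuotientOfFreeOfNeBot _ v.ne_bot
    have := e8_fin ((W⁄(𝓞 F))⁄(𝓞 F ⧸ v.asIdeal))
    apply Nat.finite_of_card_ne_zero
    rw [← hcard s hDec hs]
    have : Nonempty ((W⁄(𝓞 F))⁄(𝓞 F ⧸ v.asIdeal)).toAffine.Point := ⟨0⟩
    exact Nat.card_pos.ne'

end H28I
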