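import Mathlib
import Pool.Agent.Lib.H16C.D6
import Pool.Agent.Lib.H55K.M1B

/-! # H28I, part G: points of order q -/

open NumberField IsDedekindDomain WeierstrassCurve

namespace H28I

open H55P (IQ embF eF LF Per IsHecke Pt ac Inert Dec Nm)
open H35P (WAB Ker tt GoodW IntW)
open H55K (xc yc)

theorem g0_delta {k : Type} [Field k] (A B : k) : (WAB A B).Δ = -16 * (4 * A ^ 3 + 27 * B ^ 2) := by
  simp only [WAB, WeierstrassCurve.Δ, WeierstrassCurve.b₂, WeierstrassCurve.b₄, WeierstrassCurve.b₆, WeierstrassCurve.b₈]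
  ring

/-- Chunk G0 (M). W = WAB A B is a short equation with a₄ = A, a₆ = B (instances IsShortNF, IsElliptic: the discriminant is -16 (4 A^3 + 27 B^2)). W.ΨSq q has degree q^2 - 1 > 0 (WeierstrassCurve.natDegree_ΨSq, (q : Ω) ≠ 0), so it has a root x (IsAlgClosed.exists_root). y with y^2 = x^3 + A x + B (IsAlgClosed.exists_pow_nat_eq), T = some x y (nonsingular).
H16C.psi_sq (H16C/D0.lean): psi^2 = ΨSq(x) = 0, H16C.smul_eq_zero_of_psi (D6.lean): q • T = 0. (xc, yc of H16C are the coordinates as here; use cases or rfl.) -/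
theorem exists_tors {Ω : Type} [Field Ω] [DecidableEq Ω] [IsAlgClosed Ω] [CharZero Ω] {A B : Ω} (hd : 4 * A ^ 3 + 27 * B ^ 2 ≠ 0)
    {q : ℕ} (hq : 1 < q) : ∃ T : (WAB A B).toAffine.Point, T ≠ 0 ∧ q • T = 0 := by
  have hs : (WAB A B).toAffine.IsShortNF := ⟨rfl, rfl, rfl⟩
  have hD : (WAB A B).Δ ≠ 0 := by
    rw [g0_delta]
    exact mul_ne_zero (by norm_num) hd
  have hE : (WAB A B).toAffine.IsElliptic := ⟨isUnit_iff_ne_zero.2 hD⟩
  have hq0 : ((q : ℤ) : Ω) ≠ 0 := by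
    have : (q : Ω) ≠ 0 := Nat.cast_ne_zero.2 (by omega)
    simpa using this
  have hdeg : 0 < ((WAB A B).ΨSq (q : ℤ)).natDegree := (WAB A B).natDegree_ΨSq_pos (by simpa using hq) hq0
  have hdeg' : ((WAB A B).ΨSq (q : ℤ)).degree ≠ 0 := by
    intro h0
    have := Polynomial.natDegree_eq_of_degree_eq_some (n := 0) h0
    omega
  obtain ⟨x, hx⟩ := IsAlgClosed.exists_root _ hdeg'
  obtain ⟨y, hy⟩ := IsAlgClosed.exists_pow_nat_eq (x ^ 3 + A * x + B) (n := 2) (by norm_num)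
  have heq : (WAB A B).toAffine.Equation x y := by
    rw [Affine.equation_iff]
    simp only [WAB]
    linear_combination hy
  have hns : (WAB A B).toAffine.Nonsingular x y := (Affine.equation_iff_nonsingular_of_Δ_ne_zero hD).1 heq
  refine ⟨Affine.Point.some x y hns, Affine.Point.some_ne_zero _, ?_⟩
  refine H16C.smul_eq_zero_of_psi (Affine.Point.some_ne_zero _) q (by omega) ?_
  have h1 := H16C.psi_sq (WAB A B).toAffine (x := x) (y := y) (by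
    show y ^ 2 = x ^ 3 + A * x + B
    exact hy) (q : ℤ)
  have h2 : ((WAB A B).ΨSq (q : ℤ)).eval x = 0 := hx
  have h3 : H16C.psi (WAB A B).toAffine x y (q : ℤ) ^ 2 = 0 := h1.trans h2
  exact pow_eq_zero_iff (two_ne_zero) |>.1 h3

/-- Chunk G0 (S). W is isomorphic over Ω to the short equation: H55K.TQ.vc_short is for curves over the integers of a number field; here directly: VC (WAB A B) W 1 (b₂/12) (a₁/2) (a₃/2) with A = -c₄/48, B = -c₆/864 (see the proof of vc_short in H55K/T9A.lean), H55K.MG.vc_iso. -/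
theorem exists_tors' {Ω : Type} [Field Ω] [DecidableEq Ω] [IsAlgClosed Ω] [CharZero Ω] {E : WeierstrassCurve Ω} (hd : E.Δ ≠ 0)
    {q : ℕ} (hq : 1 < q) : ∃ T : E.toAffine.Point, T ≠ 0 ∧ q • T = 0 := by
  obtain ⟨A, hA⟩ : ∃ A : Ω, A = -E.c₄ / 48 := ⟨_, rfl⟩
  obtain ⟨B, hB⟩ : ∃ B : Ω, B = -E.c₆ / 864 := ⟨_, rfl⟩
  have hcr := E.c_relation
  have hd0 : 4 * A ^ 3 + 27 * B ^ 2 ≠ 0 := by
    have h1 : 4 * A ^ 3 + 27 * B ^ 2 = -E.Δ / 16 := by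
      rw [hA, hB]
      linear_combination (1 / 27648 : Ω) * hcr
    rw [h1]
    exact div_ne_zero (neg_ne_zero.2 hd) (by norm_num)
  have hD : (WAB A B).Δ ≠ 0 := by
    rw [g0_delta]
    exact mul_ne_zero (by norm_num) hd0
  have hVC : H55K.MG.VC (WAB A B) E 1 ((E.a₂ + (E.a₁ / 2) ^ 2) / 3) (E.a₁ / 2) (E.a₃ / 2) := by
    refine ⟨one_ne_zero, ?_, ?_, ?_, ?_, ?_⟩
    · show 1 * E.a₁ = 0 + 2 * (E.a₁ / 2)
      ring
    · show 1 ^ 2 * E.a₂ = 0 - E.a₁ / 2 * 0 + 3 * ((E.a₂ + (E.a₁ / 2) ^ 2) / 3) - (E.a₁ / 2) ^ 2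
      ring
    · show 1 ^ 3 * E.a₃ = 0 + (E.a₂ + (E.a₁ / 2) ^ 2) / 3 * 0 + 2 * (E.a₃ / 2)
      ring
    · show 1 ^ 4 * E.a₄ = A - E.a₁ / 2 * 0 + 2 * ((E.a₂ + (E.a₁ / 2) ^ 2) / 3) * 0 -
        (E.a₃ / 2 + (E.a₂ + (E.a₁ / 2) ^ 2) / 3 * (E.a₁ / 2)) * 0 +
        3 * ((E.a₂ + (E.a₁ / 2) ^ 2) / 3) ^ 2 - 2 * (E.a₁ / 2) * (E.a₃ / 2)
      rw [hA]
      unfold WeierstrassCurve.c₄ WeierstrassCurve.b₂ WeierstrassCurve.b₄
      ring
    · show 1 ^ 6 * E.a₆ = B + (E.a₂ + (E.a₁ / 2) ^ 2) / 3 * A +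
        ((E.a₂ + (E.a₁ / 2) ^ 2) / 3) ^ 2 * 0 + ((E.a₂ + (E.a₁ / 2) ^ 2) / 3) ^ 3 - E.a₃ / 2 * 0 -
        (E.a₃ / 2) ^ 2 - (E.a₂ + (E.a₁ / 2) ^ 2) / 3 * (E.a₃ / 2) * 0
      rw [hA, hB]
      unfold WeierstrassCurve.c₄ WeierstrassCurve.c₆ WeierstrassCurve.b₂ WeierstrassCurve.b₄
        WeierstrassCurve.b₆
      ring
  obtain ⟨Θ, -⟩ := H55K.MG.vc_iso hVC hD hd
  obtain ⟨T, hT, hqT⟩ := exists_tors hd0 hq
  refine ⟨Θ T, ?_, ?_⟩
  · intro h0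
    apply hT
    apply Θ.injective
    rw [h0, map_zero]
  · rw [← map_nsmul, hqT, map_zero]

end H28I
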