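import Mathlib
import Pool.Agent.Lib.H55K.QB1A
import Pool.Agent.Lib.H55K.T9B
import Pool.Agent.Lib.H55K.T9C

/-! # H28I, part G: good reduction over K and valuation rings -/

open NumberField IsDedekindDomain WeierstrassCurve

namespace H28I

open H55P (IQ embF eF LF Per IsHecke Pt ac Inert Dec Nm)
open H35P (WAB Ker tt GoodW IntW)
open H55K (xc yc)
open H55K.TQ
open H55K.MG (VC Crd)

variable {K : Type} [Field K] [NumberField K] {Ω : Type} [Field Ω] [Algebra K Ω]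

/-- Chunk G1 (S). As H55K.TQ.exists_V (T9D.lean), for K itself instead of an intermediate field: exists_ext, ext_val for the valuation ring of w.valuation K. -/
theorem exists_VK (Ω : Type) [Field Ω] [Algebra K Ω] (w : HeightOneSpectrum (𝓞 K)) :
    ∃ V : ValuationSubring Ω, ∀ a : 𝓞 K, a ∈ w.asIdeal → V.valuation (algebraMap K Ω (a : K)) < 1 := by
  obtain ⟨V, hV⟩ := exists_ext (k := K) (Ω := Ω) (w.valuation K).valuationSubring
  refine ⟨V, fun a ha => ?_⟩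
  have h1 := (ext_val hV (a : K) 1).2
  rw [map_one, map_one, map_one] at h1
  refine h1.2 ?_
  have h2 := (Valuation.isEquiv_valuation_valuationSubring (w.valuation K)).lt_one_iff_lt_one (x := (a : K))
  rw [← h2]
  have h3 : w.valuation K (algebraMap (𝓞 K) K a) < 1 := (HeightOneSpectrum.valuation_lt_one_iff_mem w a).2 ha
  exact h3

/-- Chunk G1 (S/M). As gmd_of_good (T9B.lean), simpler: C over K, vc_smul, vc_map; t9b_le, t9b_eq for M = K. -/
theorem gmd_K {W : WeierstrassCurve K} {w : HeightOneSpectrum (𝓞 K)} {V : ValuationSubring Ω}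
    (hV : ∀ a : 𝓞 K, a ∈ w.asIdeal → V.valuation (algebraMap K Ω (a : K)) < 1) (h : H55K.GoodAt W w) :
    GMd (W⁄Ω) V (Set.range (algebraMap K Ω)) := by
  obtain ⟨C, h1, h2, h3, h4, h6, hd⟩ := h
  have hC := vc_map (algebraMap K Ω) (vc_smul W C)
  refine ⟨_, _, _, _, _, ⟨_, rfl⟩, ⟨_, rfl⟩, ⟨_, rfl⟩, ⟨_, rfl⟩, hC, ?_⟩
  refine ⟨⟨?_, ?_, ?_, ?_, ?_⟩, ?_⟩
  · exact (V.valuation_le_one_iff _).1 (t9b_le hV h1)
  · exact (V.valuation_le_one_iff _).1 (t9b_le hV h2)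
  · exact (V.valuation_le_one_iff _).1 (t9b_le hV h3)
  · exact (V.valuation_le_one_iff _).1 (t9b_le hV h4)
  · exact (V.valuation_le_one_iff _).1 (t9b_le hV h6)
  · rw [WeierstrassCurve.map_Δ]
    exact t9b_eq hV hd

/-- Chunk G1 (S/M). As good_of_V (T9C.lean), without vc_short: C = ⟨u, r, s, t⟩, C • W = W'' (vc_smul, vc_uniq), t9c_le, t9c_eq. -/
theorem good_VK {W : WeierstrassCurve K} {w : HeightOneSpectrum (𝓞 K)} {V : ValuationSubring Ω}
    (hV : ∀ a : 𝓞 K, a ∈ w.asIdeal → V.valuation (algebraMap K Ω (a : K)) < 1)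
    (h : ∃ (W'' : WeierstrassCurve K) (u r s t : K), VC W W'' u r s t ∧ GoodW (W''⁄Ω) V) : H55K.GoodAt W w := by
  obtain ⟨W'', u, r, s, t, hvc, hg⟩ := h
  have h3 : (⟨Units.mk0 u hvc.une, r, s, t⟩ : VariableChange K) • W = W'' :=
    vc_uniq (vc_smul W ⟨Units.mk0 u hvc.une, r, s, t⟩) hvc
  refine ⟨⟨Units.mk0 u hvc.une, r, s, t⟩, ?_⟩
  rw [h3]
  refine ⟨?_, ?_, ?_, ?_, ?_, ?_⟩
  · exact t9c_le w hV (((ValuationSubring.valuation_le_one_iff V _).mpr hg.a1))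
  · exact t9c_le w hV (((ValuationSubring.valuation_le_one_iff V _).mpr hg.a2))
  · exact t9c_le w hV (((ValuationSubring.valuation_le_one_iff V _).mpr hg.a3))
  · exact t9c_le w hV (((ValuationSubring.valuation_le_one_iff V _).mpr hg.a4))
  · exact t9c_le w hV (((ValuationSubring.valuation_le_one_iff V _).mpr hg.a6))
  · apply t9c_eq w hV
    have h4 := hg.disc
    have h5 : (W''⁄Ω).Δ = algebraMap K Ω W''.Δ := W''.map_Δ (algebraMap K Ω)
    rw [h5] at h4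
    exact h4

/-- Chunk G1 (S). If V(5) < 1 and V(7) < 1 then V(3 * 7 - 4 * 5) < 1. V(n) ≤ 1 for integers n. -/
theorem exists_q (V : ValuationSubring Ω) : ∃ q : ℕ, q.Prime ∧ 5 ≤ q ∧ V.valuation (q : Ω) = 1 := by
  have hn : ∀ n : ℕ, V.valuation (n : Ω) ≤ 1 := fun n =>
    (V.valuation_le_one_iff _).2 (natCast_mem V n)
  by_cases h5 : V.valuation ((5 : ℕ) : Ω) = 1
  · exact ⟨5, by norm_num, le_refl _, h5⟩
  by_cases h7 : V.valuation ((7 : ℕ) : Ω) = 1
  · exact ⟨7, by norm_num, by norm_num, h7⟩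
  exfalso
  have a5 : V.valuation ((5 : ℕ) : Ω) < 1 := lt_of_le_of_ne (hn 5) h5
  have a7 : V.valuation ((7 : ℕ) : Ω) < 1 := lt_of_le_of_ne (hn 7) h7
  have b5 : V.valuation (((4 : ℕ) : Ω) * ((5 : ℕ) : Ω)) < 1 := by
    rw [map_mul]
    exact lt_of_le_of_lt (mul_le_of_le_one_left' (hn 4)) a5
  have b7 : V.valuation (((3 : ℕ) : Ω) * ((7 : ℕ) : Ω)) < 1 := by
    rw [map_mul]
    exact lt_of_le_of_lt (mul_le_of_le_one_left' (hn 3)) a7
  have e : ((3 : ℕ) : Ω) * ((7 : ℕ) : Ω) - ((4 : ℕ) : Ω) * ((5 : ℕ) : Ω) = 1 := by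
    push_cast
    norm_num
  have h := lt_of_le_of_lt (V.valuation.map_sub _ _) (max_lt b7 b5)
  rw [e, map_one] at h
  exact lt_irrefl _ h

end H28I
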