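import Mathlib
import Pool.Agent.Lib.H28I.D
import Pool.Agent.Lib.H28I.G0
import Pool.Agent.Lib.H28I.G1
import Pool.Agent.Lib.H55K.T1
import Pool.Agent.Lib.H55K.T5
import Pool.Agent.Lib.H55K.T7B

/-! # H28I, part G: good reduction is invariant -/

open NumberField IsDedekindDomain WeierstrassCurve

namespace H28I

open H55P (IQ embF eF LF Per IsHecke Pt ac Inert Dec Nm)
open H35P (WAB Ker tt GoodW IntW)
open H55K (xc yc)
open H55K.TQ
open H55K.MG (VC Crd)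

open Classical in
/-- Chunk G2 (M). Ω = the algebraic closure of K, V from exists_VK, q from exists_q. gmd_K for W₁; inert_triv (T1.lean, F := K): every g with Inert V g fixes the points of W₁ killed by q (it fixes the image of K). T from exists_tors' for (W₁⁄Ω); T' = Φ T is not 0 (Ψ Φ T = 6 • T ≠ 0: q is prime to 6), q • T' = 0, g T' = T'.
nos_up (T5.lean) for W₂ (jj = the image of j₀, in V: V(integer) ≤ 1; W₂⁄K has c₄, Δ the images of integers), descent (T7B.lean), good_VK. -/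
theorem good_iso {K : Type} [Field K] [NumberField K] {W₁ : WeierstrassCurve K} {W₂ : WeierstrassCurve ℤ} (h1 : W₁.Δ ≠ 0) (h2 : W₂.Δ ≠ 0)
    (hj : ∃ j₀ : ℤ, W₂.c₄ ^ 3 = j₀ * W₂.Δ) (h : Iso6 W₁ (W₂⁄K) (AlgebraicClosure K)) (w : HeightOneSpectrum (𝓞 K))
    (hg : H55K.GoodAt W₁ w) : H55K.GoodAt (W₂⁄K) w := by
  obtain ⟨Φ, Ψ, hΨΦ, hΦΨ, hΦ, hΨ⟩ := h
  obtain ⟨V, hV⟩ := exists_VK (AlgebraicClosure K) w
  obtain ⟨q, hq, h5, hqV⟩ := exists_q V
  have hG1 := gmd_K hV hg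
  have h1' : (W₁⁄(AlgebraicClosure K)).Δ ≠ 0 := by
    have e : (W₁⁄(AlgebraicClosure K)).Δ = algebraMap K (AlgebraicClosure K) W₁.Δ := W₁.map_Δ _
    rw [e]
    exact (map_ne_zero _).2 h1
  obtain ⟨T, hT0, hqT⟩ := exists_tors' h1' hq.one_lt
  have hfix1 : ∀ g : AlgebraicClosure K ≃ₐ[K] AlgebraicClosure K, Inert V g → ac W₁ g T = T := by
    intro g hgI
    refine inert_triv h1 hG1 g ?_ hgI q hqV T hqT
    rintro x ⟨a, rfl⟩
    exact g.commutes a
  have hT'0 : Φ T ≠ 0 := by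
    intro h0
    have h6 : (6 : ℕ) • T = 0 := by
      rw [← hΨΦ T, h0, map_zero]
    have hcop : Nat.Coprime q 6 := by
      rw [Nat.Prime.coprime_iff_not_dvd hq]
      intro hd
      have := Nat.le_of_dvd (by norm_num) hd
      interval_cases q
      · omega
      · exact absurd hq (by norm_num)
    have h7 : (1 : ℕ) • T = 0 := by
      have h8 := (addOrderOf_dvd_iff_nsmul_eq_zero).2 h6
      have h9 := (addOrderOf_dvd_iff_nsmul_eq_zero).2 hqT
      have h10 : addOrderOf T ∣ 1 := by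
        rw [← hcop]
        exact Nat.dvd_gcd h9 h8
      exact addOrderOf_dvd_iff_nsmul_eq_zero.1 h10
    exact hT0 (by simpa using h7)
  have hqT' : q • Φ T = 0 := by
    rw [← map_nsmul, hqT, map_zero]
  have hfix2 : ∀ g : AlgebraicClosure K ≃ₐ[K] AlgebraicClosure K, Inert V g → ac (W₂⁄K) g (Φ T) = Φ T := by
    intro g hgI
    rw [← hΦ g T, hfix1 g hgI]
  have hΔ2 : (W₂⁄K).Δ ≠ 0 := by
    have e : (W₂⁄K).Δ = algebraMap ℤ K W₂.Δ := W₂.map_Δ _
    rw [e]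
    simpa using h2
  obtain ⟨j₀, hj₀⟩ := hj
  have hjV : ((j₀ : ℤ) : AlgebraicClosure K) ∈ V := intCast_mem V j₀
  have hjE : ((W₂⁄K)⁄(AlgebraicClosure K)).c₄ ^ 3 = ((j₀ : ℤ) : AlgebraicClosure K) * ((W₂⁄K)⁄(AlgebraicClosure K)).Δ := by
    have e1 : ((W₂⁄K)⁄(AlgebraicClosure K)).c₄ = ((W₂.c₄ : ℤ) : AlgebraicClosure K) := by
      have e2 : ((W₂⁄K)⁄(AlgebraicClosure K)).c₄ = algebraMap K (AlgebraicClosure K) (W₂⁄K).c₄ := (W₂⁄K).map_c₄ _
      have e3 : (W₂⁄K).c₄ = algebraMap ℤ K W₂.c₄ := W₂.map_c₄ _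
      rw [e2, e3]
      simp
    have e4 : ((W₂⁄K)⁄(AlgebraicClosure K)).Δ = ((W₂.Δ : ℤ) : AlgebraicClosure K) := by
      have e2 : ((W₂⁄K)⁄(AlgebraicClosure K)).Δ = algebraMap K (AlgebraicClosure K) (W₂⁄K).Δ := (W₂⁄K).map_Δ _
      have e3 : (W₂⁄K).Δ = algebraMap ℤ K W₂.Δ := W₂.map_Δ _
      rw [e2, e3]
      simp
    rw [e1, e4]
    exact_mod_cast congrArg (Int.cast : ℤ → AlgebraicClosure K) hj₀
  have hG2 := nos_up hΔ2 hjV hjE hq h5 hqV hqT' hT'0 hfix2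
  have hD := descent (v := w) (fun a ha => hV a ha) hG2
  exact good_VK hV hD

end H28I
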