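import Mathlib
import Pool.Agent.Lib.H28I.E8
import Pool.Agent.Lib.H28I.G2
import Pool.Agent.Lib.H55K.FB3C
import Pool.Agent.Lib.H55K.FD

/-! # H28I, part L: the two curves -/

open NumberField IsDedekindDomain WeierstrassCurve

namespace H28I

open H55P (IQ embF eF LF Per IsHecke Pt ac Inert Dec Nm)
open H35P (WAB Ker tt GoodW IntW)
open H55K (xc yc)
open H55K.TQ

/-- W has CM by the integers of F (BaseH); W' is isogenous to W by an explicit isogeny over the rational numbers, its j-invariant is integral, and the primes of F dividing its discriminant are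
primes of bad reduction. -/
structure TW (F : Type) [Field F] [NumberField F] [IQ F] (W W' : WeierstrassCurve ℤ) (Om : ℂ) (m : Ideal (𝓞 F))
    (ψ : Ideal (𝓞 F) →*₀ 𝓞 F) (kap : ℤ) (e t u lam : ℚ) : Prop where
  base : BaseH F (W⁄(𝓞 F)) Om m ψ
  ip : IP W W' kap e t u lam
  jint : ∃ j₀ : ℤ, W'.c₄ ^ 3 = j₀ * W'.Δ
  bad' : ∀ v : HeightOneSpectrum (𝓞 F), (W'⁄(𝓞 F)).Δ ∈ v.asIdeal → ¬ H55K.GoodAt ((W'⁄(𝓞 F))⁄F) v

variable {F : Type} [Field F] [NumberField F] [IQ F] {W W' : WeierstrassCurve ℤ} {Om : ℂ} {m : Ideal (𝓞 F)}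
    {ψ : Ideal (𝓞 F) →*₀ 𝓞 F} {kap : ℤ} {e t u lam : ℚ} {p : ℕ}

/-- The base change in two steps. -/
theorem l0_eq (W : WeierstrassCurve ℤ) (F : Type) [Field F] [NumberField F] : (W⁄(𝓞 F))⁄F = W⁄F := by
  show (W.map (algebraMap ℤ (𝓞 F))).map (algebraMap (𝓞 F) F) = W.map (algebraMap ℤ F)
  rw [WeierstrassCurve.map_map]
  congr 1

/-- An equation over the integers with discriminant a unit at w is good at w. -/
theorem l0_good {K : Type} [Field K] [NumberField K] (W₀ : WeierstrassCurve (𝓞 K)) (w : HeightOneSpectrum (𝓞 K))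
    (h : W₀.Δ ∉ w.asIdeal) : H55K.GoodAt (W₀⁄K) w := by
  have h1 : (1 : VariableChange K) • (W₀⁄K) = W₀⁄K := one_smul _ _
  refine ⟨1, ?_⟩
  rw [h1]
  refine ⟨w.valuation_le_one _, w.valuation_le_one _, w.valuation_le_one _, w.valuation_le_one _, w.valuation_le_one _, ?_⟩
  have h2 : (W₀⁄K).Δ = algebraMap (𝓞 K) K W₀.Δ := W₀.map_Δ (algebraMap (𝓞 K) K)
  rw [h2]
  exact (w.valuation_eq_one_iff_notMem).2 h

/-- Coprime to a prime number. -/
theorem l0_cop (F : Type) [Field F] [NumberField F] (D : 𝓞 F) (p : ℕ) (hp : p ≠ 0) :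
    IsCoprime (Ideal.span {D}) (Ideal.span {(p : 𝓞 F)}) ↔
      ∀ v : HeightOneSpectrum (𝓞 F), D ∈ v.asIdeal → (p : 𝓞 F) ∉ v.asIdeal := by
  constructor
  · intro h v h1 h2
    rw [Ideal.isCoprime_iff_sup_eq] at h
    apply v.isPrime.ne_top
    rw [eq_top_iff, ← h]
    exact sup_le ((Ideal.span_singleton_le_iff_mem _).2 h1) ((Ideal.span_singleton_le_iff_mem _).2 h2)
  · intro h
    rw [Ideal.isCoprime_iff_sup_eq]
    by_contra hne
    obtain ⟨M, hM, hle⟩ := Ideal.exists_le_maximal _ hne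
    have h1 : D ∈ M := hle (Ideal.mem_sup_left (Ideal.mem_span_singleton_self D))
    have h2 : (p : 𝓞 F) ∈ M := hle (Ideal.mem_sup_right (Ideal.mem_span_singleton_self _))
    have hb : M ≠ ⊥ := by
      rintro rfl
      rw [Ideal.mem_bot] at h2
      exact hp (by exact_mod_cast h2)
    exact h ⟨M, hM.isPrime, hb⟩ h1 h2

open Classical in
/-- Chunk L0 (S). iso6_of with L from exists_perZ (perW_of h.base). -/
theorem tw_iso (h : TW F W W' Om m ψ kap e t u lam) (K : Type) [Field K] [NumberField K] :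
    Iso6 (W⁄K) (W'⁄K) (AlgebraicClosure K) := by
  obtain ⟨L, hL⟩ := exists_perZ (perW_of h.base)
  exact iso6_of h.ip hL K

/-- Chunk L0 (S/M). good_iso in both directions (tw_iso, iso6_symm; jint_Z in FB3C.lean for W, disc_ne). -/
theorem tw_good (h : TW F W W' Om m ψ kap e t u lam) (K : Type) [Field K] [NumberField K] (w : HeightOneSpectrum (𝓞 K)) :
    H55K.GoodAt (W'⁄K) w ↔ H55K.GoodAt (W⁄K) w := by
  classical
  obtain ⟨hW, hW'⟩ := disc_ne h.ip
  have h1 : (W⁄K).Δ ≠ 0 := by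
    have e : (W⁄K).Δ = algebraMap ℤ K W.Δ := W.map_Δ (algebraMap ℤ K)
    rw [e, eq_intCast]
    exact Int.cast_ne_zero.2 hW
  have h2 : (W'⁄K).Δ ≠ 0 := by
    have e : (W'⁄K).Δ = algebraMap ℤ K W'.Δ := W'.map_Δ (algebraMap ℤ K)
    rw [e, eq_intCast]
    exact Int.cast_ne_zero.2 hW'
  exact ⟨fun hg => good_iso h2 hW (jint_Z h.base) (iso6_symm (tw_iso h K)) w hg,
    fun hg => good_iso h1 hW' h.jint (tw_iso h K) w hg⟩

/-- Chunk L0 (S/M). An equation over the integers whose discriminant is not in v is good at v (the change of variables 1; the coefficients have valuation ≤ 1, the discriminant 1: HeightOneSpectrum.valuation_eq_one_iff_notMem). So if W.Δ is in v: W⁄F is bad (h.base.bad), W'⁄F is bad (tw_good for K = F), so W'.Δ is in v; conversely with h.bad'. -/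
theorem tw_supp (h : TW F W W' Om m ψ kap e t u lam) (v : HeightOneSpectrum (𝓞 F)) :
    (W'⁄(𝓞 F)).Δ ∈ v.asIdeal ↔ (W⁄(𝓞 F)).Δ ∈ v.asIdeal := by
  constructor
  · intro h1
    by_contra h2
    have h3 := l0_good _ v h2
    rw [l0_eq] at h3
    have h4 := h.bad' v h1
    rw [l0_eq] at h4
    exact h4 ((tw_good h F v).2 h3)
  · intro h1
    by_contra h2
    have h3 := l0_good _ v h2
    rw [l0_eq] at h3
    have h4 := h.base.bad v h1
    rw [l0_eq] at h4
    exact h4 ((tw_good h F v).1 h3)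

/-- Chunk L0 (S). deu_iso, h.base.deu. -/
theorem tw_deu (h : TW F W W' Om m ψ kap e t u lam) (v : HeightOneSpectrum (𝓞 F)) (hΔ : (W'⁄(𝓞 F)).Δ ∉ v.asIdeal) :
    Nat.card ((W'⁄(𝓞 F))⁄(𝓞 F ⧸ v.asIdeal)).toAffine.Point = Nat.card ((W⁄(𝓞 F))⁄(𝓞 F ⧸ v.asIdeal)).toAffine.Point ∧
      Nat.card ((W'⁄(𝓞 F))⁄(𝓞 F ⧸ v.asIdeal)).toAffine.Point = Nm (1 - ψ v.asIdeal) := by
  have h1 : (W⁄(𝓞 F)).Δ ∉ v.asIdeal := mt (tw_supp h v).2 hΔ
  have h2 := deu_iso h.base h.ip v h1 hΔ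
  exact ⟨h2, h2.trans (h.base.deu v h1)⟩

/-- Chunk L0 (S/M). A prime number p ≥ 5 unramified in F is coprime to the discriminant iff no prime v of F contains both (Ideal.isCoprime_iff_sup_eq, maximal ideals); tw_supp. -/
theorem tw_prime (h : TW F W W' Om m ψ kap e t u lam) : PrimeH F (W'⁄(𝓞 F)) p ↔ PrimeH F (W⁄(𝓞 F)) p := by
  constructor
  · rintro ⟨h1, h2, h3, h4⟩
    rw [l0_cop F _ p h1.ne_zero] at h4
    exact ⟨h1, h2, h3, (l0_cop F _ p h1.ne_zero).2 fun v hv => h4 v ((tw_supp h v).2 hv)⟩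
  · rintro ⟨h1, h2, h3, h4⟩
    rw [l0_cop F _ p h1.ne_zero] at h4
    exact ⟨h1, h2, h3, (l0_cop F _ p h1.ne_zero).2 fun v hv => h4 v ((tw_supp h v).1 hv)⟩

/-- Chunk L0 (S). Definition; tw_supp, tw_deu. -/
theorem tw_inPF (h : TW F W W' Om m ψ kap e t u lam) (K : Type) [Field K] [NumberField K] :
    InPF (W'⁄(𝓞 F)) p K ↔ InPF (W⁄(𝓞 F)) p K := by
  constructor
  · rintro ⟨L, i1, i2, i3, i4, hG, hk, hU, hall⟩
    refine ⟨L, i1, i2, i3, i4, hG, hk, hU, fun w v hv hΔ hp => hall w v hv (mt (tw_supp h v).1 hΔ) ?_⟩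
    rw [(tw_deu h v (mt (tw_supp h v).1 hΔ)).1]
    exact hp
  · rintro ⟨L, i1, i2, i3, i4, hG, hk, hU, hall⟩
    refine ⟨L, i1, i2, i3, i4, hG, hk, hU, fun w v hv hΔ hp => hall w v hv (mt (tw_supp h v).2 hΔ) ?_⟩
    rw [← (tw_deu h v hΔ).1]
    exact hp

end H28I
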