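import Mathlib
import Pool.Agent.Lib.H28I.L0
import Pool.Agent.Lib.H55K.FB1
import Pool.Agent.Lib.H55K.FB3B
import Pool.Agent.Lib.H55K.RP2
import Pool.Agent.Lib.H55K.RP3

/-! # H28I, part L: the L-functions agree -/

open NumberField IsDedekindDomain WeierstrassCurve

namespace H28I

open H55P (IQ embF eF LF Per IsHecke Pt ac Inert Dec Nm)
open H35P (WAB Ker tt GoodW IntW)
open H55K (xc yc)
open H55K.TQ
open H55K (cj)

variable {F : Type} [Field F] [NumberField F] [IQ F] {W W' : WeierstrassCurve ℤ} {Om : ℂ} {m : Ideal (𝓞 F)}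
    {ψ : Ideal (𝓞 F) →*₀ 𝓞 F} {kap : ℤ} {e t u lam : ℚ} {p : ℕ}

/-- Chunk L1 (M). lfun_K (H55K/DM.lean) for W and for W' : the right sides agree (see the end of lser_F, FB3B.lean; cur_eq). For W: hH = h.base, hbad = fb3b_bad. For W' : hdeu = tw_deu, hΔm = tw_supp and h.base.supp, hj from h.jint (the images in 𝓞 F), hbad: GoodAt (W'⁄K) w implies GoodAt (W⁄K) w (tw_good), contradiction to fb3b_bad. Int.cast_injective. -/
theorem lfun_F (h : TW F W W' Om m ψ kap e t u lam) (hp : PrimeH F (W⁄(𝓞 F)) p) {L : IntermediateField F (AlgebraicClosure F)}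
    (hL : H55P.PExt p ⊥ L) (K : Type) [Field K] [NumberField K] [Algebra F K] (K' : IntermediateField F (AlgebraicClosure F)) [NumberField K']
    (hK : K' ≤ L) (θ : K ≃ₐ[F] K') (n : ℕ) : (W'⁄K).LFunction n = (W⁄K).LFunction n := by
  obtain ⟨j₀, hj⟩ := h.jint
  have e1 : (((W⁄K).LFunction n : ℤ) : ℂ) =
      (H55N.AI (H55P.PsiP K ψ) * H55N.AI (fun a => (starRingEnd ℂ) (H55P.PsiP K ψ a))) n := by
    rw [← cur_eq (F := F) (W := W) K]
    exact H55K.lfun_K h.base.data.hecke (fun v hv _ => h.base.deu v hv) (fun v hv => (h.base.supp v).1 hv)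
      (H55K.jint_of h.base.data.per h.base.data.ell) (fun w hw => fb3b_bad h.base hp hL K K' hK θ w hw) n
  have hj' : ∃ j₁ : 𝓞 F, (W'⁄(𝓞 F)).c₄ ^ 3 = j₁ * (W'⁄(𝓞 F)).Δ := by
    refine ⟨algebraMap ℤ (𝓞 F) j₀, ?_⟩
    have e4 : (W'⁄(𝓞 F)).c₄ = algebraMap ℤ (𝓞 F) W'.c₄ := W'.map_c₄ (algebraMap ℤ (𝓞 F))
    have eD : (W'⁄(𝓞 F)).Δ = algebraMap ℤ (𝓞 F) W'.Δ := W'.map_Δ (algebraMap ℤ (𝓞 F))
    rw [e4, eD, ← map_pow, ← map_mul, hj]
  have e2 : (((W'⁄K).LFunction n : ℤ) : ℂ) =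
      (H55N.AI (H55P.PsiP K ψ) * H55N.AI (fun a => (starRingEnd ℂ) (H55P.PsiP K ψ a))) n := by
    rw [← cur_eq (F := F) (W := W') K]
    refine H55K.lfun_K h.base.data.hecke (fun v hv _ => (tw_deu h v hv).2) (fun v hv => (h.base.supp v).1 ((tw_supp h v).1 hv))
      hj' (fun w hw hg => ?_) n
    rw [cur_eq K] at hg
    refine fb3b_bad h.base hp hL K K' hK θ w hw ?_
    rw [cur_eq K]
    exact (tw_good h K w).1 hg
  exact Int.cast_injective (e2.trans e1.symm)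

/-- Chunk L1 (M). lfun_quad (H55K/RI2.lean) for W and for W' (see lser_Q, FB3C.lean). hram for W' : hram_of h.base and tw_supp. hbad for W' : tw_good for the field K'. -/
theorem lfun_Q (h : TW F W W' Om m ψ kap e t u lam) (hp : PrimeH F (W⁄(𝓞 F)) p) {L : IntermediateField F (AlgebraicClosure F)}
    (hL : H55P.PExt p ⊥ L) (K₀ : Type) [Field K₀] [NumberField K₀] (K' : IntermediateField F (AlgebraicClosure F)) [NumberField K']
    [Algebra K₀ K'] (hK : K' ≤ L) (hQ : QuadG F K₀ K') (n : ℕ) : (W'⁄K₀).LFunction n = (W⁄K₀).LFunction n := by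
  obtain ⟨j₀, hj⟩ := jint_Z h.base
  obtain ⟨j₁, hj₁⟩ := h.jint
  have hbad : ∀ w : HeightOneSpectrum (𝓞 K'), H55P.mK K' m ≤ w.asIdeal → ¬ H55K.GoodAt (W⁄K') w := by
    intro w hw
    have h1 := bad_K h.base hp hL hK w hw
    rw [cur_eq K'] at h1
    exact h1
  have e1 : (((W⁄K₀).LFunction n : ℤ) : ℂ) = H55N.AI (fun a => H55P.PsiP K' ψ a) n :=
    lfun_quad hQ h.base.data.hecke (fun v hv _ => h.base.deu v hv) h.base.supp (hram_of h.base) hj hbad n
  have e2 : (((W'⁄K₀).LFunction n : ℤ) : ℂ) = H55N.AI (fun a => H55P.PsiP K' ψ a) n :=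
    lfun_quad hQ h.base.data.hecke (fun v hv _ => (tw_deu h v hv).2)
      (fun v => (tw_supp h v).trans (h.base.supp v)) (fun v hv => (tw_supp h v).2 (hram_of h.base v hv)) hj₁
      (fun w hw hg => hbad w hw ((tw_good h K' w).1 hg)) n
  exact Int.cast_injective (e2.trans e1.symm)

/-- Chunk L1 (S/M). sub_setup (FB1.lean), kg_dich, kg_iso as in lrel (FB4.lean) and int_Q (F3.lean); lfun_F or lfun_Q. -/
theorem lfun_same (h : TW F W W' Om m ψ kap e t u lam) (hp : PrimeH F (W⁄(𝓞 F)) p) (K : Type) [Field K] [NumberField K]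
    (hK : SubUF F p K) (n : ℕ) : (W'⁄K).LFunction n = (W⁄K).LFunction n := by
  obtain ⟨Lt, _, _, _, _, hG, ⟨k, hk⟩, hUt⟩ := hK
  obtain ⟨L, hLn, ι, hL, hU, hKL, -⟩ := sub_setup (F := F) p hp.prime K Lt hG k hk hUt
  have hLf : FiniteDimensional F L := hL.fin
  have hKf : FiniteDimensional F (KG F K ι) := H55P.finDim_of_le hKL
  have hKn : NumberField (KG F K ι) := H16C.FR_numberField _
  rcases kg_dich F K ι with ⟨f, hf⟩ | hQ
  · let _ : Algebra F K := f.toAlgebra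
    obtain ⟨θ⟩ := kg_iso F K ι f hf
    exact lfun_F h hp hL K (KG F K ι) hKL θ n
  · let _ : Algebra K (KG F K ι) := (KGmap F K ι).toAlgebra
    exact lfun_Q h hp hL K (KG F K ι) hKL hQ n

end H28I
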