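import Mathlib
import Pool.Agent.Lib.H28I.V4
import Pool.Agent.Lib.H55K.QD
import Pool.Agent.Lib.H55K.Z1A
import Pool.Agent.Lib.H55K.Z1B

/-! # H28I, part P: the lattices of the two curves -/

open NumberField IsDedekindDomain WeierstrassCurve

namespace H28I

open H55P (IQ embF eF LF Per IsHecke Pt ac Inert Dec Nm)
open H35P (WAB Ker tt GoodW IntW)
open H55K (xc yc)
open H55K.TQ

/-- lam L is contained in L', and (6/lam) L' is contained in L. -/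
structure LRt (L L' : PeriodPair) (lam : ℝ) : Prop where
  ne : lam ≠ 0
  fw : ∀ z ∈ L.lattice, (lam : ℂ) * z ∈ L'.lattice
  bw : ∀ z ∈ L'.lattice, (6 : ℂ) / (lam : ℂ) * z ∈ L.lattice

theorem p0_map {W : WeierstrassCurve ℤ} :
    (algebraMap ℚ ℂ) (sA W ℚ) = -(W.c₄ : ℂ) / 48 ∧ (algebraMap ℚ ℂ) (sB W ℚ) = -(W.c₆ : ℂ) / 864 := by
  constructor
  · simp only [sA, map_div₀, map_neg, map_intCast, map_ofNat]
  · simp only [sB, map_div₀, map_neg, map_intCast, map_ofNat]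

/-- Chunk P0 (M). vi_map for ℚ → ℂ (the images of sA W ℚ.. are -c₄/48 ..); iso_L (LA4B.lean) for A = -c₄/48, B = -c₆/864 (L.g₂ = c₄/12 = -4 A): L₂ with g₂ = -4 lam^4 (-c₄'/48) = lam^4 c₄'/12, g₃ = lam^6 c₆'/216. lat_scale (Z1B.lean) with c = lam: L₃ = lam L₂, g₂ = c₄'/12, g₃ = c₆'/216: PerZ W' L₃.
L'.lattice = L₃.lattice (lat_eq, Z1A.lean). IsoL.le, IsoL.six. -/
theorem lrt_of {W W' : WeierstrassCurve ℤ} {kap : ℤ} {e t u lam : ℚ} (h : IP W W' kap e t u lam) {L : PeriodPair} (hL : PerZ W L) :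
    (∃ L' : PeriodPair, PerZ W' L') ∧ ∀ L' : PeriodPair, PerZ W' L' → LRt L L' (lam : ℝ) := by
  have hlam : (lam : ℂ) ≠ 0 := by exact_mod_cast h.lam0
  have hv := vi_map (algebraMap ℚ ℂ) h.vi
  rw [map_mul, map_mul, map_pow, map_pow, p0_map.1, p0_map.2, p0_map.1, p0_map.2] at hv
  have hla : (algebraMap ℚ ℂ) lam = (lam : ℂ) := by simp
  rw [hla] at hv
  obtain ⟨L₂, hL₂⟩ := iso_L L hv (by rw [hL.g2]; ring) (by rw [hL.g3]; ring)
  obtain ⟨L₃, hm, h2, h3⟩ := H55K.lat_scale L₂ (lam : ℂ) hlam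
  have hP : PerZ W' L₃ := by
    constructor
    · rw [h2, hL₂.g2]
      field_simp
      ring
    · rw [h3, hL₂.g3]
      field_simp
      ring
  refine ⟨⟨L₃, hP⟩, ?_⟩
  intro L' hL'
  have he : L'.lattice = L₃.lattice := H55K.lat_eq L' L₃ (hL'.g2.trans hP.g2.symm) (hL'.g3.trans hP.g3.symm)
  have hc : (((lam : ℚ) : ℝ) : ℂ) = (lam : ℂ) := by norm_cast
  refine ⟨by exact_mod_cast h.lam0, ?_, ?_⟩
  · intro z hz
    rw [he, hm, hc]
    exact ⟨z, hL₂.le z hz, rfl⟩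
  · intro z hz
    rw [he, hm] at hz
    obtain ⟨l, hl, rfl⟩ := hz
    rw [hc]
    have e6 : (6 : ℂ) / (lam : ℂ) * ((lam : ℂ) * l) = 6 * l := by
      field_simp
    rw [e6]
    exact hL₂.six l hl

end H28I
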