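import Mathlib
import Pool.Agent.Lib.H28I.P0
import Pool.Agent.Lib.H55K.QP2A

/-! # H28I, part P: the area -/

open NumberField IsDedekindDomain WeierstrassCurve

namespace H28I

open H55P (IQ embF eF LF Per IsHecke Pt ac Inert Dec Nm)
open H35P (WAB Ker tt GoodW IntW)
open H55K (xc yc)
open H55K.TQ

theorem p1_ne (L : PeriodPair) : L.ω₁.re * L.ω₂.im - L.ω₁.im * L.ω₂.re ≠ 0 := by
  intro h2
  have h1 := L.indep
  rw [LinearIndependent.pair_iff] at h1
  have hne1 : L.ω₁ ≠ 0 := by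
    intro h3
    have h4 := h1 1 0 (by rw [h3]; simp)
    exact one_ne_zero h4.1
  have h6 := h1 (-L.ω₂.im) L.ω₁.im (by
    apply Complex.ext
    · simp only [Complex.add_re, Complex.real_smul, Complex.mul_re, Complex.ofReal_re, Complex.ofReal_im, Complex.zero_re]
      linear_combination -h2
    · simp only [Complex.add_im, Complex.real_smul, Complex.mul_im, Complex.ofReal_re, Complex.ofReal_im, Complex.zero_im]
      ring)
  have h7 := h1 (-L.ω₂.re) L.ω₁.re (by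
    apply Complex.ext
    · simp only [Complex.add_re, Complex.real_smul, Complex.mul_re, Complex.ofReal_re, Complex.ofReal_im, Complex.zero_re]
      ring
    · simp only [Complex.add_im, Complex.real_smul, Complex.mul_im, Complex.ofReal_re, Complex.ofReal_im, Complex.zero_im]
      linear_combination h2)
  exact hne1 (Complex.ext h7.2 h6.2)

/-- if `c ω₁, c ω₂` lie in L'.lattice then `‖c‖² X(ω) = d X(ω')` -/
theorem p1_half {L L' : PeriodPair} {c : ℂ} (h : ∀ z ∈ L.lattice, c * z ∈ L'.lattice) :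
    ∃ d : ℤ, ‖c‖ ^ 2 * (L.ω₁.re * L.ω₂.im - L.ω₁.im * L.ω₂.re) = d * (L'.ω₁.re * L'.ω₂.im - L'.ω₁.im * L'.ω₂.re) := by
  obtain ⟨m, n, hmn⟩ := PeriodPair.mem_lattice.1 (h _ L.ω₁_mem_lattice)
  obtain ⟨m', n', hmn'⟩ := PeriodPair.mem_lattice.1 (h _ L.ω₂_mem_lattice)
  refine ⟨m * n' - n * m', ?_⟩
  rw [← qp2a_mul, ← hmn, ← hmn', qp2a_cross]

/-- Chunk P1 (M). lam ω₁, lam ω₂ are integral combinations of ω₁', ω₂' with determinant d, (6/lam) ω₁', (6/lam) ω₂' of ω₁, ω₂ with determinant d' (PeriodPair.mem_lattice). Cross product X(a, b) = re a im b - im a re b (qp2a_cross, qp2a_mul in QP2A.lean): lam^2 X(ω) = d X(ω'), (36/lam^2) X(ω') = d' X(ω), X(ω) ≠ 0 (L.indep; see qp1b_indep):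
d d' = 36, n = |d|. H55C.Om L = 2 |X(ω)|. -/
theorem om_ratio {L L' : PeriodPair} {lam : ℝ} (h : LRt L L' lam) : ∃ n : ℕ, n ∣ 36 ∧ H55C.Om L * lam ^ 2 = n * H55C.Om L' := by
  obtain ⟨d, hd⟩ := p1_half h.fw
  obtain ⟨d', hd'⟩ := p1_half h.bw
  have hX := p1_ne L
  have e1 : ‖(lam : ℂ)‖ ^ 2 = lam ^ 2 := by
    rw [Complex.norm_real, Real.norm_eq_abs, sq_abs]
  have e2 : ‖(6 : ℂ) / (lam : ℂ)‖ ^ 2 = 36 / lam ^ 2 := by
    rw [norm_div, div_pow, e1]
    norm_num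
  rw [e1] at hd
  rw [e2] at hd'
  unfold H55C.Om
  generalize L.ω₁.re * L.ω₂.im - L.ω₁.im * L.ω₂.re = X at *
  generalize L'.ω₁.re * L'.ω₂.im - L'.ω₁.im * L'.ω₂.re = Y at *
  have hl := h.ne
  have h1 : (d * d' : ℤ) = 36 := by
    have h2 : ((d * d' : ℤ) : ℝ) * X = 36 * X := by
      push_cast
      calc (d : ℝ) * d' * X = d * (d' * X) := by ring
        _ = d * (36 / lam ^ 2 * Y) := by rw [← hd']
        _ = 36 / lam ^ 2 * (d * Y) := by ring
        _ = 36 / lam ^ 2 * (lam ^ 2 * X) := by rw [← hd]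
        _ = 36 * X := by field_simp
    have h3 := mul_right_cancel₀ hX h2
    exact_mod_cast h3
  refine ⟨d.natAbs, ?_, ?_⟩
  · have h2 : d.natAbs * d'.natAbs = 36 := by
      rw [← Int.natAbs_mul, h1]; rfl
    exact ⟨_, h2.symm⟩
  · have h2 : ((d.natAbs : ℕ) : ℝ) = |(d : ℝ)| := by
      rw [Nat.cast_natAbs, Int.cast_abs]
    rw [h2]
    calc 2 * |X| * lam ^ 2 = 2 * |lam ^ 2 * X| := by rw [abs_mul, abs_of_nonneg (sq_nonneg lam)]; ring
      _ = 2 * |(d : ℝ) * Y| := by rw [hd]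
      _ = |(d : ℝ)| * (2 * |Y|) := by rw [abs_mul]; ring

end H28I
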