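import Mathlib
import Pool.Agent.Lib.H28I.P0
import Pool.Agent.Lib.H55K.QP2B

/-! # H28I, part P: the real period -/

open NumberField IsDedekindDomain WeierstrassCurve

namespace H28I

open H55P (IQ embF eF LF Per IsHecke Pt ac Inert Dec Nm)
open H35P (WAB Ker tt GoodW IntW)
open H55K (xc yc)
open H55K.TQ

/-- Chunk P2 (S/M). omr_mem (QP2B.lean): m = Omr L > 0 is in the lattice and minimal. n = the integral part of x/m: x - n m is in the lattice, 0 ≤ x - n m < m, so it is 0. -/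
theorem omr_mul {W : WeierstrassCurve ℤ} {L : PeriodPair} (hL : PerZ W L) {x : ℝ} (hx : 0 < x) (h : (x : ℂ) ∈ L.lattice) :
    ∃ n : ℕ, x = n * H55D.Omr L := by
  obtain ⟨hm, hml, hmin⟩ := omr_mem hL
  generalize H55D.Omr L = m at *
  refine ⟨⌊x / m⌋₊, ?_⟩
  have h1 : (⌊x / m⌋₊ : ℝ) ≤ x / m := Nat.floor_le (by positivity)
  have h2 : x / m < ⌊x / m⌋₊ + 1 := Nat.lt_floor_add_one _
  rw [le_div_iff₀ hm] at h1
  rw [div_lt_iff₀ hm] at h2
  by_contra hne
  have h3 : 0 < x - ⌊x / m⌋₊ * m := by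
    rcases h1.lt_or_eq with h | h
    · linarith
    · exact absurd h.symm hne
  have h4 : ((x - ⌊x / m⌋₊ * m : ℝ) : ℂ) ∈ L.lattice := by
    push_cast
    refine sub_mem h ?_
    rw [← nsmul_eq_mul]
    exact nsmul_mem hml _
  have h5 := hmin _ h3 h4
  linarith

/-- Chunk P2 (S/M). |lam| Omr L is ± lam Omr L, so it is in L': k Omr L' (omr_mul); (6/|lam|) Omr L' is in L: k' Omr L; k k' = 6. -/
theorem omr_ratio {W W' : WeierstrassCurve ℤ} {L L' : PeriodPair} (hL : PerZ W L) (hL' : PerZ W' L') {lam : ℝ} (h : LRt L L' lam) :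
    ∃ k : ℕ, k ∣ 6 ∧ |lam| * H55D.Omr L = k * H55D.Omr L' := by
  obtain ⟨hm, hml, -⟩ := omr_mem hL
  obtain ⟨hm', hml', -⟩ := omr_mem hL'
  have hl := h.ne
  have hlp : 0 < |lam| := abs_pos.2 hl
  have h1 : ((|lam| * H55D.Omr L : ℝ) : ℂ) ∈ L'.lattice := by
    have h2 := h.fw _ hml
    rcases abs_choice lam with h3 | h3
    · rw [h3]; push_cast; exact h2
    · rw [h3]; push_cast
      rw [neg_mul]
      exact neg_mem h2
  have h1' : ((6 / |lam| * H55D.Omr L' : ℝ) : ℂ) ∈ L.lattice := by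
    have h2 := h.bw _ hml'
    rcases abs_choice lam with h3 | h3
    · rw [h3]; push_cast; exact h2
    · rw [h3]; push_cast
      rw [div_neg, neg_mul]
      exact neg_mem h2
  obtain ⟨k, hk⟩ := omr_mul hL' (by positivity) h1
  obtain ⟨k', hk'⟩ := omr_mul hL (by positivity) h1'
  refine ⟨k, ⟨k', ?_⟩, hk⟩
  generalize H55D.Omr L = m at *
  generalize H55D.Omr L' = m' at *
  have h4 : ((6 : ℕ) : ℝ) * m = ((k * k' : ℕ) : ℝ) * m := by
    push_cast
    calc (6 : ℝ) * m = 6 / |lam| * (|lam| * m) := by field_simp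
      _ = 6 / |lam| * (k * m') := by rw [hk]
      _ = k * (6 / |lam| * m') := by ring
      _ = k * (k' * m) := by rw [hk']
      _ = _ := by ring
  exact_mod_cast mul_right_cancel₀ hm.ne' h4

end H28I
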