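import Mathlib
import Pool.Agent.Lib.H28I.P1
import Pool.Agent.Lib.H28I.P2
import Pool.Agent.Lib.H55K.QS1
import Pool.Agent.Lib.H55K.FD
import Pool.Agent.Lib.H55K.FC1

/-! # H28I, part P: the algebraic parts of the L-values -/

open NumberField IsDedekindDomain WeierstrassCurve

namespace H28I

open H55P (IQ embF eF LF Per IsHecke Pt ac Inert Dec Nm)
open H35P (WAB Ker tt GoodW IntW)
open H55K (xc yc)
open H55K.TQ

theorem p3_not_dvd {p : ℕ} (hp : p.Prime) (h5 : 5 ≤ p) {m : ℤ} {n : ℕ} (h : m ∣ 6 ^ n) : ¬ (p : ℤ) ∣ m := by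
  intro hpm
  have h1 : (p : ℤ) ∣ 6 ^ n := hpm.trans h
  have h2 : (p : ℤ) ∣ 6 := (Nat.prime_iff_prime_int.mp hp).dvd_of_dvd_pow h1
  have h3 : p ∣ 6 := by exact_mod_cast h2
  have h4 : p ≤ 6 := Nat.le_of_dvd (by norm_num) h3
  interval_cases p
  · omega
  · exact absurd hp (by decide)

theorem p3_val_nat {p : ℕ} (hp : p.Prime) (h5 : 5 ≤ p) (V : ValuationSubring ℂ) (hV : V.valuation (p : ℂ) < 1) {k n : ℕ} (h : k ∣ 6 ^ n) :
    V.valuation (k : ℂ) = 1 := by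
  have h1 := fc1_one hp V hV (k : ℤ) (p3_not_dvd hp h5 (m := (k : ℤ)) (n := n) (by exact_mod_cast h))
  exact_mod_cast h1

/-- Chunk P3 (S/M). V(n) = 1 for integers n not divisible by p (fc1_one in H55K/FC1.lean or H55P.val_nat). quo, cast to ℂ: V(lam)^12 = 1: kap divides 6^n, so p does not divide kap. -/
theorem vlam_C {W W' : WeierstrassCurve ℤ} {kap : ℤ} {e t u lam : ℚ} (h : IP W W' kap e t u lam) {p : ℕ} (hp : p.Prime) (h5 : 5 ≤ p)
    (hΔ : ¬ (p : ℤ) ∣ W.Δ) (hΔ' : ¬ (p : ℤ) ∣ W'.Δ) (V : ValuationSubring ℂ) (hV : V.valuation (p : ℂ) < 1) :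
    V.valuation (lam : ℂ) = 1 := by
  obtain ⟨n, hn⟩ := h.k6
  have h1 := fc1_one hp V hV kap (p3_not_dvd hp h5 hn)
  have h2 := fc1_one hp V hV W.Δ hΔ
  have h3 := fc1_one hp V hV W'.Δ hΔ'
  have h4 : (lam : ℂ) ^ 12 * ((W'.Δ : ℤ) : ℂ) = (kap : ℂ) * ((W.Δ : ℤ) : ℂ) := by
    have h5 := congrArg (fun x : ℚ => (x : ℂ)) h.quo
    push_cast at h5
    exact h5
  have h6 := congrArg V.valuation h4
  rw [map_mul, map_mul, map_pow, h1, h2, h3, mul_one, mul_one] at h6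
  exact (pow_eq_one_iff.1 h6).resolve_right (by norm_num)

/-- Chunk P3 (M). lrt_of, om_ratio, omr_ratio; V(lam) = 1, V(n) = V(k) = 1 (n divides 36, k divides 6), V(2) = 1 for the factor in OmP. -/
theorem per_val {W W' : WeierstrassCurve ℤ} {kap : ℤ} {e t u lam : ℚ} (h : IP W W' kap e t u lam) {p : ℕ} (hp : p.Prime) (h5 : 5 ≤ p)
    (hΔ : ¬ (p : ℤ) ∣ W.Δ) (hΔ' : ¬ (p : ℤ) ∣ W'.Δ) {L L' : PeriodPair} (hL : PerZ W L) (hL' : PerZ W' L') (V : ValuationSubring ℂ)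
    (hV : V.valuation (p : ℂ) < 1) : V.valuation (OmP W' L' : ℂ) = V.valuation (OmP W L : ℂ) ∧
      V.valuation (H55C.Om L' : ℂ) = V.valuation (H55C.Om L : ℂ) := by
  have hl := vlam_C h hp h5 hΔ hΔ' V hV
  have hr : LRt L L' (lam : ℝ) := (lrt_of h hL).2 L' hL'
  have hlC : V.valuation (((lam : ℝ) : ℂ)) = 1 := by
    have e : (((lam : ℝ) : ℂ)) = (lam : ℂ) := by push_cast; rfl
    rw [e]
    exact hl
  obtain ⟨n, hn, en⟩ := om_ratio hr
  obtain ⟨k, hk, ek⟩ := omr_ratio hL hL' hr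
  have vn : V.valuation (n : ℂ) = 1 := p3_val_nat hp h5 V hV (n := 2) (by norm_num; exact hn)
  have vk : V.valuation (k : ℂ) = 1 := p3_val_nat hp h5 V hV (n := 1) (by norm_num; exact hk)
  have v2 : V.valuation (2 : ℂ) = 1 := by
    have h2 := p3_val_nat hp h5 V hV (k := 2) (n := 1) (by norm_num)
    exact_mod_cast h2
  have habs : V.valuation (((|(lam : ℝ)| : ℝ) : ℂ)) = 1 := by
    rcases abs_choice (lam : ℝ) with e | e
    · rw [e]
      exact hlC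
    · rw [e, Complex.ofReal_neg, Valuation.map_neg]
      exact hlC
  have r1 : V.valuation ((H55D.Omr L : ℝ) : ℂ) = V.valuation ((H55D.Omr L' : ℝ) : ℂ) := by
    have e1 := congrArg (fun x : ℝ => V.valuation (x : ℂ)) ek
    simp only [Complex.ofReal_mul, Complex.ofReal_natCast, map_mul, habs, vk, one_mul] at e1
    exact e1
  have r2 : V.valuation ((H55C.Om L : ℝ) : ℂ) = V.valuation ((H55C.Om L' : ℝ) : ℂ) := by
    have e1 := congrArg (fun x : ℝ => V.valuation (x : ℂ)) en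
    simp only [Complex.ofReal_mul, Complex.ofReal_pow, Complex.ofReal_natCast, map_mul, map_pow, hlC, vn, one_mul, one_pow, mul_one] at e1
    exact e1
  have key : ∀ (X : WeierstrassCurve ℤ) (M : PeriodPair), V.valuation ((OmP X M : ℝ) : ℂ) = V.valuation ((H55D.Omr M : ℝ) : ℂ) := by
    intro X M
    unfold OmP
    split_ifs
    · rw [Complex.ofReal_mul, map_mul, Complex.ofReal_ofNat, v2, one_mul]
    · rw [one_mul]
  exact ⟨by rw [key, key, r1], r2.symm⟩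

/-- Chunk P3 (S/M). Definition of lG; per_val; prod_W (QS1.lean) for W and W'. -/
theorem lG_same {W W' : WeierstrassCurve ℤ} {kap : ℤ} {e t u lam : ℚ} (h : IP W W' kap e t u lam) {p : ℕ} (hp : p.Prime) (h5 : 5 ≤ p)
    (hΔ : ¬ (p : ℤ) ∣ W.Δ) (hΔ' : ¬ (p : ℤ) ∣ W'.Δ) (hj : ∃ j₀ : ℤ, W.c₄ ^ 3 = j₀ * W.Δ) (hj' : ∃ j₀ : ℤ, W'.c₄ ^ 3 = j₀ * W'.Δ)
    (K : Type) [Field K] [NumberField K] {L L' : PeriodPair} (hL : PerZ W L) (hL' : PerZ W' L') (x : ℂ) (V : ValuationSubring ℂ)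
    (hV : V.valuation (p : ℂ) < 1) : V.valuation (lG K W' L' x) = V.valuation (lG K W L x) := by
  obtain ⟨e1, e2⟩ := per_val h hp h5 hΔ hΔ' hL hL' V hV
  have u1 := prod_W (W := W) K hp h5 hΔ hj V hV
  have u2 := prod_W (W := W') K hp h5 hΔ' hj' V hV
  unfold lG
  simp only [map_div₀, map_mul, map_pow] at u1 u2 ⊢
  rw [e1, e2, u1, u2]

end H28I
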