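import Mathlib
import Pool.Agent.Lib.H28I.A0
import Pool.Agent.Lib.H28I.L1
import Pool.Agent.Lib.H28I.P3
import Pool.Agent.Lib.H28T.XMain
import Pool.Agent.Lib.H55K.F3
import Pool.Agent.Lib.H55K.FC3

/-! # H28I, part A: the theorem for the isogenous curve -/

open NumberField IsDedekindDomain WeierstrassCurve

namespace H28I

open H55P (IQ embF eF LF Per IsHecke Pt ac Inert Dec Nm)
open H35P (WAB Ker tt GoodW IntW)
open H55K (xc yc)
open H55K.TQ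

variable {F : Type} [Field F] [NumberField F] [IQ F] {W W' : WeierstrassCurve ℤ} {Om : ℂ} {m : Ideal (𝓞 F)}
    {ψ : Ideal (𝓞 F) →*₀ 𝓞 F} {kap : ℤ} {e t u lam : ℚ} {p : ℕ}

/-- lfun_same, lG_same, tw_iso. -/
theorem same_of (h : TW F W W' Om m ψ kap e t u lam) (hp : PrimeH F (W⁄(𝓞 F)) p) (K : Type) [Field K] [NumberField K]
    (hK : SubUF F p K) : Same p W W' K := by
  have hp' := (tw_prime h).2 hp
  obtain ⟨L, hL⟩ := exists_perZ (perW_of h.base)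
  exact ⟨lfun_same h hp K hK, fun L L' hL hL' V hV x => lG_same h.ip hp.prime hp.five (fb6b_ndvd hp) (fb6b_ndvd hp')
    (jint_Z h.base) h.jint K hL hL' x V hV, ⟨L, hL⟩, (lrt_of h.ip hL).1, tw_iso h K, (disc_ne h.ip).1, (disc_ne h.ip).2⟩

/-- The rational numbers belong to all classes. -/
theorem subUF_Q (hp : PrimeH F (W⁄(𝓞 F)) p) : SubUF F p ℚ :=
  ⟨F, inferInstance, inferInstance, inferInstance, inferInstance, inferInstance, ⟨0, by rw [pow_zero, Module.finrank_self]⟩, hp.unr⟩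

/-- THE THEOREM for the isogenous curve. -/
theorem main_iso (h : TW F W W' Om m ψ kap e t u lam) (hp' : PrimeH F (W'⁄(𝓞 F)) p) (K : Type) [Field K] [NumberField K]
    (hK : SubUF F p K) :
    AnIntG p W' K ∧ (AnUnitG p W' K ↔ AnUnitG p W' ℚ ∧ InPF (W'⁄(𝓞 F)) p K) ∧ (AnUnitG p W' K → BSDPG p W' K) ∧
      (¬ InPF (W'⁄(𝓞 F)) p K → AnNonG p W' K ∧ H13Z.SelNonT (W'⁄K) p) := by
  have hp := (tw_prime h).1 hp'
  have hS := same_of h hp K hK
  have hQ := subUF_Q (F := F) hp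
  have hSQ := same_of h hp ℚ hQ
  obtain ⟨h1, h2, h3⟩ := main_Q h.base hp K hK
  obtain ⟨-, h2', -⟩ := main_Q h.base hp ℚ hQ
  have hI := int_Q h.base hp K hK
  have hIQ := int_Q h.base hp ℚ hQ
  have e1 : AnUnitG p W' K ↔ AnUnitG p W K :=
    ⟨fun a => same_unit' hp.prime hp.five hS hI a, fun a => same_unit hp.prime hp.five hS a (h2 a)⟩
  have e2 : AnUnitG p W' ℚ ↔ AnUnitG p W ℚ :=
    ⟨fun a => same_unit' hp.prime hp.five hSQ hIQ a, fun a => same_unit hp.prime hp.five hSQ a (h2' a)⟩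
  refine ⟨same_int hS hI, ?_, fun a => same_bsd hp.prime hp.five hS (h2 (e1.1 a)) a, fun a => ?_⟩
  · rw [e1, e2, tw_inPF h, h1]
  · obtain ⟨b1, b2⟩ := h3 (fun b => a ((tw_inPF h K).2 b))
    exact ⟨same_non hS b1, selnon_iso hp.prime hp.five (tw_iso h K) b2⟩

/-- Chunk A1 (M). As an_almost and result (PrimePart.lean). If no prime p₀ satisfies PrimeH F (W⁄(𝓞 F)) p₀ then (prime_almost, FC2.lean) there are only finitely many primes. Otherwise LNz W ℚ (same_lnz for same_of h hp₀ ℚ), an_almost h.base: for almost all p PrimeH F (W..) p (prime_almost) and AnUnitG p W ℚ; then same_unit (main_Q) gives AnUnitG p W' ℚ; tw_prime. -/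
theorem almost_iso (h : TW F W W' Om m ψ kap e t u lam) (hL : LNz W' ℚ) :
    {p : ℕ | p.Prime ∧ ¬ (PrimeH F (W'⁄(𝓞 F)) p ∧ AnUnitG p W' ℚ)}.Finite := by
  have hfin := prime_almost (W⁄(𝓞 F)) h.base.data.ell
  by_cases hex : ∃ p, PrimeH F (W⁄(𝓞 F)) p
  swap
  · refine hfin.subset ?_
    rintro p ⟨hp, -⟩
    exact ⟨hp, fun h => hex ⟨p, h⟩⟩
  obtain ⟨p₀, hp₀⟩ := hex
  have hS0 := same_of h hp₀ ℚ (subUF_Q (F := F) hp₀)
  have hLW := (same_lnz hS0).1 hL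
  refine (hfin.union (an_almost h.base hLW)).subset ?_
  rintro p ⟨hp, hV⟩
  by_cases hP : PrimeH F (W⁄(𝓞 F)) p
  · right
    refine ⟨hp, fun hA => hV ⟨(tw_prime h).2 hP, ?_⟩⟩
    have hQ := subUF_Q (F := F) hP
    obtain ⟨-, h2, -⟩ := main_Q h.base hP ℚ hQ
    exact same_unit hP.prime hP.five (same_of h hP ℚ hQ) hA (h2 hA)
  · left
    exact ⟨hp, hP⟩

/-- Chunk A1 (S). Definition of Gx (H28T); tw_supp, tw_deu. -/
theorem tw_gx (h : TW F W W' Om m ψ kap e t u lam) (v : HeightOneSpectrum (𝓞 F)) :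
    H28T.Gx (W'⁄(𝓞 F)) p v ↔ H28T.Gx (W⁄(𝓞 F)) p v := by
  unfold H28T.Gx
  refine and_congr_right fun _ => ?_
  have hs := tw_supp h v
  constructor
  · intro a hΔ
    have hΔ' : (W'⁄(𝓞 F)).Δ ∉ v.asIdeal := fun b => hΔ (hs.1 b)
    have b := a hΔ'
    rwa [(tw_deu h v hΔ').1] at b
  · intro a hΔ'
    have hΔ : (W⁄(𝓞 F)).Δ ∉ v.asIdeal := fun b => hΔ' (hs.2 b)
    rw [(tw_deu h v hΔ').1]
    exact a hΔ

/-- Chunk A1 (S). H28T.Gx (W'⁄(𝓞 F)) p = H28T.Gx (W⁄(𝓞 F)) p (funext, propext, tw_gx), tw_inPF: the fields of Rich and RealG for W' follow from those for W (rich_of, real_Q in H28T/XMain.lean) by rewriting. -/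
theorem rich_iso (h : TW F W W' Om m ψ kap e t u lam) (hp' : PrimeH F (W'⁄(𝓞 F)) p) :
    H28T.Rich (W'⁄(𝓞 F)) p ∧ ∀ (H : Type) [Group H] [Finite H] (k : ℕ), Nat.card H = p ^ k → H28T.RealG (W'⁄(𝓞 F)) p H := by
  have hp := (tw_prime h).1 hp'
  have hG : H28T.Gx (W'⁄(𝓞 F)) p = H28T.Gx (W⁄(𝓞 F)) p := funext fun v => propext (tw_gx h v)
  have r := H28T.rich_of h.base hp
  refine ⟨⟨fun K _ _ => ?_, ?_, ?_, ?_, ?_, ?_, fun K₀ _ _ hK => ?_, ?_⟩, fun H _ _ k hk => ?_⟩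
  · rw [hG]
    exact (tw_inPF h K).trans (r.cls K)
  · rw [hG]
    exact r.cyc
  · rw [hG]
    exact r.inf
  · rw [hG]
    exact r.abel
  · rw [hG]
    exact r.wr
  · rw [hG]
    exact r.emb
  · rw [hG] at hK
    exact (tw_inPF h K₀).2 (r.rat K₀ hK)
  · rw [hG]
    exact r.real
  · obtain ⟨K₀, i1, i2, h1, h2, N, j1, j2, j3, j4, h3, h4, h5, h6⟩ := H28T.real_Q h.base hp H k hk
    exact ⟨K₀, i1, i2, h1, (tw_inPF h K₀).2 h2, N, j1, j2, j3, j4, h3, h4, by rw [hG]; exact h5, h6⟩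

end H28I
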