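import Mathlib
import Pool.Agent.Lib.H13D.MD
import Pool.Agent.Lib.H35P.R2
import Pool.Agent.Lib.H35P.Red
import Pool.Agent.Lib.H55K.D0

/-! # H28I, part N: the l-adic valuation of the rational numbers -/

open NumberField IsDedekindDomain WeierstrassCurve

namespace H28I

open H55P (IQ embF eF LF Per IsHecke Pt ac Inert Dec Nm)
open H35P (WAB Ker tt GoodW IntW)
open H55K (xc yc)
open H13D

variable {l : ℕ} [Fact l.Prime]

theorem n0_int {n : ℤ} : Rat.padicValuation l (n : ℚ) = 1 ↔ ¬ (l : ℤ) ∣ n := by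
  rw [Rat.padicValuation_cast]
  exact Int.padicValuation_eq_one_iff

theorem n0_int_le (n : ℤ) : Rat.padicValuation l (n : ℚ) ≤ 1 := by
  rw [Rat.padicValuation_cast]
  exact Int.padicValuation_le_one l n

/-- Chunk N0 (S). Rat.padicValuation_le_one_iff; x = num/den, the value of an integer is 1 iff l does not divide it (Int.padicValuation_eq_one_iff, Rat.padicValuation_cast). -/
theorem val_one_iff (x : ℚ) : Rat.padicValuation l x = 1 ↔ ¬ (l : ℤ) ∣ x.num ∧ ¬ l ∣ x.den := by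
  constructor
  · intro h
    have h1 : ¬ l ∣ x.den := Rat.padicValuation_le_one_iff.1 h.le
    refine ⟨?_, h1⟩
    have h2 : Rat.padicValuation l ((x.den : ℤ) : ℚ) = 1 := n0_int.2 (fun h' => h1 (Int.natCast_dvd_natCast.1 h'))
    have h3 : ((x.num : ℤ) : ℚ) = x * ((x.den : ℤ) : ℚ) := by
      have := Rat.mul_den_eq_num x
      push_cast
      exact this.symm
    apply n0_int.1
    rw [h3, map_mul, h, h2, one_mul]
  · rintro ⟨h1, h2⟩
    have h3 : Rat.padicValuation l ((x.den : ℤ) : ℚ) = 1 := n0_int.2 (fun h' => h2 (Int.natCast_dvd_natCast.1 h'))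
    have h4 : Rat.padicValuation l ((x.num : ℤ) : ℚ) = 1 := n0_int.2 h1
    have h5 : ((x.num : ℤ) : ℚ) = x * ((x.den : ℤ) : ℚ) := by
      have := Rat.mul_den_eq_num x
      push_cast
      exact this.symm
    rw [h5, map_mul, h3, mul_one] at h4
    exact h4

/-- Chunk N0 (S). -/
theorem intL_iff (E : WeierstrassCurve ℚ) : IntL E l ↔ H13D.VI (Rat.padicValuation l) E ∧ Rat.padicValuation l E.Δ = 1 := by
  constructor
  · rintro ⟨h1, h2, h3, h4, h6, h7, h8⟩
    exact ⟨⟨Rat.padicValuation_le_one_iff.2 h1, Rat.padicValuation_le_one_iff.2 h2, Rat.padicValuation_le_one_iff.2 h3,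
      Rat.padicValuation_le_one_iff.2 h4, Rat.padicValuation_le_one_iff.2 h6⟩, (val_one_iff _).2 ⟨h7, h8⟩⟩
  · rintro ⟨⟨h1, h2, h3, h4, h6⟩, h⟩
    obtain ⟨h7, h8⟩ := (val_one_iff _).1 h
    exact ⟨Rat.padicValuation_le_one_iff.1 h1, Rat.padicValuation_le_one_iff.1 h2, Rat.padicValuation_le_one_iff.1 h3,
      Rat.padicValuation_le_one_iff.1 h4, Rat.padicValuation_le_one_iff.1 h6, h7, h8⟩

/-- Chunk N0 (S/M). x = a/b, l does not divide b: an integer z with b z congruent to a modulo l^m (b is a unit modulo l^m): (z - x)/l^m = ((b z - a)/l^m)/b. -/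
theorem approx_int {x : ℚ} (hx : Rat.padicValuation l x ≤ 1) (m : ℕ) : ∃ z : ℤ, Rat.padicValuation l (((z : ℚ) - x) / (l : ℚ) ^ m) ≤ 1 := by
  have h1 : ¬ l ∣ x.den := Rat.padicValuation_le_one_iff.1 hx
  have h1' : ¬ (l : ℤ) ∣ (x.den : ℤ) := fun h' => h1 (Int.natCast_dvd_natCast.1 h')
  have hl : Prime (l : ℤ) := Nat.prime_iff_prime_int.1 (Fact.out : l.Prime)
  have hco : IsCoprime (x.den : ℤ) ((l : ℤ) ^ m) := by
    apply IsCoprime.pow_right
    exact ((Prime.coprime_iff_not_dvd hl).2 h1').symm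
  obtain ⟨p, q, hpq⟩ := hco
  refine ⟨p * x.num, ?_⟩
  have hb : (x.den : ℚ) ≠ 0 := by exact_mod_cast x.den_ne_zero
  have hlq : (l : ℚ) ≠ 0 := by exact_mod_cast (Fact.out : l.Prime).ne_zero
  have hpq' : (p : ℚ) * (x.den : ℚ) + (q : ℚ) * (l : ℚ) ^ m = 1 := by exact_mod_cast hpq
  have hxd : x * (x.den : ℚ) = (x.num : ℚ) := Rat.mul_den_eq_num x
  have e : (((p * x.num : ℤ) : ℚ) - x) / (l : ℚ) ^ m = (((- (x.num * q) : ℤ)) : ℚ) / ((x.den : ℤ) : ℚ) := by
    rw [div_eq_div_iff (pow_ne_zero _ hlq) (by push_cast; exact hb)]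
    push_cast
    rw [← hxd]
    linear_combination (x * (x.den : ℚ)) * hpq'
  rw [e, map_div₀, n0_int.2 h1', div_one]
  exact n0_int_le _

/-- Chunk N0 (S). x = n/l^m and l does not divide the denominator of x: the denominator divides l^m, so it is 1. -/
theorem int_of_val {n : ℤ} {m : ℕ} {x : ℚ} (hx : x * (l : ℚ) ^ m = n) (hv : Rat.padicValuation l x ≤ 1) : ∃ z : ℤ, x = z := by
  have h1 : ¬ l ∣ x.den := Rat.padicValuation_le_one_iff.1 hv
  have h2 : x.num * (l : ℤ) ^ m = n * (x.den : ℤ) := by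
    have hxd : x * (x.den : ℚ) = (x.num : ℚ) := Rat.mul_den_eq_num x
    have : (x.num : ℚ) * (l : ℚ) ^ m = (n : ℚ) * (x.den : ℚ) := by
      rw [← hxd, ← hx]
      ring
    exact_mod_cast this
  have h3 : (x.den : ℤ) ∣ x.num * (l : ℤ) ^ m := ⟨n, by rw [h2]; ring⟩
  have h4 : IsCoprime (x.den : ℤ) x.num := by
    have := x.reduced
    rw [Int.isCoprime_iff_gcd_eq_one, Int.gcd_comm]
    exact this
  have h5 : (x.den : ℤ) ∣ (l : ℤ) ^ m := h4.dvd_of_dvd_mul_left h3
  have h6 : x.den ∣ l ^ m := by exact_mod_cast h5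
  have h7 : x.den = 1 := by
    obtain ⟨j, _, hj⟩ := (Nat.dvd_prime_pow (Fact.out : l.Prime)).1 h6
    rcases Nat.eq_zero_or_pos j with h | h
    · rw [hj, h, pow_zero]
    · exact absurd (hj ▸ dvd_pow_self l h.ne') h1
  exact ⟨x.num, (Rat.den_eq_one_iff _).1 h7 |>.symm⟩

/-- Chunk N0 (S/M). A nonzero rational number of value < 1 is l^k ε with k ≥ 1 and ε of value 1 (padicValRat; Rat.padicValuation is exp (- padicValRat)). -/
theorem split_val {x : ℚ} (h0 : x ≠ 0) (hx : Rat.padicValuation l x < 1) : ∃ (k : ℕ) (ε : ℚ), 0 < k ∧ Rat.padicValuation l ε = 1 ∧ x = (l : ℚ) ^ k * ε := by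
  have hlq : (l : ℚ) ≠ 0 := by exact_mod_cast (Fact.out : l.Prime).ne_zero
  have hxv : Rat.padicValuation l x = WithZero.exp (-padicValRat l x) := by
    simp [Rat.padicValuation, h0]
  rw [hxv, ← WithZero.exp_zero, WithZero.exp_lt_exp] at hx
  have hk : 0 < padicValRat l x := by linarith
  refine ⟨(padicValRat l x).toNat, x / (l : ℚ) ^ (padicValRat l x).toNat, by omega, ?_, ?_⟩
  · rw [map_div₀, map_pow, Rat.padicValuation_self, hxv, ← WithZero.exp_nsmul]
    have : ((padicValRat l x).toNat • (-1 : ℤ)) = -padicValRat l x := by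
      rw [nsmul_eq_mul, Int.toNat_of_nonneg hk.le]
      ring
    rw [this]
    exact div_self WithZero.exp_ne_zero
  · field_simp

end H28I
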