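import Mathlib
import Pool.Agent.Lib.H13D.M1
import Pool.Agent.Lib.H35P.R2
import Pool.Agent.Lib.H35P.Red
import Pool.Agent.Lib.H55K.D0

/-! # H28I, part N: integral changes of variables -/

open NumberField IsDedekindDomain WeierstrassCurve

namespace H28I

open H55P (IQ embF eF LF Per IsHecke Pt ac Inert Dec Nm)
open H35P (WAB Ker tt GoodW IntW)
open H55K (xc yc)
open H13D

theorem n1_div {k Γ : Type} [Field k] [LinearOrderedCommGroupWithZero Γ] {v : Valuation k Γ} {u : kˣ} (hu : v (u : k) ≤ 1) (n : ℕ) {x : k}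
    (h : v (((u⁻¹ : kˣ) : k) ^ n * x) ≤ 1) : v x ≤ 1 := by
  have e : x = (u : k) ^ n * (((u⁻¹ : kˣ) : k) ^ n * x) := by
    rw [← mul_assoc, ← mul_pow, Units.mul_inv, one_pow, one_mul]
  rw [e, map_mul, map_pow]
  exact mul_le_one' (pow_le_one' hu n) h

/-- Chunk N1 (M). As vi_uniq (H13D/M1.lean), with u integral: V(2) = 1 or V(3) = 1. The quantities b₂, b₄, b₆, b₈ of E and b₆', b₈', a₂', a₆' of the second equation are integral (m1_b). u^8 b₈' = b₈ + 3 r b₆ + 3 r^2 b₄ + r^3 b₂ + 3 r^4 (variableChange_b₈), u^6 b₆' = b₆ + 2 r b₄ + r^2 b₂ + 4 r^3: V(r) ≤ 1. u^2 a₂' = a₂ - s a₁ + 3 r - s^2: V(s) ≤ 1.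
u^6 a₆' = a₆ + r a₄ + r^2 a₂ + r^3 - t a₃ - t^2 - r t a₁: V(t) ≤ 1. -/
theorem vi_rst {k Γ : Type} [Field k] [LinearOrderedCommGroupWithZero Γ] {v : Valuation k Γ} {E : WeierstrassCurve k} (hE : H13D.VI v E)
    {u : kˣ} (hu : v (u : k) ≤ 1) {r s t : k} (hE' : H13D.VI v ((⟨u, r, s, t⟩ : VariableChange k) • E)) : v r ≤ 1 ∧ v s ≤ 1 ∧ v t ≤ 1 := by
  have g : ∀ n : ℕ, (n : k) ∈ v.integer := fun n => natCast_mem _ n
  have g2 : (2 : k) ∈ v.integer := by exact_mod_cast g 2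
  have g3 : (3 : k) ∈ v.integer := by exact_mod_cast g 3
  obtain ⟨hb2, hb4, hb6, hb8⟩ := m1_b hE
  obtain ⟨hb2', hb4', hb6', hb8'⟩ := m1_b hE'
  obtain ⟨h1, h2, h3, h4, h6⟩ := hE
  obtain ⟨h1', h2', h3', h4', h6'⟩ := hE'
  rw [variableChange_b₆] at hb6'
  rw [variableChange_b₈] at hb8'
  rw [variableChange_a₂] at h2'
  rw [variableChange_a₆] at h6'
  replace hb6' := n1_div hu _ hb6'
  replace hb8' := n1_div hu _ hb8'
  replace h2' := n1_div hu _ h2'
  replace h6' := n1_div hu _ h6'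
  change E.a₁ ∈ v.integer at h1
  change E.a₂ ∈ v.integer at h2
  change E.a₃ ∈ v.integer at h3
  change E.a₄ ∈ v.integer at h4
  change E.a₆ ∈ v.integer at h6
  change E.b₂ ∈ v.integer at hb2
  change E.b₄ ∈ v.integer at hb4
  change E.b₆ ∈ v.integer at hb6
  change E.b₈ ∈ v.integer at hb8
  -- `r`
  have hr : v r ≤ 1 := by
    by_contra hlt
    rw [not_le] at hlt
    have h23 : v (2 : k) = 1 ∨ v (3 : k) = 1 := by
      by_contra hcon
      rw [not_or] at hcon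
      have l2 : v (2 : k) < 1 := lt_of_le_of_ne g2 hcon.1
      have l3 : v (3 : k) < 1 := lt_of_le_of_ne g3 hcon.2
      have e : (1 : k) = 3 - 2 := by norm_num
      have := Valuation.map_sub_lt v l3 l2
      rw [← e, map_one] at this
      exact lt_irrefl _ this
    rcases h23 with h | h
    · have e4 : v (4 : k) = 1 := by
        have : (4 : k) = 2 * 2 := by norm_num
        rw [this, map_mul, h, one_mul]
      have k1 : 1 < v (4 * r) := m1_unit 4 e4 hlt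
      have k2 := m1_mul hlt (m1_add k1 hb2)
      have k3 := m1_mul hlt (m1_add k2 (mul_mem g2 hb4))
      have k4 := m1_add k3 hb6
      have e : E.b₆ + 2 * r * E.b₄ + r ^ 2 * E.b₂ + 4 * r ^ 3 = r * (r * (4 * r + E.b₂) + 2 * E.b₄) + E.b₆ := by ring
      rw [e] at hb6'
      exact absurd hb6' (not_le.2 k4)
    · have k1 : 1 < v (3 * r) := m1_unit 3 h hlt
      have k2 := m1_mul hlt (m1_add k1 hb2)
      have k3 := m1_mul hlt (m1_add k2 (mul_mem g3 hb4))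
      have k4 := m1_mul hlt (m1_add k3 (mul_mem g3 hb6))
      have k5 := m1_add k4 hb8
      have e : E.b₈ + 3 * r * E.b₆ + 3 * r ^ 2 * E.b₄ + r ^ 3 * E.b₂ + 3 * r ^ 4 =
        r * (r * (r * (3 * r + E.b₂) + 3 * E.b₄) + 3 * E.b₆) + E.b₈ := by ring
      rw [e] at hb8'
      exact absurd hb8' (not_le.2 k5)
  have hr' : r ∈ v.integer := hr
  -- a quadratic equation
  have quad : ∀ x b c : k, x ^ 2 + b * x = c → b ∈ v.integer → c ∈ v.integer → v x ≤ 1 := by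
    intro x b c e hb hc
    by_contra hlt
    rw [not_le] at hlt
    have k1 := m1_mul hlt (m1_add hlt hb)
    have e' : x * (x + b) = c := by rw [← e]; ring
    rw [e'] at k1
    exact absurd hc (not_le.2 k1)
  refine ⟨hr, quad s E.a₁ (E.a₂ + 3 * r - (E.a₂ - s * E.a₁ + 3 * r - s ^ 2)) (by ring) h1 ?_,
    quad t (E.a₃ + r * E.a₁) (E.a₆ + r * E.a₄ + r ^ 2 * E.a₂ + r ^ 3 -
      (E.a₆ + r * E.a₄ + r ^ 2 * E.a₂ + r ^ 3 - t * E.a₃ - t ^ 2 - r * t * E.a₁)) (by ring) ?_ ?_⟩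
  · exact sub_mem (add_mem h2 (mul_mem g3 hr')) h2'
  · exact add_mem h3 (mul_mem hr' h1)
  · exact sub_mem (add_mem (add_mem (add_mem h6 (mul_mem hr' h4)) (mul_mem (pow_mem hr' 2) h2)) (pow_mem hr' 3)) h6'

end H28I
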