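import Mathlib
import Pool.Agent.Lib.H28I.N0
import Pool.Agent.Lib.H28I.N1

/-! # H28I, part N: one step towards a minimal equation -/

open NumberField IsDedekindDomain WeierstrassCurve

namespace H28I

open H55P (IQ embF eF LF Per IsHecke Pt ac Inert Dec Nm)
open H35P (WAB Ker tt GoodW IntW)
open H55K (xc yc)
open H13D

theorem n2_a1 (W : WeierstrassCurve ℤ) : (W⁄ℚ).a₁ = (W.a₁ : ℚ) := by simp [WeierstrassCurve.baseChange]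
theorem n2_a2 (W : WeierstrassCurve ℤ) : (W⁄ℚ).a₂ = (W.a₂ : ℚ) := by simp [WeierstrassCurve.baseChange]
theorem n2_a3 (W : WeierstrassCurve ℤ) : (W⁄ℚ).a₃ = (W.a₃ : ℚ) := by simp [WeierstrassCurve.baseChange]
theorem n2_a4 (W : WeierstrassCurve ℤ) : (W⁄ℚ).a₄ = (W.a₄ : ℚ) := by simp [WeierstrassCurve.baseChange]
theorem n2_a6 (W : WeierstrassCurve ℤ) : (W⁄ℚ).a₆ = (W.a₆ : ℚ) := by simp [WeierstrassCurve.baseChange]
theorem n2_D (W : WeierstrassCurve ℤ) : (W⁄ℚ).Δ = (W.Δ : ℚ) := by simp [WeierstrassCurve.baseChange]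

theorem n2_c {l : ℕ} [Fact l.Prime] {k : ℕ} {c : ℚˣ} (hc : (c : ℚ) = (l : ℚ) ^ k) (i : ℕ) (n : ℤ) {x : ℚ}
    (hx : x = ((c⁻¹ : ℚˣ) : ℚ) ^ i * (n : ℚ)) (hv : Rat.padicValuation l x ≤ 1) : ∃ z : ℤ, x = z := by
  apply int_of_val (n := n) (m := k * i) _ hv
  rw [hx, pow_mul, ← hc]
  have : ((c⁻¹ : ℚˣ) : ℚ) ^ i * (c : ℚ) ^ i = 1 := by rw [← mul_pow, Units.inv_mul, one_pow]
  linear_combination (n : ℚ) * this

/-- Chunk N2 (S/M). E₁ is integral at l and its coefficients are integers divided by powers of l (variableChange_a₁, ..: l^i a_i' is a polynomial with integral coefficients in the a_i, r₀, s₀, t₀): int_of_val for each of them. -/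
theorem int_model {l : ℕ} [Fact l.Prime] (W : WeierstrassCurve ℤ) {k : ℕ} {c : ℚˣ} (hc : (c : ℚ) = (l : ℚ) ^ k) (r₀ s₀ t₀ : ℤ)
    (h : H13D.VI (Rat.padicValuation l) ((⟨c, r₀, s₀, t₀⟩ : VariableChange ℚ) • (W⁄ℚ))) :
    ∃ W₁ : WeierstrassCurve ℤ, W₁⁄ℚ = (⟨c, r₀, s₀, t₀⟩ : VariableChange ℚ) • (W⁄ℚ) := by
  obtain ⟨h1, h2, h3, h4, h6⟩ := h
  obtain ⟨z1, e1⟩ := n2_c hc 1 (W.a₁ + 2 * s₀) (by
    rw [variableChange_a₁, n2_a1]; push_cast; ring) h1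
  obtain ⟨z2, e2⟩ := n2_c hc 2 (W.a₂ - s₀ * W.a₁ + 3 * r₀ - s₀ ^ 2) (by
    rw [variableChange_a₂, n2_a1, n2_a2]; push_cast; ring) h2
  obtain ⟨z3, e3⟩ := n2_c hc 3 (W.a₃ + r₀ * W.a₁ + 2 * t₀) (by
    rw [variableChange_a₃, n2_a1, n2_a3]; push_cast; ring) h3
  obtain ⟨z4, e4⟩ := n2_c hc 4 (W.a₄ - s₀ * W.a₃ + 2 * r₀ * W.a₂ - (t₀ + r₀ * s₀) * W.a₁ + 3 * r₀ ^ 2 - 2 * s₀ * t₀) (by
    rw [variableChange_a₄, n2_a1, n2_a2, n2_a3, n2_a4]; push_cast; ring) h4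
  obtain ⟨z6, e6⟩ := n2_c hc 6 (W.a₆ + r₀ * W.a₄ + r₀ ^ 2 * W.a₂ + r₀ ^ 3 - t₀ * W.a₃ - t₀ ^ 2 - r₀ * t₀ * W.a₁) (by
    rw [variableChange_a₆, n2_a1, n2_a2, n2_a3, n2_a4, n2_a6]; push_cast; ring) h6
  refine ⟨⟨z1, z2, z3, z4, z6⟩, ?_⟩
  apply WeierstrassCurve.ext
  · rw [n2_a1, e1]
  · rw [n2_a2, e2]
  · rw [n2_a3, e3]
  · rw [n2_a4, e4]
  · rw [n2_a6, e6]

/-- Chunk N2 (M). v = Rat.padicValuation l, C = ⟨u, r, s, t⟩, intL_iff. The discriminant of C • (W⁄ℚ) is W.Δ/u^12 and has value 1, v(W.Δ) < 1, so v(u) < 1: u = l^k ε, k ≥ 1 (split_val). vi_unit: E' = ⟨l^k, r, s, t⟩ • (W⁄ℚ) is integral; vi_rst: r, s, t have value ≤ 1. approx_int: integers r₀ for (r, 2k), s₀ for (s, k), t₀ for (t + s (r₀ - r), 3k).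
vi_comp with r' = (r₀ - r)/l^(2k), s' = (s₀ - s)/l^k, t' = (t₀ - t - s (r₀ - r))/l^(3k): ⟨l^k, r₀, s₀, t₀⟩ • (W⁄ℚ) = ⟨1, r', s', t'⟩ • E', integral (vi_change). int_model: W₁. W₁.Δ l^(12 k) = W.Δ: smaller absolute value. -/
theorem min_step {l : ℕ} (hl : l.Prime) (W : WeierstrassCurve ℤ) (hW : W.Δ ≠ 0) (hd : (l : ℤ) ∣ W.Δ) {C : VariableChange ℚ}
    (hC : IntL (C • (W⁄ℚ)) l) : ∃ (W₁ : WeierstrassCurve ℤ) (C₁ : VariableChange ℚ), W₁⁄ℚ = C₁ • (W⁄ℚ) ∧ W₁.Δ.natAbs < W.Δ.natAbs := by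
  haveI : Fact l.Prime := ⟨hl⟩
  obtain ⟨hVI, hΔ⟩ := (intL_iff _).1 hC
  obtain ⟨u, r, s, t⟩ := C
  have hlq : (l : ℚ) ≠ 0 := by exact_mod_cast hl.ne_zero
  have hE : H13D.VI (Rat.padicValuation l) (W⁄ℚ) := by
    constructor
    · rw [n2_a1]; exact n0_int_le _
    · rw [n2_a2]; exact n0_int_le _
    · rw [n2_a3]; exact n0_int_le _
    · rw [n2_a4]; exact n0_int_le _
    · rw [n2_a6]; exact n0_int_le _
  have hD1 : Rat.padicValuation l (W.Δ : ℚ) < 1 :=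
    lt_of_le_of_ne (n0_int_le _) (fun h => (n0_int.1 h) hd)
  have hu : Rat.padicValuation l (u : ℚ) < 1 := by
    by_contra hcon
    rw [not_lt] at hcon
    rw [variableChange_Δ, n2_D, map_mul, map_pow] at hΔ
    have h1 : Rat.padicValuation l ((u⁻¹ : ℚˣ) : ℚ) ≤ 1 := by
      rw [Units.val_inv_eq_inv_val, map_inv₀]
      exact inv_le_one_of_one_le₀ hcon
    have h2 : Rat.padicValuation l ((u⁻¹ : ℚˣ) : ℚ) ^ 12 * Rat.padicValuation l (W.Δ : ℚ) < 1 :=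
      lt_of_le_of_lt (mul_le_of_le_one_left' (pow_le_one' h1 12)) hD1
    exact absurd hΔ h2.ne
  obtain ⟨k, ε, hk, hε, hue⟩ := split_val u.ne_zero hu
  have hε0 : ε ≠ 0 := by
    intro h
    rw [h, map_zero] at hε
    exact zero_ne_one hε
  obtain ⟨c, hc⟩ : ∃ c : ℚˣ, (c : ℚ) = (l : ℚ) ^ k := ⟨Units.mk0 _ (pow_ne_zero k hlq), rfl⟩
  obtain ⟨e, he⟩ : ∃ e : ℚˣ, (e : ℚ) = ε := ⟨Units.mk0 _ hε0, rfl⟩
  have hu' : u = c * e := by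
    ext
    rw [Units.val_mul, hc, he, hue]
  rw [hu'] at hVI
  have h1 := vi_unit (v := Rat.padicValuation l) (by rw [he]; exact hε) hVI
  have hlv : Rat.padicValuation l (l : ℚ) ≤ 1 := by
    have := n0_int_le (l := l) (l : ℤ)
    push_cast at this
    exact this
  have hcv : Rat.padicValuation l (c : ℚ) ≤ 1 := by
    rw [hc, map_pow]
    exact pow_le_one' hlv k
  obtain ⟨hr, hs, ht⟩ := vi_rst hE hcv h1
  obtain ⟨r₀, hr₀⟩ := approx_int hr (2 * k)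
  obtain ⟨s₀, hs₀⟩ := approx_int hs k
  have hrr : Rat.padicValuation l ((r₀ : ℚ) - r) ≤ 1 := by
    refine (Valuation.map_sub _ _ _).trans (max_le (n0_int_le _) hr)
  have ht' : Rat.padicValuation l (t + s * ((r₀ : ℚ) - r)) ≤ 1 := by
    refine (Valuation.map_add _ _ _).trans (max_le ht ?_)
    rw [map_mul]
    exact mul_le_one' hs hrr
  obtain ⟨t₀, ht₀⟩ := approx_int ht' (3 * k)
  have h2 := vi_change h1 hr₀ hs₀ ht₀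
  rw [vi_comp, hc] at h2
  have hl2 : (l : ℚ) ^ k ≠ 0 := pow_ne_zero _ hlq
  have f1 : r + ((l : ℚ) ^ k) ^ 2 * (((r₀ : ℚ) - r) / (l : ℚ) ^ (2 * k)) = (r₀ : ℚ) := by
    rw [mul_comm 2 k, pow_mul]
    field_simp
    ring
  have f2 : s + (l : ℚ) ^ k * (((s₀ : ℚ) - s) / (l : ℚ) ^ k) = (s₀ : ℚ) := by
    field_simp
    ring
  have f3 : t + ((l : ℚ) ^ k) ^ 3 * (((t₀ : ℚ) - (t + s * ((r₀ : ℚ) - r))) / (l : ℚ) ^ (3 * k)) +
      ((l : ℚ) ^ k) ^ 2 * s * (((r₀ : ℚ) - r) / (l : ℚ) ^ (2 * k)) = (t₀ : ℚ) := by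
    rw [mul_comm 2 k, mul_comm 3 k, pow_mul, pow_mul]
    field_simp
    ring
  rw [f1, f2, f3] at h2
  obtain ⟨W₁, hW₁⟩ := int_model W hc r₀ s₀ t₀ h2
  refine ⟨W₁, ⟨c, r₀, s₀, t₀⟩, hW₁, ?_⟩
  have hD : (W₁.Δ : ℚ) = ((c⁻¹ : ℚˣ) : ℚ) ^ 12 * (W.Δ : ℚ) := by
    have := congrArg WeierstrassCurve.Δ hW₁
    rw [variableChange_Δ, n2_D, n2_D] at this
    exact this
  have hD2 : W₁.Δ * (l : ℤ) ^ (k * 12) = W.Δ := by
    have : (W₁.Δ : ℚ) * (l : ℚ) ^ (k * 12) = (W.Δ : ℚ) := by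
      rw [hD, pow_mul, ← hc]
      have : ((c⁻¹ : ℚˣ) : ℚ) ^ 12 * (c : ℚ) ^ 12 = 1 := by rw [← mul_pow, Units.inv_mul, one_pow]
      linear_combination (W.Δ : ℚ) * this
    exact_mod_cast this
  have hW1 : W₁.Δ ≠ 0 := by
    intro h
    rw [h, zero_mul] at hD2
    exact hW hD2.symm
  rw [← hD2, Int.natAbs_mul, Int.natAbs_pow, Int.natAbs_natCast]
  have hp : 1 < l ^ (k * 12) := Nat.one_lt_pow (by omega) hl.one_lt
  have hpos : 0 < W₁.Δ.natAbs := Int.natAbs_pos.2 hW1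
  nlinarith

end H28I
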