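import Mathlib
import Pool.Agent.Lib.H28I.D
import Pool.Agent.Lib.H28I.N2

/-! # H28I, part N: minimal equations exist -/

open NumberField IsDedekindDomain WeierstrassCurve

namespace H28I

open H55P (IQ embF eF LF Per IsHecke Pt ac Inert Dec Nm)
open H35P (WAB Ker tt GoodW IntW)
open H55K (xc yc)
open H13D

theorem n3_c (d : ℕ) {i : ℕ} (hi : 1 ≤ i) (x : ℚ) (h : x.den ∣ d) : ∃ z : ℤ, (d : ℚ) ^ i * x = z := by
  obtain ⟨m, hm⟩ := h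
  obtain ⟨j, rfl⟩ : ∃ j, i = j + 1 := ⟨i - 1, by omega⟩
  refine ⟨(d : ℤ) ^ j * m * x.num, ?_⟩
  have hxd : x * (x.den : ℚ) = (x.num : ℚ) := Rat.mul_den_eq_num x
  have hd : (d : ℚ) = (x.den : ℚ) * (m : ℚ) := by exact_mod_cast hm
  push_cast
  rw [← hxd, pow_succ]
  linear_combination ((d : ℚ) ^ j * x) * hd

/-- Chunk N3 (S/M). d = the product of the denominators of the coefficients; ⟨1/d, 0, 0, 0⟩ • E has the coefficients d^i a_i, which are integers. -/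
theorem exists_int (E : WeierstrassCurve ℚ) : ∃ (W : WeierstrassCurve ℤ) (C : VariableChange ℚ), W⁄ℚ = C • E := by
  obtain ⟨d, hd⟩ : ∃ d : ℕ, d = E.a₁.den * E.a₂.den * E.a₃.den * E.a₄.den * E.a₆.den := ⟨_, rfl⟩
  have hd0 : (d : ℚ) ≠ 0 := by
    rw [hd]
    push_cast
    have h : ∀ x : ℚ, (x.den : ℚ) ≠ 0 := fun x => by exact_mod_cast x.den_ne_zero
    exact mul_ne_zero (mul_ne_zero (mul_ne_zero (mul_ne_zero (h _) (h _)) (h _)) (h _)) (h _)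
  obtain ⟨z1, e1⟩ := n3_c d (i := 1) le_rfl E.a₁ (by rw [hd]; exact ⟨E.a₂.den * E.a₃.den * E.a₄.den * E.a₆.den, by ring⟩)
  obtain ⟨z2, e2⟩ := n3_c d (i := 2) (by norm_num) E.a₂ (by rw [hd]; exact ⟨E.a₁.den * E.a₃.den * E.a₄.den * E.a₆.den, by ring⟩)
  obtain ⟨z3, e3⟩ := n3_c d (i := 3) (by norm_num) E.a₃ (by rw [hd]; exact ⟨E.a₁.den * E.a₂.den * E.a₄.den * E.a₆.den, by ring⟩)
  obtain ⟨z4, e4⟩ := n3_c d (i := 4) (by norm_num) E.a₄ (by rw [hd]; exact ⟨E.a₁.den * E.a₂.den * E.a₃.den * E.a₆.den, by ring⟩)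
  obtain ⟨z6, e6⟩ := n3_c d (i := 6) (by norm_num) E.a₆ (by rw [hd]; exact ⟨E.a₁.den * E.a₂.den * E.a₃.den * E.a₄.den, by ring⟩)
  refine ⟨⟨z1, z2, z3, z4, z6⟩, ⟨(Units.mk0 (d : ℚ) hd0)⁻¹, 0, 0, 0⟩, ?_⟩
  apply WeierstrassCurve.ext
  · rw [n2_a1, variableChange_a₁, ← e1]
    simp
  · rw [n2_a2, variableChange_a₂, ← e2]
    simp
  · rw [n2_a3, variableChange_a₃, ← e3]
    simp
  · rw [n2_a4, variableChange_a₄, ← e4]
    simp
  · rw [n2_a6, variableChange_a₆, ← e6]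
    simp

/-- Chunk N3 (S/M). Among the W over ℤ with W⁄ℚ = C • E for some C take one with |W.Δ| minimal (Nat.find or WellFounded.min; exists_int). W.Δ ≠ 0 because E.Δ ≠ 0 (variableChange_Δ). If l divides W.Δ and C' • (W⁄ℚ) is IntL then min_step contradicts the minimality (C₁ • C • E = (C₁ * C) • E: mul_smul). -/
theorem min_ex (E : WeierstrassCurve ℚ) (hE : E.Δ ≠ 0) : ∃ (W : WeierstrassCurve ℤ) (C : VariableChange ℚ), W⁄ℚ = C • E ∧ W.Δ ≠ 0 ∧ MinZ W := by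
  classical
  let S : Set ℕ := {n | ∃ (W : WeierstrassCurve ℤ) (C : VariableChange ℚ), W⁄ℚ = C • E ∧ W.Δ.natAbs = n}
  have hS : S.Nonempty := by
    obtain ⟨W, C, h⟩ := exists_int E
    exact ⟨_, W, C, h, rfl⟩
  obtain ⟨W, C, h, hn⟩ := Nat.sInf_mem hS
  have hD : W.Δ ≠ 0 := by
    intro h0
    have h1 := congrArg WeierstrassCurve.Δ h
    rw [n2_D, variableChange_Δ, h0] at h1
    have h2 : ((C.u⁻¹ : ℚˣ) : ℚ) ^ 12 ≠ 0 := pow_ne_zero _ (Units.ne_zero _)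
    exact mul_ne_zero h2 hE (by rw [← h1]; norm_num)
  refine ⟨W, C, h, hD, ?_⟩
  intro l hl hd C' hC'
  obtain ⟨W₁, C₁, h1, h2⟩ := min_step hl W hD hd hC'
  have h3 : W₁.Δ.natAbs ∈ S := ⟨W₁, C₁ * C, by rw [h1, h, mul_smul], rfl⟩
  have h4 := Nat.sInf_le h3
  rw [← hn] at h4
  omega

/-- Chunk N3 (S). min_ex for WAB A B (its c₄ is -48 A, its c₆ is -864 B, its discriminant -16 (4 A^3 + 27 B^2)); variableChange_c₄, c₆: mu = u. -/
theorem min_short {A B : ℚ} (hd : 4 * A ^ 3 + 27 * B ^ 2 ≠ 0) : ∃ (W : WeierstrassCurve ℤ) (mu : ℚ), mu ≠ 0 ∧ W.Δ ≠ 0 ∧ MinZ W ∧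
    A = mu ^ 4 * sA W ℚ ∧ B = mu ^ 6 * sB W ℚ := by
  have hE : (WAB A B).Δ ≠ 0 := by
    have e : (WAB A B).Δ = -16 * (4 * A ^ 3 + 27 * B ^ 2) := by
      simp only [WAB, WeierstrassCurve.Δ, WeierstrassCurve.b₂, WeierstrassCurve.b₄, WeierstrassCurve.b₆, WeierstrassCurve.b₈]
      ring
    rw [e]
    exact mul_ne_zero (by norm_num) hd
  obtain ⟨W, C, h, hD, hM⟩ := min_ex (WAB A B) hE
  have e4 : (WAB A B).c₄ = -48 * A := by
    simp only [WAB, WeierstrassCurve.c₄, WeierstrassCurve.b₂, WeierstrassCurve.b₄]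
    ring
  have e6 : (WAB A B).c₆ = -864 * B := by
    simp only [WAB, WeierstrassCurve.c₆, WeierstrassCurve.b₂, WeierstrassCurve.b₄, WeierstrassCurve.b₆]
    ring
  have f4 : (W⁄ℚ).c₄ = (W.c₄ : ℚ) := by simp [WeierstrassCurve.baseChange]
  have f6 : (W⁄ℚ).c₆ = (W.c₆ : ℚ) := by simp [WeierstrassCurve.baseChange]
  have g4 := congrArg WeierstrassCurve.c₄ h
  have g6 := congrArg WeierstrassCurve.c₆ h
  rw [f4, variableChange_c₄, e4] at g4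
  rw [f6, variableChange_c₆, e6] at g6
  have hu : (C.u : ℚ) * ((C.u⁻¹ : ℚˣ) : ℚ) = 1 := Units.mul_inv _
  have hu4 : (C.u : ℚ) ^ 4 * ((C.u⁻¹ : ℚˣ) : ℚ) ^ 4 = 1 := by rw [← mul_pow, hu, one_pow]
  have hu6 : (C.u : ℚ) ^ 6 * ((C.u⁻¹ : ℚˣ) : ℚ) ^ 6 = 1 := by rw [← mul_pow, hu, one_pow]
  refine ⟨W, (C.u : ℚ), Units.ne_zero _, hD, hM, ?_, ?_⟩
  · rw [sA, g4]
    linear_combination (-A) * hu4
  · rw [sB, g6]
    linear_combination (-B) * hu6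

end H28I
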