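import Mathlib
import Pool.Agent.Lib.H13D.MD
import Pool.Agent.Lib.H13D.P0
import Pool.Agent.Lib.H28I.L0

/-! # H28I, part N: bad reduction over F -/

open NumberField IsDedekindDomain WeierstrassCurve

namespace H28I

open H55P (IQ embF eF LF Per IsHecke Pt ac Inert Dec Nm)
open H35P (WAB Ker tt GoodW IntW)
open H55K (xc yc)
open H13D
open H55K.TQ

section val

variable {K : Type} [Field K] [NumberField K] {v : HeightOneSpectrum (𝓞 K)}

theorem n4_int {l : ℕ} (hl : l.Prime) (hlv : (l : 𝓞 K) ∈ v.asIdeal) (n : ℤ) : (n : 𝓞 K) ∈ v.asIdeal ↔ (l : ℤ) ∣ n := by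
  constructor
  · intro h
    by_contra hn
    obtain ⟨u, w, huw⟩ := (Nat.prime_iff_prime_int.1 hl).irreducible.coprime_iff_not_dvd.2 hn
    apply v.isPrime.ne_top
    rw [Ideal.eq_top_iff_one]
    have h5 : (1 : 𝓞 K) = (u : 𝓞 K) * (l : 𝓞 K) + (w : 𝓞 K) * (n : 𝓞 K) := by
      have := congrArg (fun z : ℤ => (z : 𝓞 K)) huw
      push_cast at this
      exact this.symm
    rw [h5]
    exact v.asIdeal.add_mem (v.asIdeal.mul_mem_left _ hlv) (v.asIdeal.mul_mem_left _ h)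
  · rintro ⟨c, rfl⟩
    push_cast
    exact v.asIdeal.mul_mem_right _ hlv

theorem n4_val (n : ℤ) : v.valuation K ((n : ℤ) : K) < 1 ↔ (n : 𝓞 K) ∈ v.asIdeal := by
  rw [← v.valuation_lt_one_iff_mem (K := K)]
  have e : algebraMap (𝓞 K) K (n : 𝓞 K) = ((n : ℤ) : K) := map_intCast _ n
  rw [← e]

theorem n4_val1 (n : ℤ) : v.valuation K ((n : ℤ) : K) ≤ 1 := by
  have e : algebraMap (𝓞 K) K (n : 𝓞 K) = ((n : ℤ) : K) := map_intCast _ n
  rw [← e]
  exact v.valuation_le_one _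

theorem n4_rat (q : ℚ) : (q : K) * ((q.den : ℤ) : K) = ((q.num : ℤ) : K) := by
  have h1 : q * (q.den : ℚ) = (q.num : ℚ) := Rat.mul_den_eq_num q
  exact_mod_cast congrArg (fun z : ℚ => (z : K)) h1

theorem n4_den {l : ℕ} (hl : l.Prime) (hlv : (l : 𝓞 K) ∈ v.asIdeal) (q : ℚ) (h : v.valuation K (q : K) ≤ 1) : ¬ l ∣ q.den := by
  intro hd
  have h1 : ¬ (l : ℤ) ∣ q.num := by
    intro h2
    have h3 := q.reduced
    have h4 : l ∣ q.num.natAbs := Int.natCast_dvd.1 h2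
    have h5 := Nat.dvd_gcd h4 hd
    rw [Nat.Coprime] at h3
    rw [h3] at h5
    exact hl.one_lt.ne' (Nat.dvd_one.1 h5)
  have h2 := congrArg (v.valuation K) (n4_rat (K := K) q)
  rw [map_mul] at h2
  have h3 : v.valuation K ((q.den : ℤ) : K) < 1 := (n4_val _).2 ((n4_int hl hlv _).2 (by exact_mod_cast hd))
  have h4 : v.valuation K (q : K) * v.valuation K ((q.den : ℤ) : K) < 1 :=
    mul_lt_one_of_nonneg_of_lt_one_right h zero_le h3
  rw [h2, n4_val, n4_int hl hlv] at h4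
  exact h1 h4

theorem n4_num {l : ℕ} (hl : l.Prime) (hlv : (l : 𝓞 K) ∈ v.asIdeal) (q : ℚ) (h : v.valuation K (q : K) = 1) :
    ¬ (l : ℤ) ∣ q.num := by
  intro h2
  have h3 := congrArg (v.valuation K) (n4_rat (K := K) q)
  rw [map_mul, h, one_mul] at h3
  have h4 := (n4_val (v := v) q.num).2 ((n4_int hl hlv _).2 h2)
  rw [← h3, n4_val, n4_int hl hlv] at h4
  exact n4_den hl hlv q h.le (by exact_mod_cast h4)

end val

/-- Chunk N4 (S/M). K = ℚ, w a prime of 𝓞 ℚ containing l. The valuation w.valuation ℚ of a rational number is ≤ 1 iff l does not divide the denominator, and 1 iff l divides neither numerator nor denominator (integers are in w iff l divides them; as den_of_val, num_of_val in H13D/M5.lean, which are for F with IQ F: copy). -/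
theorem good_Q {l : ℕ} (hl : l.Prime) (w : HeightOneSpectrum (𝓞 ℚ)) (hw : (l : 𝓞 ℚ) ∈ w.asIdeal) (W : WeierstrassCurve ℤ) :
    (¬ (l : ℤ) ∣ W.Δ → H55K.GoodAt (W⁄ℚ) w) ∧ (H55K.GoodAt (W⁄ℚ) w → ∃ C : VariableChange ℚ, IntL (C • (W⁄ℚ)) l) := by
  have hid : ∀ q : ℚ, ((q : ℚ) : ℚ) = q := fun q => rfl
  constructor
  · intro h
    refine ⟨1, ?_, ?_, ?_, ?_, ?_, ?_⟩
    · rw [one_smul]
      exact n4_val1 (v := w) W.a₁
    · rw [one_smul]
      exact n4_val1 (v := w) W.a₂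
    · rw [one_smul]
      exact n4_val1 (v := w) W.a₃
    · rw [one_smul]
      exact n4_val1 (v := w) W.a₄
    · rw [one_smul]
      exact n4_val1 (v := w) W.a₆
    · rw [one_smul]
      have e1 : (W⁄ℚ).Δ = ((W.Δ : ℤ) : ℚ) := W.map_Δ (algebraMap ℤ ℚ)
      rw [e1]
      refine le_antisymm (n4_val1 (v := w) W.Δ) ?_
      by_contra h1
      rw [not_le, n4_val, n4_int hl hw] at h1
      exact h h1
  · rintro ⟨C, h1, h2, h3, h4, h6, hD⟩
    refine ⟨C, ⟨?_, ?_, ?_, ?_, ?_, ?_, ?_⟩⟩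
    · exact n4_den hl hw _ h1
    · exact n4_den hl hw _ h2
    · exact n4_den hl hw _ h3
    · exact n4_den hl hw _ h4
    · exact n4_den hl hw _ h6
    · exact n4_num hl hw _ hD
    · exact n4_den hl hw _ hD.le

/-- Chunk N4 (S). A maximal ideal of 𝓞 ℚ containing l (l is not a unit; or via the isomorphism 𝓞 ℚ = ℤ). -/
theorem exists_wl {l : ℕ} (hl : l.Prime) : ∃ w : HeightOneSpectrum (𝓞 ℚ), (l : 𝓞 ℚ) ∈ w.asIdeal := by
  have hnu : ¬ IsUnit (l : 𝓞 ℚ) := by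
    intro h
    have h1 := h.map Rat.ringOfIntegersEquiv
    rw [map_natCast, Int.isUnit_iff_natAbs_eq, Int.natAbs_natCast] at h1
    exact hl.one_lt.ne' h1
  have hne : Ideal.span {(l : 𝓞 ℚ)} ≠ ⊤ := by
    rwa [Ne, Ideal.span_singleton_eq_top]
  obtain ⟨M, hM, hle⟩ := Ideal.exists_le_maximal _ hne
  have hlM : (l : 𝓞 ℚ) ∈ M := hle (Ideal.mem_span_singleton_self _)
  have hM0 : M ≠ ⊥ := by
    rintro rfl
    have h1 : (l : 𝓞 ℚ) = 0 := hlM
    have h2 : (l : 𝓞 ℚ) ≠ 0 := Nat.cast_ne_zero.2 hl.ne_zero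
    exact h2 h1
  exact ⟨⟨M, hM.isPrime, hM0⟩, hlM⟩

/-- Chunk N4 (M). Suppose W'⁄F is good at v. good_iso over F (iso6_of with L from exists_perZ, iso6_symm; jint for W from jint_of / as in jint_Z): W⁄F is good at v, so W.Δ is not in v (bad_F, contraposition). l the prime number in v (below_v): l does not divide W.Δ (W.Δ = l m would be in v) but l divides W'.Δ (an integer in v is divisible by l: the end of bad_F).
Over ℚ: w from exists_wl, good_Q for W: W⁄ℚ is good at w; good_iso over ℚ: W'⁄ℚ is good at w; good_Q for W': contradiction to hmin'. -/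
theorem bad_tr {F : Type} [Field F] [NumberField F] [IQ F] {W W' : WeierstrassCurve ℤ} {Om : ℂ} {m : Ideal (𝓞 F)}
    {ψ : Ideal (𝓞 F) →*₀ 𝓞 F} (hH : BaseH F (W⁄(𝓞 F)) Om m ψ) (hmin : MinZ W) (hmin' : MinZ W') {kap : ℤ} {e t u lam : ℚ}
    (h : IP W W' kap e t u lam) (hj : ∃ j₀ : ℤ, W'.c₄ ^ 3 = j₀ * W'.Δ) (v : HeightOneSpectrum (𝓞 F))
    (hv : (W'⁄(𝓞 F)).Δ ∈ v.asIdeal) : ¬ H55K.GoodAt ((W'⁄(𝓞 F))⁄F) v := by
  classical
  intro hG
  rw [k1_cur] at hG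
  obtain ⟨hd1, hd2⟩ := disc_ne h
  obtain ⟨L, hL⟩ := exists_perZ (perW_of hH)
  have hDF : ∀ W : WeierstrassCurve ℤ, (W⁄(𝓞 F)).Δ = ((W.Δ : ℤ) : 𝓞 F) := by
    intro W
    exact (W.map_Δ (algebraMap ℤ (𝓞 F))).trans (by simp)
  have hne : ∀ (K : Type) [Field K] [NumberField K] (W : WeierstrassCurve ℤ), W.Δ ≠ 0 → (W⁄K).Δ ≠ 0 := by
    intro K _ _ W hW
    have e1 : (W⁄K).Δ = algebraMap ℤ K W.Δ := W.map_Δ (algebraMap ℤ K)
    rw [e1]
    simpa using hW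
  have h1 : H55K.GoodAt (W⁄F) v :=
    good_iso (hne F W' hd2) hd1 (jint_Z hH) (iso6_symm (iso6_of h hL F)) v hG
  have h2 : (W⁄(𝓞 F)).Δ ∉ v.asIdeal := by
    intro h3
    apply hH.bad v h3
    rw [k1_cur]
    exact h1
  obtain ⟨l, f, hl, hlv, -, -⟩ := below_v v
  have h3 : ¬ (l : ℤ) ∣ W.Δ := by
    intro h4
    apply h2
    rw [hDF]
    exact (n4_int hl hlv _).2 h4
  have h4 : (l : ℤ) ∣ W'.Δ := by
    rw [hDF] at hv
    exact (n4_int hl hlv _).1 hv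
  obtain ⟨w, hw⟩ := exists_wl hl
  have h5 := (good_Q hl w hw W).1 h3
  have h6 : H55K.GoodAt (W'⁄ℚ) w := good_iso (hne ℚ W hd1) hd2 hj (iso6_of h hL ℚ) w h5
  obtain ⟨C, hC⟩ := (good_Q hl w hw W').2 h6
  exact hmin' l hl h4 C hC

/-- The structure TW from minimal equations. -/
theorem tw_of {F : Type} [Field F] [NumberField F] [IQ F] {W W' : WeierstrassCurve ℤ} {Om : ℂ} {m : Ideal (𝓞 F)}
    {ψ : Ideal (𝓞 F) →*₀ 𝓞 F} (hH : BaseH F (W⁄(𝓞 F)) Om m ψ) (hmin : MinZ W) (hmin' : MinZ W') {kap : ℤ} {e t u lam : ℚ}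
    (h : IP W W' kap e t u lam) (hj : ∃ j₀ : ℤ, W'.c₄ ^ 3 = j₀ * W'.Δ) : TW F W W' Om m ψ kap e t u lam :=
  ⟨hH, h, hj, fun v hv => bad_tr hH hmin hmin' h hj v hv⟩

end H28I
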