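import Mathlib
import Pool.Agent.Lib.H28I.E4

/-! # H28I, part N: rational points of order 2 and the discriminant -/

open NumberField IsDedekindDomain WeierstrassCurve

namespace H28I

open H55P (IQ embF eF LF Per IsHecke Pt ac Inert Dec Nm)
open H35P (WAB Ker tt GoodW IntW)
open H55K (xc yc)

/-- Chunk N5 (M). Suppose b₂ is even and Δ is odd. b₂ = a₁^2 + 4 a₂: a₁ is even, 4 divides b₂; b₄ = 2 a₄ + a₁ a₃ is even. Δ = - b₂^2 b₈ - 8 b₄^3 - 27 b₆^2 + 9 b₂ b₄ b₆ is odd, so b₆ is odd. x = m/n in lowest terms: 4 m^3 + b₂ m^2 n + 2 b₄ m n^2 + b₆ n^3 = 0. n odd: 4 divides b₆ n^3, contradiction.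
n even, m odd: modulo 8: b₂ m^2 n, 2 b₄ m n^2 and b₆ n^3 are divisible by 8, 4 m^3 is not. -/
theorem even_disc (W : WeierstrassCurve ℤ) (hb : (2 : ℤ) ∣ W.b₂) {x : ℚ}
    (hx : 4 * x ^ 3 + W.b₂ * x ^ 2 + 2 * W.b₄ * x + W.b₆ = 0) : (2 : ℤ) ∣ W.Δ := by
  by_contra hD
  have ha1 : (2 : ℤ) ∣ W.a₁ := by
    have h1 : (2 : ℤ) ∣ W.a₁ ^ 2 := by
      have h2 := hb
      rw [WeierstrassCurve.b₂] at h2
      omega
    exact Int.prime_two.dvd_of_dvd_pow h1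
  obtain ⟨c, hc⟩ := ha1
  have e2 : W.b₂ = 4 * (c ^ 2 + W.a₂) := by
    rw [WeierstrassCurve.b₂, hc]
    ring
  have e4 : W.b₄ = 2 * (W.a₄ + c * W.a₃) := by
    rw [WeierstrassCurve.b₄, hc]
    ring
  have h6 : ¬ (2 : ℤ) ∣ W.b₆ := by
    rintro ⟨k, hk⟩
    apply hD
    rw [WeierstrassCurve.Δ, e2, e4, hk]
    exact ⟨-(8 * (c ^ 2 + W.a₂) ^ 2 * W.b₈) - 32 * (W.a₄ + c * W.a₃) ^ 3 - 54 * k ^ 2 +
      72 * (c ^ 2 + W.a₂) * (W.a₄ + c * W.a₃) * k, by ring⟩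
  have hd : (x.den : ℚ) ≠ 0 := by exact_mod_cast x.den_ne_zero
  have hxe : x * (x.den : ℚ) = (x.num : ℚ) := by
    exact_mod_cast Rat.mul_den_eq_num x
  have hq : 4 * (x.num : ℚ) ^ 3 + W.b₂ * (x.num : ℚ) ^ 2 * (x.den : ℚ) + 2 * W.b₄ * (x.num : ℚ) * (x.den : ℚ) ^ 2 +
      W.b₆ * (x.den : ℚ) ^ 3 = 0 := by
    rw [← hxe]
    linear_combination (x.den : ℚ) ^ 3 * hx
  have hz : 4 * x.num ^ 3 + W.b₂ * x.num ^ 2 * (x.den : ℤ) + 2 * W.b₄ * x.num * (x.den : ℤ) ^ 2 +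
      W.b₆ * (x.den : ℤ) ^ 3 = 0 := by
    exact_mod_cast hq
  have hcop : IsCoprime x.num (x.den : ℤ) := by
    rw [Int.isCoprime_iff_gcd_eq_one]
    exact x.reduced
  rw [e2, e4] at hz
  have hn : (2 : ℤ) ∣ (x.den : ℤ) := by
    have h1 : (2 : ℤ) ∣ W.b₆ * (x.den : ℤ) ^ 3 := by
      refine ⟨-(2 * x.num ^ 3 + 2 * (c ^ 2 + W.a₂) * x.num ^ 2 * (x.den : ℤ) +
        2 * (W.a₄ + c * W.a₃) * x.num * (x.den : ℤ) ^ 2), ?_⟩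
      linear_combination hz
    rcases Int.prime_two.dvd_or_dvd h1 with h2 | h2
    · exact absurd h2 h6
    · exact Int.prime_two.dvd_of_dvd_pow h2
  obtain ⟨n', hn'⟩ := hn
  have hm : (2 : ℤ) ∣ x.num := by
    have h1 : (2 : ℤ) ∣ x.num ^ 3 := by
      refine ⟨-((c ^ 2 + W.a₂) * x.num ^ 2 * n' + 2 * (W.a₄ + c * W.a₃) * x.num * n' ^ 2 + W.b₆ * n' ^ 3), ?_⟩
      rw [hn'] at hz
      linarith
    exact Int.prime_two.dvd_of_dvd_pow h1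
  have h2 : (2 : ℤ) ∣ 1 := by
    obtain ⟨a, b, hab⟩ := hcop
    rw [← hab]
    exact dvd_add (Dvd.dvd.mul_left hm a) (Dvd.dvd.mul_left ⟨n', hn'⟩ b)
  norm_num at h2

/-- Chunk N5 (S). four_f (E4.lean) for k = ℚ, e₀ = e - b₂/12. -/
theorem even_disc' (W : WeierstrassCurve ℤ) (hb : (2 : ℤ) ∣ W.b₂) {e : ℚ} (he : e ^ 3 + sA W ℚ * e + sB W ℚ = 0) : (2 : ℤ) ∣ W.Δ := by
  have h1 := (four_f W (e - (W.b₂ : ℚ) / 12)).1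
  rw [sub_add_cancel, he, mul_zero] at h1
  exact even_disc W hb h1.symm

/-- Chunk N5 (S). c₄ = b₂^2 - 24 b₄. -/
theorem even_b2 (W : WeierstrassCurve ℤ) (h : (2 : ℤ) ∣ W.c₄) : (2 : ℤ) ∣ W.b₂ := by
  have h1 : (2 : ℤ) ∣ W.b₂ ^ 2 := by
    rw [WeierstrassCurve.c₄] at h
    omega
  exact Int.prime_two.dvd_of_dvd_pow h1

/-- Chunk N5 (S). c₄ = 0: b₂^2 = 24 b₄, so 3 divides b₂, 9 divides 24 b₄, 3 divides b₄; Δ = - b₂^2 b₈ - 8 b₄^3 - 27 b₆^2 + 9 b₂ b₄ b₆. -/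
theorem three_disc (W : WeierstrassCurve ℤ) (h : W.c₄ = 0) : (3 : ℤ) ∣ W.Δ := by
  rw [WeierstrassCurve.c₄] at h
  have h2 : (3 : ℤ) ∣ W.b₂ := by
    have h1 : (3 : ℤ) ∣ W.b₂ ^ 2 := ⟨8 * W.b₄, by linear_combination h⟩
    exact Int.prime_three.dvd_of_dvd_pow h1
  obtain ⟨d, hd⟩ := h2
  have h4 : (3 : ℤ) ∣ W.b₄ := by
    rw [hd] at h
    have h1 : (3 : ℤ) ∣ 8 * W.b₄ := ⟨d ^ 2, by linarith⟩
    omega
  obtain ⟨f, hf⟩ := h4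
  rw [WeierstrassCurve.Δ, hd, hf]
  exact ⟨-(3 * d ^ 2 * W.b₈) - 72 * f ^ 3 - 9 * W.b₆ ^ 2 + 27 * d * f * W.b₆, by ring⟩

end H28I
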