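import Mathlib
import Pool.Agent.Lib.H28I.N5

/-! # H28I, part N: the four families -/

open NumberField IsDedekindDomain WeierstrassCurve

namespace H28I

open H55P (IQ embF eF LF Per IsHecke Pt ac Inert Dec Nm)
open H35P (WAB Ker tt GoodW IntW)
open H55K (xc yc)

/-- Chunk N6 (S/M). 1728 Δ = c₄^3 - c₆^2: Δ = -16 (4 A^3 + 27 B^2) with A = sA, B = sB. -/
theorem disc_sAB (W : WeierstrassCurve ℤ) : (W.Δ : ℚ) = -16 * (4 * sA W ℚ ^ 3 + 27 * sB W ℚ ^ 2) ∧ (W.c₄ : ℚ) = -48 * sA W ℚ := by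
  have h1 := W.c_relation
  have h2 : (1728 : ℚ) * (W.Δ : ℚ) = (W.c₄ : ℚ) ^ 3 - (W.c₆ : ℚ) ^ 2 := by
    exact_mod_cast h1
  constructor
  · rw [sA, sB]
    linear_combination h2 / 1728
  · rw [sA]
    ring

/-- Chunk N6 (M). The scaling. (A, B) = (mu^4 sA W, mu^6 sB W), (A', B') = (sA W', sB W'); e/mu^2, t/mu^4, u/mu^6, lam = 1/mu. vi: divide the equations by powers of mu. quo: disc_sAB for both, hk. -/
theorem ip_scale {W W' : WeierstrassCurve ℤ} {A B e t u mu : ℚ} {kap : ℤ} (hmu : mu ≠ 0) (hA : A = mu ^ 4 * sA W ℚ) (hB : B = mu ^ 6 * sB W ℚ)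
    (h : VI A B (sA W' ℚ) (sB W' ℚ) e t u)
    (hk : 4 * sA W' ℚ ^ 3 + 27 * sB W' ℚ ^ 2 = kap * (4 * A ^ 3 + 27 * B ^ 2)) (kd : ∃ n : ℕ, kap ∣ W.Δ ^ n) (k6 : ∃ n : ℕ, kap ∣ 6 ^ n)
    (two : u = 0 → (2 : ℤ) ∣ W.Δ ∨ (¬ (2 : ℤ) ∣ W.b₂ ∧ ∃ a b : ℤ, ¬ (2 : ℤ) ∣ b ∧ t / mu ^ 4 = a / b))
    (three : u ≠ 0 → (3 : ℤ) ∣ W.Δ) : IP W W' kap (e / mu ^ 2) (t / mu ^ 4) (u / mu ^ 6) mu⁻¹ := by
  subst hA hB
  have h12 : mu ^ 12 ≠ 0 := pow_ne_zero 12 hmu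
  refine ⟨inv_ne_zero hmu, ⟨?_, ?_, ?_, ?_, ?_⟩, ?_, kd, k6, ?_, ?_⟩
  · intro h0
    apply h.disc
    linear_combination mu ^ 12 * h0
  · intro h0
    apply h.disc'
    have h1 : 4 * (mu⁻¹ ^ 4 * sA W' ℚ) ^ 3 + 27 * (mu⁻¹ ^ 6 * sB W' ℚ) ^ 2 =
        mu⁻¹ ^ 12 * (4 * sA W' ℚ ^ 3 + 27 * sB W' ℚ ^ 2) := by
      ring
    rw [h1] at h0
    rcases mul_eq_zero.1 h0 with h2 | h2
    · exact absurd h2 (pow_ne_zero 12 (inv_ne_zero hmu))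
    · exact h2
  · rw [h.hA]
    field_simp
  · rw [h.hB]
    field_simp
  · rcases h.cs with ⟨h1, h2, h3⟩ | ⟨h1, h2, h3⟩
    · left
      refine ⟨by rw [h1, zero_div], ?_, ?_⟩
      · have h4 : (e / mu ^ 2) ^ 3 + sA W ℚ * (e / mu ^ 2) + sB W ℚ =
            (e ^ 3 + mu ^ 4 * sA W ℚ * e + mu ^ 6 * sB W ℚ) / mu ^ 6 := by
          field_simp
        rw [h4, h2, zero_div]
      · rw [h3]
        field_simp
    · right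
      refine ⟨?_, ?_, ?_⟩
      · rw [h1]
        field_simp
      · rw [h2]
        field_simp
      · have h4 : 3 * (e / mu ^ 2) ^ 4 + 6 * sA W ℚ * (e / mu ^ 2) ^ 2 + 12 * sB W ℚ * (e / mu ^ 2) - sA W ℚ ^ 2 =
            (3 * e ^ 4 + 6 * (mu ^ 4 * sA W ℚ) * e ^ 2 + 12 * (mu ^ 6 * sB W ℚ) * e - (mu ^ 4 * sA W ℚ) ^ 2) / mu ^ 8 := by
          field_simp
        rw [h4, h3, zero_div]
  · rw [(disc_sAB W).1, (disc_sAB W').1, hk]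
    field_simp
  · intro h0
    have h1 : u = 0 := by
      rcases div_eq_zero_iff.1 h0 with h2 | h2
      · exact h2
      · exact absurd h2 (pow_ne_zero 6 hmu)
    exact two h1
  · intro h0
    apply three
    rintro rfl
    exact h0 (zero_div _)

/-- Chunk N6 (S/M). D = -12: e = a, t = 3 a^2, u = 0, kap = -16: VI: 1st case. sA W = 0 (mu ≠ 0), so c₄ = 0 (disc_sAB), b₂ is even (even_b2), e/mu^2 is a root of x^3 + sA W x + sB W: 2 divides Δ (even_disc'), -16 divides Δ^4. jint: disc_sAB for W'. -/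
theorem fam12 {W W' : WeierstrassCurve ℤ} {a mu : ℚ} (ha : a ≠ 0) (hmu : mu ≠ 0) (hA : 0 = mu ^ 4 * sA W ℚ) (hB : -a ^ 3 = mu ^ 6 * sB W ℚ)
    (hA' : sA W' ℚ = -15 * a ^ 2) (hB' : sB W' ℚ = -22 * a ^ 3) :
    IP W W' (-16) (a / mu ^ 2) (3 * a ^ 2 / mu ^ 4) (0 / mu ^ 6) mu⁻¹ ∧ W'.c₄ ^ 3 = 54000 * W'.Δ := by
  have ha6 : a ^ 6 ≠ 0 := pow_ne_zero 6 ha
  have hs : sA W ℚ = 0 := by
    rcases mul_eq_zero.1 hA.symm with h1 | h1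
    · exact absurd h1 (pow_ne_zero 4 hmu)
    · exact h1
  have hc4 : W.c₄ = 0 := by
    have h1 := (disc_sAB W).2
    rw [hs, mul_zero] at h1
    exact_mod_cast h1
  have hb2 : (2 : ℤ) ∣ W.b₂ := even_b2 W (by rw [hc4]; exact dvd_zero 2)
  have hroot : (a / mu ^ 2) ^ 3 + sA W ℚ * (a / mu ^ 2) + sB W ℚ = 0 := by
    have h4 : (a / mu ^ 2) ^ 3 + sA W ℚ * (a / mu ^ 2) + sB W ℚ =
        (a ^ 3 + mu ^ 4 * sA W ℚ * a + mu ^ 6 * sB W ℚ) / mu ^ 6 := by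
      field_simp
    rw [h4, ← hA, ← hB]
    ring
  have hΔ : (2 : ℤ) ∣ W.Δ := even_disc' W hb2 hroot
  refine ⟨ip_scale hmu hA hB ⟨?_, ?_, ?_, ?_, ?_⟩ ?_ ⟨4, ?_⟩ ⟨4, ?_⟩ (fun _ => Or.inl hΔ) (fun h => absurd rfl h), ?_⟩
  · have h1 : 4 * (0 : ℚ) ^ 3 + 27 * (-a ^ 3) ^ 2 = 27 * a ^ 6 := by ring
    rw [h1]
    exact mul_ne_zero (by norm_num) ha6
  · rw [hA', hB']
    have h1 : 4 * (-15 * a ^ 2) ^ 3 + 27 * (-22 * a ^ 3) ^ 2 = -432 * a ^ 6 := by ring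
    rw [h1]
    exact mul_ne_zero (by norm_num) ha6
  · rw [hA']
    ring
  · rw [hB']
    ring
  · left
    exact ⟨rfl, by ring, by ring⟩
  · rw [hA', hB']
    push_cast
    ring
  · obtain ⟨k, hk⟩ := hΔ
    exact ⟨-k ^ 4, by rw [hk]; ring⟩
  · exact ⟨-81, by norm_num⟩
  · have h1 := (disc_sAB W').1
    have h2 := (disc_sAB W').2
    rw [hA', hB'] at h1
    rw [hA'] at h2
    have h3 : (W'.c₄ : ℚ) ^ 3 = 54000 * (W'.Δ : ℚ) := by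
      rw [h1, h2]
      ring
    exact_mod_cast h3

/-- Chunk N6 (S/M). D = -16: e = a, t = 2 a^2, u = 0, kap = 8. c₄^3 = 1728 Δ for W (disc_sAB: sB W = 0), so c₄ is even (2 divides c₄^3), b₂ is even, 2 divides Δ, 8 divides Δ^3. -/
theorem fam16 {W W' : WeierstrassCurve ℤ} {a mu : ℚ} (ha : a ≠ 0) (hmu : mu ≠ 0) (hA : -a ^ 2 = mu ^ 4 * sA W ℚ) (hB : 0 = mu ^ 6 * sB W ℚ)
    (hA' : sA W' ℚ = -11 * a ^ 2) (hB' : sB W' ℚ = -14 * a ^ 3) :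
    IP W W' 8 (a / mu ^ 2) (2 * a ^ 2 / mu ^ 4) (0 / mu ^ 6) mu⁻¹ ∧ W'.c₄ ^ 3 = 287496 * W'.Δ := by
  have ha6 : a ^ 6 ≠ 0 := pow_ne_zero 6 ha
  have hs : sB W ℚ = 0 := by
    rcases mul_eq_zero.1 hB.symm with h1 | h1
    · exact absurd h1 (pow_ne_zero 6 hmu)
    · exact h1
  have hc : W.c₄ ^ 3 = 1728 * W.Δ := by
    have h1 := (disc_sAB W).1
    have h2 := (disc_sAB W).2
    rw [hs] at h1
    have h3 : (W.c₄ : ℚ) ^ 3 = 1728 * (W.Δ : ℚ) := by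
      rw [h1, h2]
      ring
    exact_mod_cast h3
  have hc4 : (2 : ℤ) ∣ W.c₄ := by
    have h1 : (2 : ℤ) ∣ W.c₄ ^ 3 := ⟨864 * W.Δ, by rw [hc]; ring⟩
    exact Int.prime_two.dvd_of_dvd_pow h1
  have hb2 : (2 : ℤ) ∣ W.b₂ := even_b2 W hc4
  have hroot : (a / mu ^ 2) ^ 3 + sA W ℚ * (a / mu ^ 2) + sB W ℚ = 0 := by
    have h4 : (a / mu ^ 2) ^ 3 + sA W ℚ * (a / mu ^ 2) + sB W ℚ =
        (a ^ 3 + mu ^ 4 * sA W ℚ * a + mu ^ 6 * sB W ℚ) / mu ^ 6 := by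
      field_simp
    rw [h4, ← hA, ← hB]
    ring
  have hΔ : (2 : ℤ) ∣ W.Δ := even_disc' W hb2 hroot
  refine ⟨ip_scale hmu hA hB ⟨?_, ?_, ?_, ?_, ?_⟩ ?_ ⟨3, ?_⟩ ⟨3, ?_⟩ (fun _ => Or.inl hΔ) (fun h => absurd rfl h), ?_⟩
  · have h1 : 4 * (-a ^ 2) ^ 3 + 27 * (0 : ℚ) ^ 2 = -4 * a ^ 6 := by ring
    rw [h1]
    exact mul_ne_zero (by norm_num) ha6
  · rw [hA', hB']
    have h1 : 4 * (-11 * a ^ 2) ^ 3 + 27 * (-14 * a ^ 3) ^ 2 = -32 * a ^ 6 := by ring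
    rw [h1]
    exact mul_ne_zero (by norm_num) ha6
  · rw [hA']
    ring
  · rw [hB']
    ring
  · left
    exact ⟨rfl, by ring, by ring⟩
  · rw [hA', hB']
    push_cast
    ring
  · obtain ⟨k, hk⟩ := hΔ
    exact ⟨k ^ 3, by rw [hk]; ring⟩
  · exact ⟨27, by norm_num⟩
  · have h1 := (disc_sAB W').1
    have h2 := (disc_sAB W').2
    rw [hA', hB'] at h1
    rw [hA'] at h2
    have h3 : (W'.c₄ : ℚ) ^ 3 = 287496 * (W'.Δ : ℚ) := by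
      rw [h1, h2]
      ring
    exact_mod_cast h3

end H28I
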