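import Mathlib
import Pool.Agent.Lib.H28I.N6

/-! # H28I, part N: the four families, continued -/

open NumberField IsDedekindDomain WeierstrassCurve

namespace H28I

open H55P (IQ embF eF LF Per IsHecke Pt ac Inert Dec Nm)
open H35P (WAB Ker tt GoodW IntW)
open H55K (xc yc)

/-- Chunk N7 (S/M). D = -27: e = 4 a, t = 96 a^2, u = 192 a^3, kap = 9: VI: 2nd case (e^3 - 16 a^3 = 48 a^3, 3 e^4 - 192 a^3 e = 0). c₄ = 0, three_disc: 3 divides Δ, 9 divides Δ^2. -/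
theorem fam27 {W W' : WeierstrassCurve ℤ} {a mu : ℚ} (ha : a ≠ 0) (hmu : mu ≠ 0) (hA : 0 = mu ^ 4 * sA W ℚ) (hB : -16 * a ^ 3 = mu ^ 6 * sB W ℚ)
    (hA' : sA W' ℚ = -480 * a ^ 2) (hB' : sB W' ℚ = -4048 * a ^ 3) :
    IP W W' 9 (4 * a / mu ^ 2) (96 * a ^ 2 / mu ^ 4) (192 * a ^ 3 / mu ^ 6) mu⁻¹ ∧ W'.c₄ ^ 3 = -12288000 * W'.Δ := by
  have h0 : sA W ℚ = 0 := by
    have h1 : mu ^ 4 ≠ 0 := pow_ne_zero _ hmu
    rcases mul_eq_zero.mp hA.symm with h | h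
    · exact absurd h h1
    · exact h
  have hc : W.c₄ = 0 := by
    have h1 := (disc_sAB W).2
    rw [h0, mul_zero] at h1
    exact_mod_cast h1
  have h3 : (3 : ℤ) ∣ W.Δ := three_disc W hc
  have ha2 : a ^ 2 ≠ 0 := pow_ne_zero _ ha
  have ha3 : a ^ 3 ≠ 0 := pow_ne_zero _ ha
  have ha6 : a ^ 6 ≠ 0 := pow_ne_zero _ ha
  refine ⟨ip_scale (A := 0) (B := -16 * a ^ 3) hmu hA hB ?_ ?_ ⟨2, ?_⟩ ⟨2, ?_⟩ ?_ ?_, ?_⟩
  · refine ⟨?_, ?_, ?_, ?_, Or.inr ⟨?_, ?_, ?_⟩⟩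
    · intro h
      apply ha6
      linarith
    · rw [hA', hB']
      intro h
      apply ha6
      linarith
    · rw [hA']
      ring
    · rw [hB']
      ring
    · ring
    · ring
    · ring
  · rw [hA', hB']
    push_cast
    ring
  · obtain ⟨d, hd⟩ := h3
    exact ⟨d ^ 2, by rw [hd]; ring⟩
  · norm_num
  · intro h
    exfalso
    apply ha3
    linarith
  · intro _
    exact h3
  · have h1 := (disc_sAB W').1
    have h2 := (disc_sAB W').2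
    rw [hA', hB'] at h1
    rw [hA'] at h2
    have h4 : ((W'.c₄ : ℚ)) ^ 3 = -12288000 * (W'.Δ : ℚ) := by
      rw [h1, h2]
      ring
    exact_mod_cast h4

/-- Chunk N7 (M). D = -28: e = -7 a, t = 112 a^2, u = 0, kap = -1 (kd, k6 with n = 0). two: suppose 2 does not divide Δ. c₄^3 = -3375 Δ for W (disc_sAB), so c₄ and hence b₂ is odd (c₄ = b₂^2 - 24 b₄); t/mu^4 = 112 a^2/mu^4 = c₄/15 (sA W = -35 a^2/mu^4 = -c₄/48). -/
theorem fam28 {W W' : WeierstrassCurve ℤ} {a mu : ℚ} (ha : a ≠ 0) (hmu : mu ≠ 0) (hA : -35 * a ^ 2 = mu ^ 4 * sA W ℚ)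
    (hB : 98 * a ^ 3 = mu ^ 6 * sB W ℚ) (hA' : sA W' ℚ = -595 * a ^ 2) (hB' : sB W' ℚ = 5586 * a ^ 3) :
    IP W W' (-1) (-7 * a / mu ^ 2) (112 * a ^ 2 / mu ^ 4) (0 / mu ^ 6) mu⁻¹ ∧ W'.c₄ ^ 3 = 16581375 * W'.Δ := by
  have hm4 : mu ^ 4 ≠ 0 := pow_ne_zero _ hmu
  have hm6 : mu ^ 6 ≠ 0 := pow_ne_zero _ hmu
  have ha6 : a ^ 6 ≠ 0 := pow_ne_zero _ ha
  have hsA : sA W ℚ = -35 * a ^ 2 / mu ^ 4 := by
    rw [eq_div_iff hm4, hA]
    ring
  have hsB : sB W ℚ = 98 * a ^ 3 / mu ^ 6 := by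
    rw [eq_div_iff hm6, hB]
    ring
  have hc3 : W.c₄ ^ 3 = -3375 * W.Δ := by
    have h1 := (disc_sAB W).1
    have h2 := (disc_sAB W).2
    rw [hsA, hsB] at h1
    rw [hsA] at h2
    have h4 : ((W.c₄ : ℚ)) ^ 3 = -3375 * (W.Δ : ℚ) := by
      rw [h1, h2]
      field_simp
      ring
    exact_mod_cast h4
  have ht : 112 * a ^ 2 / mu ^ 4 = ((W.c₄ : ℤ) : ℚ) / ((15 : ℤ) : ℚ) := by
    have h2 := (disc_sAB W).2
    rw [hsA] at h2
    rw [h2]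
    push_cast
    ring
  refine ⟨ip_scale (A := -35 * a ^ 2) (B := 98 * a ^ 3) hmu hA hB ?_ ?_ ⟨0, ?_⟩ ⟨0, ?_⟩ ?_ ?_, ?_⟩
  · refine ⟨?_, ?_, ?_, ?_, Or.inl ⟨rfl, ?_, ?_⟩⟩
    · intro h
      apply ha6
      linarith
    · rw [hA', hB']
      intro h
      apply ha6
      linarith
    · rw [hA']
      ring
    · rw [hB']
      ring
    · ring
    · ring
  · rw [hA', hB']
    push_cast
    ring
  · exact ⟨-1, by norm_num⟩
  · norm_num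
  · intro _
    by_cases h2 : (2 : ℤ) ∣ W.Δ
    · exact Or.inl h2
    · right
      refine ⟨?_, W.c₄, 15, by norm_num, ht⟩
      intro hb
      apply h2
      have hc : (2 : ℤ) ∣ W.c₄ := by
        have h3 : W.c₄ = W.b₂ ^ 2 - 24 * W.b₄ := rfl
        rw [h3]
        obtain ⟨d, hd⟩ := hb
        exact ⟨2 * d ^ 2 - 12 * W.b₄, by rw [hd]; ring⟩
      have h4 : (2 : ℤ) ∣ -3375 * W.Δ := by
        rw [← hc3]
        exact dvd_pow hc (by norm_num)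
      rcases Int.prime_two.dvd_mul.mp h4 with h5 | h5
      · norm_num at h5
      · exact h5
  · intro h
    exact absurd rfl h
  · have h1 := (disc_sAB W').1
    have h2 := (disc_sAB W').2
    rw [hA', hB'] at h1
    rw [hA'] at h2
    have h4 : ((W'.c₄ : ℚ)) ^ 3 = 16581375 * (W'.Δ : ℚ) := by
      rw [h1, h2]
      ring
    exact_mod_cast h4

end H28I
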